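import Pool.Agent.H459R3.NS.Defs

/-!
Navier-Stokes systems with several components: definitions.
-/

open MeasureTheory Set
open scoped ContDiff

namespace Pool.Agent.N983.NC

open H459R3.NS

/-- The coupling constants `c a b d` are totally symmetric. -/
def Sym {K : Type*} (c : K → K → K → ℝ) : Prop :=
  ∀ a b d, c a b d = c b a d ∧ c a b d = c a d b

/-- `(u, p)` is a smooth `1`-periodic solution, on the time interval `[0, T)`, of the system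
`∂ₜ uᵃ + ∑_{b,d} c_{abd} (uᵇ·∇) uᵈ = ν Δ uᵃ - ∇ pᵃ + fᵃ`, `div uᵃ = 0`. -/
structure SolI {K : Type*} [Fintype K] (c : K → K → K → ℝ) (ν T : ℝ) (f u : K → ℝ → V → V)
    (p : K → ℝ → V → ℝ) : Prop where
  smooth_u : ∀ a, ContDiffOn ℝ ∞ (fun z : ℝ × V => u a z.1 z.2) (Ico 0 T ×ˢ univ)
  smooth_p : ∀ a, ContDiffOn ℝ ∞ (fun z : ℝ × V => p a z.1 z.2) (Ico 0 T ×ˢ univ)
  per_u : ∀ a, ∀ t ∈ Ico 0 T, Per (u a t)
  per_p : ∀ a, ∀ t ∈ Ico 0 T, Per (p a t)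
  divfree : ∀ a, ∀ t ∈ Ico 0 T, ∀ x, ∑ i, pd i (fun y => u a t y i) x = 0
  momentum : ∀ a, ∀ t ∈ Ioo 0 T, ∀ x i,
    deriv (fun s => u a s x i) t
        + ∑ b, ∑ d, c a b d * ∑ j, u b t x j * pd j (fun y => u d t y i) x
      = ν * ∑ j, pd j (pd j (fun y => u a t y i)) x - pd i (p a t) x + f a t x i

/-- `(u, p)` is a smooth `1`-periodic solution, on the time interval `[0, ∞)`, of the system
`∂ₜ uᵃ + ∑_{b,d} c_{abd} (uᵇ·∇) uᵈ = ν Δ uᵃ - ∇ pᵃ + fᵃ`, `div uᵃ = 0`. -/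
structure Adm {K : Type*} [Fintype K] (c : K → K → K → ℝ) (ν : ℝ) (f u : K → ℝ → V → V)
    (p : K → ℝ → V → ℝ) : Prop where
  smooth_u : ∀ a, ContDiffOn ℝ ∞ (fun z : ℝ × V => u a z.1 z.2) (Ici 0 ×ˢ univ)
  smooth_p : ∀ a, ContDiffOn ℝ ∞ (fun z : ℝ × V => p a z.1 z.2) (Ici 0 ×ˢ univ)
  per_u : ∀ a t, 0 ≤ t → Per (u a t)
  per_p : ∀ a t, 0 ≤ t → Per (p a t)
  divfree : ∀ a t, 0 ≤ t → ∀ x, ∑ i, pd i (fun y => u a t y i) x = 0
  momentum : ∀ a t, 0 < t → ∀ x i,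
    deriv (fun s => u a s x i) t
        + ∑ b, ∑ d, c a b d * ∑ j, u b t x j * pd j (fun y => u d t y i) x
      = ν * ∑ j, pd j (pd j (fun y => u a t y i)) x - pd i (p a t) x + f a t x i

theorem Adm.solI {K : Type*} [Fintype K] {c : K → K → K → ℝ} {ν : ℝ} {f u : K → ℝ → V → V}
    {p : K → ℝ → V → ℝ} (h : Adm c ν f u p) (T : ℝ) : SolI c ν T f u p where
  smooth_u a := (h.smooth_u a).mono (prod_mono Ico_subset_Ici_self subset_rfl)
  smooth_p a := (h.smooth_p a).mono (prod_mono Ico_subset_Ici_self subset_rfl)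
  per_u a t ht := h.per_u a t ht.1
  per_p a t ht := h.per_p a t ht.1
  divfree a t ht := h.divfree a t ht.1
  momentum a t ht := h.momentum a t ht.1

/-- The curl. -/
noncomputable def curl (A : V → V) (x : V) : V :=
  ![pd 1 (fun y => A y 2) x - pd 2 (fun y => A y 1) x,
    pd 2 (fun y => A y 0) x - pd 0 (fun y => A y 2) x,
    pd 0 (fun y => A y 1) x - pd 1 (fun y => A y 0) x]

/-- The set where `1 - t + κ |x|²` is positive. -/
def Om (κ : ℝ) : Set (ℝ × V) := {z | 0 < 1 - z.1 + κ * ∑ i, z.2 i ^ 2}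

end Pool.Agent.N983.NC
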