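import Pool.Agent.N983.NC.Ens

/-!
Ensembles of Navier-Stokes fields, projected to a subspace of random variables: main theorem.
-/

open Set Filter Topology
open scoped ContDiff

namespace Pool.Agent.N983.NC

open H459R3.NS

section W

variable {K : Type*} [Fintype K] [DecidableEq K] {n : ℕ} {m : Fin n → ℝ} {φ : K → Fin n → ℝ}

theorem repro (hort : ∀ a b, ∑ k, m k * (φ a k * φ b k) = if a = b then 1 else 0) (F : K → ℝ)
    (e : K) : ∑ k, m k * φ e k * ∑ a, φ a k * F a = F e := by
  simp_rw [Finset.mul_sum]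
  rw [Finset.sum_comm]
  have : ∀ a, ∑ k, m k * φ e k * (φ a k * F a) = (if e = a then 1 else 0) * F a := by
    intro a
    rw [← hort e a, Finset.sum_mul]
    exact Finset.sum_congr rfl fun k _ => by ring
  simp_rw [this]
  simp

theorem mem_W {h : Fin n → ℝ} (hh : h ∈ Submodule.span ℝ (Set.range φ)) :
    ∃ η : K → ℝ, ∀ k, h k = ∑ a, φ a k * η a := by
  rw [Submodule.mem_span_range_iff_exists_fun] at hh
  obtain ⟨η, hη⟩ := hh
  refine ⟨η, fun k => ?_⟩
  rw [← hη]
  simp [mul_comm]

theorem sum_mem_W (η : K → ℝ) : (fun k => ∑ a, φ a k * η a) ∈ Submodule.span ℝ (Set.range φ) := by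
  rw [Submodule.mem_span_range_iff_exists_fun]
  refine ⟨η, ?_⟩
  funext k
  simp [mul_comm]

theorem repro_W (hort : ∀ a b, ∑ k, m k * (φ a k * φ b k) = if a = b then 1 else 0)
    {h : Fin n → ℝ} (hh : h ∈ Submodule.span ℝ (Set.range φ)) (k : Fin n) :
    h k = ∑ a, φ a k * ∑ l, m l * φ a l * h l := by
  obtain ⟨η, hη⟩ := mem_W hh
  rw [hη k]
  refine Finset.sum_congr rfl fun a _ => ?_
  congr 1
  simp_rw [hη]
  exact (repro hort η a).symm

theorem orth_W {R : Fin n → ℝ} (hR : ∀ e, ∑ k, m k * φ e k * R k = 0) {h : Fin n → ℝ}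
    (hh : h ∈ Submodule.span ℝ (Set.range φ)) : ∑ k, m k * h k * R k = 0 := by
  obtain ⟨η, hη⟩ := mem_W hh
  simp_rw [hη]
  have : ∀ k, m k * (∑ a, φ a k * η a) * R k = ∑ a, η a * (m k * φ a k * R k) := by
    intro k
    rw [Finset.mul_sum, Finset.sum_mul]
    exact Finset.sum_congr rfl fun a _ => by ring
  simp_rw [this]
  rw [Finset.sum_comm]
  refine Finset.sum_eq_zero fun a _ => ?_
  rw [← Finset.mul_sum, hR, mul_zero]

theorem linind (hort : ∀ a b, ∑ k, m k * (φ a k * φ b k) = if a = b then 1 else 0) :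
    LinearIndependent ℝ φ := by
  rw [Fintype.linearIndependent_iff]
  intro g hg a
  have h1 := repro hort g a
  have h2 : ∀ k, ∑ a, φ a k * g a = 0 := by
    intro k
    have := congrFun hg k
    simp only [Finset.sum_apply, Pi.smul_apply, smul_eq_mul, Pi.zero_apply] at this
    rw [← this]
    exact Finset.sum_congr rfl fun a _ => mul_comm _ _
  simp_rw [h2] at h1
  simpa using h1.symm

end W

/-- The fields of the ensemble at the time `t`: values in `W`, divergence-free, and the residual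
of the Navier-Stokes equations is orthogonal to `W`. -/
structure GalAt {n : ℕ} (m : Fin n → ℝ) (W : Submodule ℝ (Fin n → ℝ)) (ν : ℝ)
    (f u : Fin n → ℝ → V → V) (p : Fin n → ℝ → V → ℝ) (t : ℝ) : Prop where
  orth : ∀ h ∈ W, ∀ x i, ∑ k, m k * h k * resid ν (f k) (u k) (p k) t x i = 0

theorem diff_self {U : V → V} (hU : ContDiff ℝ ∞ U) {t : ℝ} (ht : t < 1) (x : V) (i : Fin 3) :
    DifferentiableAt ℝ (fun s => ((Real.sqrt (1 - s))⁻¹ • U ((Real.sqrt (1 - s))⁻¹ • x)) i) t := by
  have h0 : Real.sqrt (1 - t) ≠ 0 := (Real.sqrt_pos.2 (by linarith)).ne'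
  have h1 : DifferentiableAt ℝ (fun s : ℝ => (Real.sqrt (1 - s))⁻¹) t :=
    (((differentiableAt_const 1).sub differentiableAt_id).sqrt (by simp; linarith)).inv h0
  have h2 : DifferentiableAt ℝ (fun s : ℝ => (Real.sqrt (1 - s))⁻¹ • x) t := h1.smul_const x
  have h3 : DifferentiableAt ℝ (fun s : ℝ => U ((Real.sqrt (1 - s))⁻¹ • x)) t :=
    ((hU.differentiable (by norm_cast)) _).comp t h2
  have h4 := h1.smul h3
  exact differentiableAt_pi.1 h4 i

/-- The main theorem in terms of ensembles. -/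
theorem ens_main {c : Fin 33 → Fin 33 → Fin 33 → ℝ} {ν : ℝ}
    (h1 : ∃ (U : Fin 33 → V → V) (P : Fin 33 → V → ℝ), (∀ a, ContDiff ℝ ∞ (U a)) ∧
          (∀ a, ContDiff ℝ ∞ (P a)) ∧ (∃ a, U a ≠ 0) ∧ (∃ C, ∀ a y, ‖U a y‖ ≤ C / (1 + ‖y‖)) ∧
          ∀ t < 1, ∀ a, ∀ x,
            (∑ i, pd i (fun y => ((Real.sqrt (1 - t))⁻¹ • U a ((Real.sqrt (1 - t))⁻¹ • y)) i) x = 0) ∧
            ∀ i, deriv (fun s => ((Real.sqrt (1 - s))⁻¹ • U a ((Real.sqrt (1 - s))⁻¹ • x)) i) t
              + ∑ b, ∑ d, c a b d * ∑ j, ((Real.sqrt (1 - t))⁻¹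
                • U b ((Real.sqrt (1 - t))⁻¹ • x)) j
                * pd j (fun y => ((Real.sqrt (1 - t))⁻¹ • U d ((Real.sqrt (1 - t))⁻¹ • y)) i) x
            = ν * ∑ j, pd j (pd j (fun y => ((Real.sqrt (1 - t))⁻¹
                • U a ((Real.sqrt (1 - t))⁻¹ • y)) i)) x
              - pd i (fun y => (1 - t)⁻¹ * P a ((Real.sqrt (1 - t))⁻¹ • y)) x)
    (h2 : ∃ f : Fin 33 → ℝ → V → V, (∀ a, ContDiff ℝ ∞ fun z : ℝ × V => f a z.1 z.2) ∧
          (∀ a t, Per (f a t)) ∧ (∀ a t, t ≤ 0 → f a t = 0) ∧ (∀ a t, 2 ≤ t → f a t = 0) ∧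
          ¬ ∃ u p, Adm c ν f u p ∧ ∀ a, u a 0 = 0)
    {n : ℕ} {m : Fin n → ℝ} {φ : Fin 33 → Fin n → ℝ}
    (hort : ∀ a b, ∑ k, m k * (φ a k * φ b k) = if a = b then 1 else 0)
    (hc : ∀ a b d, ∑ k, m k * (φ a k * φ b k * φ d k) = c a b d) :
    (∃ (U : Fin n → V → V) (P : Fin n → V → ℝ), (∀ k, ContDiff ℝ ∞ (U k)) ∧
      (∀ k, ContDiff ℝ ∞ (P k)) ∧ (∃ k, U k ≠ 0) ∧ (∃ C, ∀ k y, ‖U k y‖ ≤ C / (1 + ‖y‖)) ∧
      (∀ y i, (fun k => U k y i) ∈ Submodule.span ℝ (Set.range φ)) ∧
      (∀ y, (fun k => P k y) ∈ Submodule.span ℝ (Set.range φ)) ∧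
      ∀ t < 1, (∀ k x, ∑ i, pd i (fun y => ((Real.sqrt (1 - t))⁻¹
          • U k ((Real.sqrt (1 - t))⁻¹ • y)) i) x = 0) ∧
        GalAt m (Submodule.span ℝ (Set.range φ)) ν (fun _ _ _ => 0)
          (fun k t x => (Real.sqrt (1 - t))⁻¹ • U k ((Real.sqrt (1 - t))⁻¹ • x))
          (fun k t x => (1 - t)⁻¹ * P k ((Real.sqrt (1 - t))⁻¹ • x)) t) ∧
    (∃ f : Fin n → ℝ → V → V, (∀ k, ContDiff ℝ ∞ fun z : ℝ × V => f k z.1 z.2) ∧
      (∀ k t, Per (f k t)) ∧ (∀ k t, t ≤ 0 → f k t = 0) ∧ (∀ k t, 2 ≤ t → f k t = 0) ∧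
      (∀ t x i, (fun k => f k t x i) ∈ Submodule.span ℝ (Set.range φ)) ∧
      ¬ ∃ (u : Fin n → ℝ → V → V) (p : Fin n → ℝ → V → ℝ),
        (∀ k, ContDiffOn ℝ ∞ (fun z : ℝ × V => u k z.1 z.2) (Ici 0 ×ˢ univ)) ∧
        (∀ k, ContDiffOn ℝ ∞ (fun z : ℝ × V => p k z.1 z.2) (Ici 0 ×ˢ univ)) ∧
        (∀ k t, 0 ≤ t → Per (u k t)) ∧ (∀ k t, 0 ≤ t → Per (p k t)) ∧
        (∀ t, 0 ≤ t → ∀ x i, (fun k => u k t x i) ∈ Submodule.span ℝ (Set.range φ)) ∧
        (∀ k t, 0 ≤ t → ∀ x, ∑ i, pd i (fun y => u k t y i) x = 0) ∧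
        (∀ t, 0 < t → GalAt m (Submodule.span ℝ (Set.range φ)) ν f u p t) ∧
        ∀ k, u k 0 = 0) := by
  constructor
  · obtain ⟨U, P, hU, hP, ⟨a0, ha0⟩, ⟨C, hC⟩, hsol⟩ := h1
    refine ⟨fun k y => ∑ a, φ a k • U a y, fun k y => ∑ a, φ a k * P a y, ?_, ?_, ?_, ?_, ?_, ?_, ?_⟩
    · intro k
      exact ContDiff.sum fun a _ => (hU a).const_smul _
    · intro k
      exact ContDiff.sum fun a _ => contDiff_const.mul (hP a)
    · by_contra hcon
      push Not at hcon
      apply ha0
      funext y i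
      have h3 := repro hort (fun a => U a y i) a0
      have h4 : ∀ k, ∑ a, φ a k * U a y i = 0 := by
        intro k
        have := congrFun (congrFun (hcon k) y) i
        simpa [Finset.sum_apply] using this
      simp_rw [h4] at h3
      simpa using h3.symm
    · refine ⟨∑ k, ∑ a, |φ a k| * |C|, fun k y => ?_⟩
      have hy : 0 < 1 + ‖y‖ := by positivity
      calc ‖∑ a, φ a k • U a y‖ ≤ ∑ a, |φ a k| * (|C| / (1 + ‖y‖)) := by
            refine (norm_sum_le _ _).trans (Finset.sum_le_sum fun a _ => ?_)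
            rw [norm_smul, Real.norm_eq_abs]
            refine mul_le_mul_of_nonneg_left ((hC a y).trans ?_) (abs_nonneg _)
            exact div_le_div_of_nonneg_right (le_abs_self C) hy.le
        _ = (∑ a, |φ a k| * |C|) / (1 + ‖y‖) := by
            rw [Finset.sum_div]
            exact Finset.sum_congr rfl fun a _ => by ring
        _ ≤ _ := by
            refine div_le_div_of_nonneg_right ?_ hy.le
            exact Finset.single_le_sum (f := fun k => ∑ a, |φ a k| * |C|)
              (fun _ _ => by positivity) (Finset.mem_univ k)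
    · intro y i
      have : (fun k => (∑ a, φ a k • U a y) i) = fun k => ∑ a, φ a k * U a y i := by
        funext k
        simp [Finset.sum_apply]
      rw [this]
      exact sum_mem_W _
    · intro y
      exact sum_mem_W _
    · intro t ht
      have hsm : ∀ a i, ContDiff ℝ ∞ (fun y => ((Real.sqrt (1 - t))⁻¹
          • U a ((Real.sqrt (1 - t))⁻¹ • y)) i) := by
        intro a i
        have h5 : ContDiff ℝ ∞ (fun y => (Real.sqrt (1 - t))⁻¹ • U a ((Real.sqrt (1 - t))⁻¹ • y)) :=
          ((hU a).comp (contDiff_id.const_smul ((Real.sqrt (1 - t))⁻¹))).const_smul _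
        exact contDiff_pi.1 h5 i
      have hval : ∀ (k : Fin n) (s : ℝ) (x : V) (i : Fin 3), ((Real.sqrt (1 - s))⁻¹
          • ∑ a, φ a k • U a ((Real.sqrt (1 - s))⁻¹ • x)) i
          = ∑ a, φ a k * ((Real.sqrt (1 - s))⁻¹ • U a ((Real.sqrt (1 - s))⁻¹ • x)) i := by
        intro k s x i
        simp only [Pi.smul_apply, Finset.sum_apply, smul_eq_mul, Finset.mul_sum]
        exact Finset.sum_congr rfl fun a _ => by ring
      refine ⟨?_, ⟨?_⟩⟩
      · intro k x
        simp only [hval]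
        have h6 : ∀ i, pd i (fun y => ∑ a, φ a k * ((Real.sqrt (1 - t))⁻¹
            • U a ((Real.sqrt (1 - t))⁻¹ • y)) i) x
            = ∑ a, φ a k * pd i (fun y => ((Real.sqrt (1 - t))⁻¹
            • U a ((Real.sqrt (1 - t))⁻¹ • y)) i) x := fun i =>
          pd_linc (g := fun a y => ((Real.sqrt (1 - t))⁻¹
            • U a ((Real.sqrt (1 - t))⁻¹ • y)) i) (fun a => φ a k) (fun a _ => hsm a i) i x
        simp_rw [h6]
        rw [Finset.sum_comm]
        refine Finset.sum_eq_zero fun a _ => ?_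
        rw [← Finset.mul_sum, (hsol t ht a x).1, mul_zero]
      · intro h hh x i
        refine orth_W (fun e => ?_) hh
        rw [proj_res (K := Fin 33) (v := fun a t x => (Real.sqrt (1 - t))⁻¹
            • U a ((Real.sqrt (1 - t))⁻¹ • x)) (g := fun _ _ _ => 0) hort
          (fun k => Filter.Eventually.of_forall fun s x i => hval k s x i)
          (fun a x i => diff_self (hU a) ht x i) hsm ?_ (fun k x i => by simp) e x i]
        · have h7 := (hsol t ht e x).2 i
          have h8 : (fun y => ∑ k, (m k * φ e k) * ((1 - t)⁻¹ * ∑ a, φ a k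
              * P a ((Real.sqrt (1 - t))⁻¹ • y)))
              = fun y => (1 - t)⁻¹ * P e ((Real.sqrt (1 - t))⁻¹ • y) := by
            funext y
            rw [← repro hort (fun a => P a ((Real.sqrt (1 - t))⁻¹ • y)) e, Finset.mul_sum]
            exact Finset.sum_congr rfl fun k _ => by ring
          rw [h8]
          simp only [hc]
          simp only [Pi.zero_apply]
          linarith
        · intro k
          exact contDiff_const.mul (ContDiff.sum fun a _ => contDiff_const.mul
            ((hP a).comp (contDiff_id.const_smul ((Real.sqrt (1 - t))⁻¹))))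
  · obtain ⟨f, hf, hfper, hf0, hf2, hno⟩ := h2
    refine ⟨fun k t x => ∑ a, φ a k • f a t x, ?_, ?_, ?_, ?_, ?_, ?_⟩
    · intro k
      exact ContDiff.sum fun a _ => (hf a).const_smul _
    · intro k t i x
      simp only [hfper _ t i x]
    · intro k t ht
      funext x
      simp [hf0 _ t ht]
    · intro k t ht
      funext x
      simp [hf2 _ t ht]
    · intro t x i
      have : (fun k => (∑ a, φ a k • f a t x) i) = fun k => ∑ a, φ a k * f a t x i := by
        funext k
        simp [Finset.sum_apply]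
      rw [this]
      exact sum_mem_W _
    · rintro ⟨u, p, hu, hp, hup, hpp, hmem, hdiv, hgal, h0⟩
      apply hno
      have husl : ∀ k, ∀ t, 0 ≤ t → ∀ i, ContDiff ℝ ∞ (fun y => u k t y i) := by
        intro k t ht i
        have h3 : ContDiff ℝ ∞ (u k t) := by
          rw [← contDiffOn_univ]
          exact (hu k).comp (contDiff_const.prodMk contDiff_id).contDiffOn
            (fun x _ => ⟨ht, mem_univ _⟩)
        exact contDiff_pi.1 h3 i
      have hpsl : ∀ k, ∀ t, 0 ≤ t → ContDiff ℝ ∞ (p k t) := by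
        intro k t ht
        rw [← contDiffOn_univ]
        exact (hp k).comp (contDiff_const.prodMk contDiff_id).contDiffOn
          (fun x _ => ⟨ht, mem_univ _⟩)
      have hcomp : ∀ a t x i, (∑ k, (m k * φ a k) • u k t x) i = ∑ k, (m k * φ a k) * u k t x i := by
        intro a t x i
        simp [Finset.sum_apply]
      refine ⟨fun a t x => ∑ k, (m k * φ a k) • u k t x, fun a t x => ∑ k, (m k * φ a k) * p k t x,
        ⟨?_, ?_, ?_, ?_, ?_, ?_⟩, ?_⟩
      · intro a
        exact ContDiffOn.sum fun k _ => (hu k).const_smul _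
      · intro a
        exact ContDiffOn.sum fun k _ => contDiffOn_const.mul (hp k)
      · intro a t ht i x
        simp only [hup _ t ht i x]
      · intro a t ht i x
        simp only [hpp _ t ht i x]
      · intro a t ht x
        simp only [hcomp]
        have h6 : ∀ i, pd i (fun y => ∑ k, (m k * φ a k) * u k t y i) x
            = ∑ k, (m k * φ a k) * pd i (fun y => u k t y i) x := fun i =>
          pd_linc (g := fun k y => u k t y i) (fun k => m k * φ a k) (fun k _ => husl k t ht i) i x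
        simp_rw [h6]
        rw [Finset.sum_comm]
        refine Finset.sum_eq_zero fun k _ => ?_
        rw [← Finset.mul_sum, hdiv k t ht x, mul_zero]
      · intro a t ht x i
        have hg := (hgal t ht).orth (φ a) (Submodule.subset_span ⟨a, rfl⟩) x i
        rw [proj_res (K := Fin 33) (v := fun a t x => ∑ k, (m k * φ a k) • u k t x) (g := f) hort
          ?_ ?_ ?_ (fun k => hpsl k t ht.le) ?_ a x i] at hg
        · simp only [hc] at hg
          linarith
        · intro k
          filter_upwards [Ioi_mem_nhds ht] with s hs x i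
          have h7 := repro_W hort (hmem s (le_of_lt hs) x i) k
          rw [h7]
          refine Finset.sum_congr rfl fun b _ => ?_
          rw [hcomp]
        · intro b x i
          simp only [hcomp]
          refine DifferentiableAt.fun_sum fun k _ => DifferentiableAt.const_mul ?_ _
          have hmem' : Ici (0 : ℝ) ×ˢ (univ : Set V) ∈ 𝓝 (t, x) :=
            prod_mem_nhds (Ici_mem_nhds ht) Filter.univ_mem
          have h8 : DifferentiableAt ℝ (fun z : ℝ × V => u k z.1 z.2 i) (t, x) :=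
            ((contDiffOn_pi.1 (hu k) i).contDiffAt hmem').differentiableAt (by norm_cast)
          have h9 : DifferentiableAt ℝ (fun s : ℝ => ((s, x) : ℝ × V)) t := by fun_prop
          exact h8.comp t h9
        · intro b i
          simp only [hcomp]
          exact ContDiff.sum fun k _ => contDiff_const.mul (husl k t ht.le i)
        · intro k x i
          simp [Finset.sum_apply]
      · intro a
        funext x
        simp [h0]

end Pool.Agent.N983.NC
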