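import Pool.Agent.N983.NC.Basis

/-!
Every totally symmetric tensor with a unit component is the tensor of the third moments of
orthonormal functions on a finite probability space.
-/

open Finset

namespace Pool.Agent.N983.NC

theorem pow_pos_of_ne {x : ℝ} (hx : x ≠ 0) : 0 < x ^ 2 := by positivity

/-- the sign attached to a Boolean -/
def sg (b : Bool) : ℝ := if b then 1 else -1

theorem pol8 (x y z x' y' z' x'' y'' z'' : ℝ) :
    ∑ e : Bool × Bool × Bool, sg e.1 * sg e.2.1 * sg e.2.2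
      * ((sg e.1 * x + sg e.2.1 * y + sg e.2.2 * z) * (sg e.1 * x' + sg e.2.1 * y' + sg e.2.2 * z')
        * (sg e.1 * x'' + sg e.2.1 * y'' + sg e.2.2 * z''))
      = 8 * (x * y' * z'' + x * z' * y'' + y * x' * z'' + y * z' * x'' + z * x' * y''
        + z * y' * x'') := by
  simp only [Fintype.sum_prod_type, Fintype.sum_bool, sg]
  norm_num
  ring

section pol

variable {K : Type} [Fintype K] [DecidableEq K]

theorem sum3_single (F : K → K → K → ℝ) (a b d : K) :
    ∑ p : K × K × K, F p.1 p.2.1 p.2.2 * (((Pi.single p.1 1 : K → ℝ) a)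
      * ((Pi.single p.2.1 1 : K → ℝ) b) * ((Pi.single p.2.2 1 : K → ℝ) d)) = F a b d := by
  simp only [Fintype.sum_prod_type, Pi.single_apply]
  simp

/-- Polarization: a symmetric tensor is a combination of cubes. -/
theorem polar (c : K → K → K → ℝ) (hc : ∀ a b d, c a b d = c b a d ∧ c a b d = c a d b) :
    ∃ (l : (K × K × K) × (Bool × Bool × Bool) → ℝ) (v : (K × K × K) × (Bool × Bool × Bool) → K → ℝ),
      (∀ i, 0 ≤ l i) ∧ ∀ a b d, ∑ i, l i * (v i a * v i b * v i d) = c a b d := by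
  let l0 : (K × K × K) × (Bool × Bool × Bool) → ℝ := fun i =>
    c i.1.1 i.1.2.1 i.1.2.2 * (sg i.2.1 * sg i.2.2.1 * sg i.2.2.2) / 48
  let v0 : (K × K × K) × (Bool × Bool × Bool) → K → ℝ := fun i a =>
    sg i.2.1 * (Pi.single i.1.1 1 : K → ℝ) a + sg i.2.2.1 * (Pi.single i.1.2.1 1 : K → ℝ) a
      + sg i.2.2.2 * (Pi.single i.1.2.2 1 : K → ℝ) a
  refine ⟨fun i => |l0 i|, fun i a => (if 0 ≤ l0 i then 1 else -1) * v0 i a,
    fun i => abs_nonneg _, fun a b d => ?_⟩
  have h1 : ∀ i, |l0 i| * ((if 0 ≤ l0 i then 1 else -1) * v0 i a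
      * ((if 0 ≤ l0 i then 1 else -1) * v0 i b) * ((if 0 ≤ l0 i then 1 else -1) * v0 i d))
      = l0 i * (v0 i a * v0 i b * v0 i d) := by
    intro i
    split_ifs with h
    · rw [abs_of_nonneg h]
      ring
    · rw [abs_of_neg (not_le.1 h)]
      ring
  rw [Finset.sum_congr rfl fun i _ => h1 i, Fintype.sum_prod_type]
  have h2 : ∀ p : K × K × K, ∑ e : Bool × Bool × Bool, l0 (p, e) * (v0 (p, e) a * v0 (p, e) b
      * v0 (p, e) d) = (1 / 6) * (c p.1 p.2.1 p.2.2
        * ((Pi.single p.1 1 : K → ℝ) a * (Pi.single p.2.1 1 : K → ℝ) b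
          * (Pi.single p.2.2 1 : K → ℝ) d
        + (Pi.single p.1 1 : K → ℝ) a * (Pi.single p.2.2 1 : K → ℝ) b
          * (Pi.single p.2.1 1 : K → ℝ) d
        + (Pi.single p.2.1 1 : K → ℝ) a * (Pi.single p.1 1 : K → ℝ) b
          * (Pi.single p.2.2 1 : K → ℝ) d
        + (Pi.single p.2.1 1 : K → ℝ) a * (Pi.single p.2.2 1 : K → ℝ) b
          * (Pi.single p.1 1 : K → ℝ) d
        + (Pi.single p.2.2 1 : K → ℝ) a * (Pi.single p.1 1 : K → ℝ) b
          * (Pi.single p.2.1 1 : K → ℝ) d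
        + (Pi.single p.2.2 1 : K → ℝ) a * (Pi.single p.2.1 1 : K → ℝ) b
          * (Pi.single p.1 1 : K → ℝ) d)) := by
    intro p
    have h3 := pol8 ((Pi.single p.1 1 : K → ℝ) a) ((Pi.single p.2.1 1 : K → ℝ) a)
      ((Pi.single p.2.2 1 : K → ℝ) a) ((Pi.single p.1 1 : K → ℝ) b) ((Pi.single p.2.1 1 : K → ℝ) b)
      ((Pi.single p.2.2 1 : K → ℝ) b) ((Pi.single p.1 1 : K → ℝ) d) ((Pi.single p.2.1 1 : K → ℝ) d)
      ((Pi.single p.2.2 1 : K → ℝ) d)
    have h4 : ∑ e : Bool × Bool × Bool, l0 (p, e) * (v0 (p, e) a * v0 (p, e) b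
        * v0 (p, e) d) = c p.1 p.2.1 p.2.2 / 48 * (∑ e : Bool × Bool × Bool, sg e.1 * sg e.2.1
        * sg e.2.2 * ((sg e.1 * (Pi.single p.1 1 : K → ℝ) a
          + sg e.2.1 * (Pi.single p.2.1 1 : K → ℝ) a + sg e.2.2 * (Pi.single p.2.2 1 : K → ℝ) a)
          * (sg e.1 * (Pi.single p.1 1 : K → ℝ) b
          + sg e.2.1 * (Pi.single p.2.1 1 : K → ℝ) b + sg e.2.2 * (Pi.single p.2.2 1 : K → ℝ) b)
          * (sg e.1 * (Pi.single p.1 1 : K → ℝ) d
          + sg e.2.1 * (Pi.single p.2.1 1 : K → ℝ) d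
          + sg e.2.2 * (Pi.single p.2.2 1 : K → ℝ) d))) := by
      rw [Finset.mul_sum]
      refine Finset.sum_congr rfl fun e _ => ?_
      simp only [l0, v0]
      ring
    rw [h4, h3]
    ring
  rw [Finset.sum_congr rfl fun p _ => h2 p, ← Finset.mul_sum]
  have e1 := sum3_single c a b d
  have e2 := sum3_single (fun x y z => c x z y) a b d
  have e3 := sum3_single (fun x y z => c y x z) a b d
  have e4 := sum3_single (fun x y z => c z x y) a b d
  have e5 := sum3_single (fun x y z => c y z x) a b d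
  have e6 := sum3_single (fun x y z => c z y x) a b d
  have s2 : ∑ p : K × K × K, c p.1 p.2.1 p.2.2 * ((Pi.single p.1 1 : K → ℝ) a
      * (Pi.single p.2.2 1 : K → ℝ) b * (Pi.single p.2.1 1 : K → ℝ) d) = c a d b := by
    simp only [Fintype.sum_prod_type, Pi.single_apply]
    simp
  have s3 : ∑ p : K × K × K, c p.1 p.2.1 p.2.2 * ((Pi.single p.2.1 1 : K → ℝ) a
      * (Pi.single p.1 1 : K → ℝ) b * (Pi.single p.2.2 1 : K → ℝ) d) = c b a d := by
    simp only [Fintype.sum_prod_type, Pi.single_apply]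
    simp
  have s4 : ∑ p : K × K × K, c p.1 p.2.1 p.2.2 * ((Pi.single p.2.1 1 : K → ℝ) a
      * (Pi.single p.2.2 1 : K → ℝ) b * (Pi.single p.1 1 : K → ℝ) d) = c d a b := by
    simp only [Fintype.sum_prod_type, Pi.single_apply]
    simp
  have s5 : ∑ p : K × K × K, c p.1 p.2.1 p.2.2 * ((Pi.single p.2.2 1 : K → ℝ) a
      * (Pi.single p.1 1 : K → ℝ) b * (Pi.single p.2.1 1 : K → ℝ) d) = c b d a := by
    simp only [Fintype.sum_prod_type, Pi.single_apply]
    simp
  have s6 : ∑ p : K × K × K, c p.1 p.2.1 p.2.2 * ((Pi.single p.2.2 1 : K → ℝ) a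
      * (Pi.single p.2.1 1 : K → ℝ) b * (Pi.single p.1 1 : K → ℝ) d) = c d b a := by
    simp only [Fintype.sum_prod_type, Pi.single_apply]
    simp
  simp only [mul_add, Finset.sum_add_distrib]
  rw [e1, s2, s3, s4, s5, s6]
  have t2 : c a d b = c a b d := ((hc a b d).2).symm
  have t3 : c b a d = c a b d := ((hc a b d).1).symm
  have t4 : c d a b = c a b d := by rw [(hc d a b).1, (hc a d b).2]
  have t5 : c b d a = c a b d := by rw [(hc b d a).2, (hc b a d).1]
  have t6 : c d b a = c a b d := by rw [(hc d b a).2, (hc d a b).1, (hc a d b).2]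
  rw [t2, t3, t4, t5, t6]
  ring

end pol

/-- The moment problem on a finite set, masses nonnegative. -/
theorem moment_aux {K : Type} [Fintype K] [DecidableEq K] [Nonempty K]
    (c : K → K → K → ℝ) (hc : ∀ a b d, c a b d = c b a d ∧ c a b d = c a d b) :
    ∃ (Ω : Type) (_ : Fintype Ω) (m : Ω → ℝ) (x : Ω → K → ℝ), (∀ k, 0 ≤ m k) ∧ (∑ k, m k = 1) ∧
      (∀ a, ∑ k, m k * x k a = 0) ∧ (∀ a b, ∑ k, m k * (x k a * x k b) = if a = b then 1 else 0) ∧
      (∀ a b d, ∑ k, m k * (x k a * x k b * x k d) = c a b d) := by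
  obtain ⟨l, v, hl, hv⟩ := polar c hc
  set L : ℝ := ∑ i, l i with hL
  set M : ℝ := ∑ i, l i * ∑ a, v i a ^ 2 with hM
  have hL0 : 0 ≤ L := Finset.sum_nonneg fun i _ => hl i
  have hM0 : 0 ≤ M := Finset.sum_nonneg fun i _ =>
    mul_nonneg (hl i) (Finset.sum_nonneg fun a _ => sq_nonneg _)
  set t : ℝ := 2 + 2 * L + 2 * M with ht
  have ht2 : 2 ≤ t := by rw [ht]; linarith
  have ht1 : 0 < t - 1 := by linarith
  have ht0 : 0 < t := by linarith
  have htt : 0 < t ^ 2 - 1 := by nlinarith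
  set m0 : ℝ := 1 - L / (t * (t - 1)) with hm0
  have hm0p : 0 < m0 := by
    have : L / (t * (t - 1)) < 1 := by
      rw [div_lt_one (by positivity)]
      nlinarith
    rw [hm0]
    linarith
  have hposK : 0 < (Fintype.card K : ℝ) := by exact_mod_cast Fintype.card_pos
  set Q : K → K → ℝ := fun a b => (if a = b then 1 else 0) - ∑ i, l i / (t - 1) * (v i a * v i b)
    with hQ
  have hQs : ∀ a b, Q a b = Q b a := by
    intro a b
    simp only [hQ, eq_comm (a := a) (b := b)]
    congr 1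
    exact Finset.sum_congr rfl fun i _ => by ring
  have hQp : ∀ w : K → ℝ, w ≠ 0 → 0 < ∑ a, ∑ b, Q a b * w a * w b := by
    intro w hw
    have hw2 : 0 < ∑ a, w a ^ 2 := by
      obtain ⟨a, ha⟩ := Function.ne_iff.1 hw
      exact Finset.sum_pos' (fun _ _ => sq_nonneg _) ⟨a, Finset.mem_univ a, pow_pos_of_ne ha⟩
    have e1 : ∑ a, ∑ b, Q a b * w a * w b
        = ∑ a, w a ^ 2 - ∑ i, l i / (t - 1) * (∑ a, v i a * w a) ^ 2 := by
      have e2 : ∀ a, ∑ b, Q a b * w a * w b = w a ^ 2
          - ∑ i, l i / (t - 1) * (v i a * w a * ∑ b, v i b * w b) := by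
        intro a
        simp only [hQ, sub_mul, Finset.sum_sub_distrib]
        congr 1
        · simp [sq]
        · simp only [Finset.sum_mul, Finset.mul_sum]
          rw [Finset.sum_comm]
          exact Finset.sum_congr rfl fun i _ => Finset.sum_congr rfl fun b _ => by ring
      simp_rw [e2]
      rw [Finset.sum_sub_distrib, Finset.sum_comm]
      congr 1
      refine Finset.sum_congr rfl fun i _ => ?_
      rw [← Finset.mul_sum, sq, Finset.sum_mul]
    rw [e1]
    have e3 : ∑ i, l i / (t - 1) * (∑ a, v i a * w a) ^ 2 ≤ M / (t - 1) * ∑ a, w a ^ 2 := by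
      rw [hM, Finset.sum_div, Finset.sum_mul]
      refine Finset.sum_le_sum fun i _ => ?_
      have := Finset.sum_mul_sq_le_sq_mul_sq Finset.univ (v i) w
      calc l i / (t - 1) * (∑ a, v i a * w a) ^ 2
          ≤ l i / (t - 1) * ((∑ a, v i a ^ 2) * ∑ a, w a ^ 2) :=
            mul_le_mul_of_nonneg_left this (div_nonneg (hl i) ht1.le)
        _ = _ := by ring
    have e4 : M / (t - 1) < 1 := by
      rw [div_lt_one ht1, ht]
      linarith
    nlinarith
  obtain ⟨R, -, hR, -, -⟩ := exists_RS Q hQs hQp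
  set al : ℝ := Real.sqrt (Fintype.card K / m0) with hal
  have hal2 : al ^ 2 = Fintype.card K / m0 := Real.sq_sqrt (by positivity)
  let I := (K × K × K) × (Bool × Bool × Bool)
  refine ⟨(I ⊕ I) ⊕ (K ⊕ K), inferInstance,
    Sum.elim (Sum.elim (fun i => l i / (t * (t ^ 2 - 1))) (fun i => l i / (t ^ 2 - 1)))
      (Sum.elim (fun _ => m0 / (2 * Fintype.card K)) (fun _ => m0 / (2 * Fintype.card K))),
    Sum.elim (Sum.elim (fun i a => t * v i a) (fun i a => - v i a))
      (Sum.elim (fun i a => al * R i a) (fun i a => - (al * R i a))), ?_, ?_, ?_, ?_, ?_⟩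
  · rintro ((i | i) | (i | i))
    · exact div_nonneg (hl i) (by positivity)
    · exact div_nonneg (hl i) htt.le
    · exact div_nonneg hm0p.le (by positivity)
    · exact div_nonneg hm0p.le (by positivity)
  · simp only [Fintype.sum_sum_type, Sum.elim_inl, Sum.elim_inr, Finset.sum_const,
      Finset.card_univ, nsmul_eq_mul]
    rw [← Finset.sum_div, ← Finset.sum_div, ← hL, hm0]
    have h1 : t - 1 ≠ 0 := ht1.ne'
    have h2 : t ≠ 0 := ht0.ne'
    have h3 : t ^ 2 - 1 ≠ 0 := htt.ne'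
    have h4 : t + 1 ≠ 0 := by positivity
    have h5 : t ^ 2 - 1 = (t - 1) * (t + 1) := by ring
    rw [h5]
    field_simp
    ring
  · intro a
    simp only [Fintype.sum_sum_type, Sum.elim_inl, Sum.elim_inr]
    have h1 : ∀ i, l i / (t * (t ^ 2 - 1)) * (t * v i a) = l i / (t ^ 2 - 1) * v i a := by
      intro i
      field_simp
    simp_rw [h1]
    simp only [mul_neg, Finset.sum_neg_distrib]
    ring
  · intro a b
    simp only [Fintype.sum_sum_type, Sum.elim_inl, Sum.elim_inr]
    have h5 : t ^ 2 - 1 = (t - 1) * (t + 1) := by ring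
    have h1 : t - 1 ≠ 0 := ht1.ne'
    have h2 : t ≠ 0 := ht0.ne'
    have h4 : t + 1 ≠ 0 := by positivity
    have h6 : ∑ i, l i / (t * (t ^ 2 - 1)) * (t * v i a * (t * v i b))
        + ∑ i, l i / (t ^ 2 - 1) * (-v i a * -v i b) = ∑ i, l i / (t - 1) * (v i a * v i b) := by
      rw [← Finset.sum_add_distrib]
      refine Finset.sum_congr rfl fun i _ => ?_
      rw [h5]
      field_simp
    have h7 : ∑ i, m0 / (2 * Fintype.card K) * (al * R i a * (al * R i b))
        + ∑ i, m0 / (2 * Fintype.card K) * (-(al * R i a) * -(al * R i b)) = Q a b := by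
      rw [← hR a b, ← Finset.sum_add_distrib]
      refine Finset.sum_congr rfl fun i _ => ?_
      have : al * R i a * (al * R i b) = al ^ 2 * (R i a * R i b) := by ring
      have h8 : -(al * R i a) * -(al * R i b) = al ^ 2 * (R i a * R i b) := by ring
      rw [this, h8, hal2]
      field_simp
      ring
    rw [h6, h7]
    simp only [hQ]
    ring
  · intro a b d
    simp only [Fintype.sum_sum_type, Sum.elim_inl, Sum.elim_inr]
    have h5 : t ^ 2 - 1 = (t - 1) * (t + 1) := by ring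
    have h1 : t - 1 ≠ 0 := ht1.ne'
    have h2 : t ≠ 0 := ht0.ne'
    have h4 : t + 1 ≠ 0 := by positivity
    have h6 : ∑ i, l i / (t * (t ^ 2 - 1)) * (t * v i a * (t * v i b) * (t * v i d))
        + ∑ i, l i / (t ^ 2 - 1) * (-v i a * -v i b * -v i d)
        = ∑ i, l i * (v i a * v i b * v i d) := by
      rw [← Finset.sum_add_distrib]
      refine Finset.sum_congr rfl fun i _ => ?_
      rw [h5]
      field_simp
      ring
    have h7 : ∑ i, m0 / (2 * Fintype.card K) * (al * R i a * (al * R i b) * (al * R i d))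
        + ∑ i, m0 / (2 * Fintype.card K)
          * (-(al * R i a) * -(al * R i b) * -(al * R i d)) = 0 := by
      rw [← Finset.sum_add_distrib]
      refine Finset.sum_eq_zero fun i _ => ?_
      ring
    rw [h6, h7, hv]
    ring

/-- Every totally symmetric tensor with the unit component `o` is the tensor of the third moments of
orthonormal functions on a finite probability space. -/
theorem moment_rep {K : Type} [Fintype K] [DecidableEq K] (o : K) (hK : ∃ a, a ≠ o)
    (c : K → K → K → ℝ) (hc : ∀ a b d, c a b d = c b a d ∧ c a b d = c a d b)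
    (ho : ∀ a b, c o a b = if a = b then 1 else 0) :
    ∃ (n : ℕ) (m : Fin n → ℝ) (φ : K → Fin n → ℝ), (∀ k, 0 < m k) ∧ (∑ k, m k = 1) ∧
      (∀ k, φ o k = 1) ∧ (∀ a b, ∑ k, m k * (φ a k * φ b k) = if a = b then 1 else 0) ∧
      (∀ a b d, ∑ k, m k * (φ a k * φ b k * φ d k) = c a b d) := by
  obtain ⟨a0, ha0⟩ := hK
  haveI : Nonempty {a // a ≠ o} := ⟨⟨a0, ha0⟩⟩
  obtain ⟨Ω, hΩ, m, x, hm, hm1, hx1, hx2, hx3⟩ := moment_aux (K := {a // a ≠ o})
    (fun a b d => c a b d) (fun a b d => hc a b d)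
  classical
  let Ω' := {k : Ω // 0 < m k}
  let e : Fin (Fintype.card Ω') ≃ Ω' := (Fintype.equivFin Ω').symm
  let ψ : K → Ω → ℝ := fun a k => if h : a = o then 1 else x k ⟨a, h⟩
  have hsum : ∀ g : Ω → ℝ, ∑ k : Fin (Fintype.card Ω'), m (e k) * g (e k) = ∑ k, m k * g k := by
    intro g
    rw [Equiv.sum_comp e (fun k : Ω' => m k * g k),
      ← Finset.sum_subtype (Finset.univ.filter fun k => 0 < m k) (fun k => by simp)
        (fun k => m k * g k)]
    refine Finset.sum_filter_of_ne fun k _ hk => ?_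
    rcases (hm k).lt_or_eq with h | h
    · exact h
    · exact absurd (by rw [← h, zero_mul]) hk
  refine ⟨Fintype.card Ω', fun k => m (e k), fun a k => ψ a (e k), fun k => (e k).2, ?_, ?_, ?_, ?_⟩
  · have := hsum (fun _ => 1)
    simp only [mul_one] at this
    rw [this, hm1]
  · intro k
    simp [ψ]
  · intro a b
    rw [hsum (fun k => ψ a k * ψ b k)]
    by_cases ha : a = o
    · by_cases hb : b = o
      · simp [ψ, ha, hb, hm1]
      · have hne : ¬ (o = b) := fun h => hb h.symm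
        simp only [ψ, ha, hb, dif_pos, dif_neg, not_false_eq_true, one_mul, hne, if_false]
        exact hx1 ⟨b, hb⟩
    · by_cases hb : b = o
      · simp only [ψ, ha, hb, dif_pos, dif_neg, not_false_eq_true, mul_one, if_false]
        exact hx1 ⟨a, ha⟩
      · simp only [ψ, ha, hb, dif_neg, not_false_eq_true]
        rw [hx2 ⟨a, ha⟩ ⟨b, hb⟩]
        simp only [Subtype.mk.injEq]
  · have hdel : ∀ a b, ∑ k, m k * (ψ a k * ψ b k) = if a = b then 1 else 0 := by
      intro a b
      by_cases ha : a = o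
      · by_cases hb : b = o
        · simp [ψ, ha, hb, hm1]
        · have hne : ¬ (o = b) := fun h => hb h.symm
          simp only [ψ, ha, hb, dif_pos, dif_neg, not_false_eq_true, one_mul, hne, if_false]
          exact hx1 ⟨b, hb⟩
      · by_cases hb : b = o
        · simp only [ψ, ha, hb, dif_pos, dif_neg, not_false_eq_true, mul_one, if_false]
          exact hx1 ⟨a, ha⟩
        · simp only [ψ, ha, hb, dif_neg, not_false_eq_true]
          rw [hx2 ⟨a, ha⟩ ⟨b, hb⟩]
          simp only [Subtype.mk.injEq]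
    intro a b d
    rw [hsum (fun k => ψ a k * ψ b k * ψ d k)]
    by_cases ha : a = o
    · rw [ha, ho b d, ← hdel b d]
      exact Finset.sum_congr rfl fun k _ => by simp [ψ]
    by_cases hb : b = o
    · rw [(hc a b d).1, hb, ho a d, ← hdel a d]
      exact Finset.sum_congr rfl fun k _ => by simp [ψ]
    by_cases hd : d = o
    · rw [(hc a b d).2, (hc a d b).1, hd, ho a b, ← hdel a b]
      exact Finset.sum_congr rfl fun k _ => by simp [ψ]
    · simp only [ψ, ha, hb, hd, dif_neg, not_false_eq_true]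
      exact hx3 ⟨a, ha⟩ ⟨b, hb⟩ ⟨d, hd⟩

end Pool.Agent.N983.NC
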