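import Pool.Agent.N983.NC.Dual

/-!
The equations for the base fields, second part.
-/

open MeasureTheory Set Filter Topology
open scoped ContDiff

namespace Pool.Agent.N983.NC

open H459R3.NS

variable {κ : ℝ} {t : ℝ}

/-- the equations of the second kind -/
theorem dualP (hκ : 0 < κ) (ht : t < 1) (a : Fin 4) (r : Fin 5) (x : V) (l : Fin 3) :
    (∑ b, GG (Sum.inr (a, r)) b * (deriv (fun s => curl (AA κ b s) x l) t
        - 1 / (40 * κ) * ∑ j, pd j (pd j (fun y => curl (AA κ b t) y l)) x))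
      + (∑ b, ∑ d, ct (Sum.inr (a, r)) b d * ∑ j, curl (AA κ b t) x j
          * pd j (fun y => curl (AA κ d t) y l) x)
      + pd l (PP κ (Sum.inr (a, r)) t) x = 0 := by
  have h1 : (∑ b, GG (Sum.inr (a, r)) b * (deriv (fun s => curl (AA κ b s) x l) t
        - 1 / (40 * κ) * ∑ j, pd j (pd j (fun y => curl (AA κ b t) y l)) x))
      = (∑ b, (GP a b : ℝ) * (ev κ (dT (QR b)) t (sq x)
        - 1 / (40 * κ) * (4 * sq x * ev κ (dS κ (dS κ (QR b))) t (sq x)
          + 10 * ev κ (dS κ (QR b)) t (sq x) + 4 * ev κ (PR κ b) t (sq x)))) * li (EE r l) x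
      + (∑ b, (GP a b : ℝ) * (ev κ (dT (PR κ b)) t (sq x)
        - 1 / (40 * κ) * (4 * sq x * ev κ (dS κ (dS κ (PR κ b))) t (sq x)
          + 18 * ev κ (dS κ (PR κ b)) t (sq x)))) * (qf (EE r) x * x l) := by
    rw [Fintype.sum_sum_type]
    have z : ∑ b : Fin 4 × Fin 3, GG (Sum.inr (a, r)) (Sum.inl b)
        * (deriv (fun s => curl (AA κ (Sum.inl b) s) x l) t
        - 1 / (40 * κ) * ∑ j, pd j (pd j (fun y => curl (AA κ (Sum.inl b) t) y l)) x) = 0 :=
      Finset.sum_eq_zero fun b _ => by simp [GG]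
    rw [z, zero_add, Fintype.sum_prod_type, Finset.sum_mul, Finset.sum_mul,
      ← Finset.sum_add_distrib]
    refine Finset.sum_congr rfl fun b _ => ?_
    simp_rw [dtP hκ ht, lP hκ ht]
    simp only [GG, ite_mul, zero_mul, Finset.sum_ite_eq, Finset.mem_univ, if_true]
    have hn := nE_ne r
    field_simp
    ring
  have h2 : (∑ b, ∑ d, ct (Sum.inr (a, r)) b d * ∑ j, curl (AA κ b t) x j
          * pd j (fun y => curl (AA κ d t) y l) x)
      = (∑ b, ∑ c, (dd b c a : ℝ) * (ev κ (fR b) t (sq x) * ev κ (fR c) t (sq x)))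
          * li (EE r l) x
      + ((∑ b, ∑ c, (bb a b c : ℝ) * ((1 / 3) * sq x * (ev κ (QR b) t (sq x)
            + sq x * ev κ (PR κ b) t (sq x))
          * ev κ (dS κ (QR c)) t (sq x) + (7 / 12) * ev κ (QR b) t (sq x) * ev κ (QR c) t (sq x)
          + (1 / 6) * sq x * (ev κ (PR κ b) t (sq x) * ev κ (QR c) t (sq x)
            + ev κ (QR b) t (sq x) * ev κ (PR κ c) t (sq x)))) * li (EE r l) x
        + (∑ b, ∑ c, (bb a b c : ℝ) * ((1 / 3) * (ev κ (QR b) t (sq x)
            + sq x * ev κ (PR κ b) t (sq x))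
          * ev κ (dS κ (QR c)) t (sq x) + (1 / 6) * ev κ (PR κ b) t (sq x) * ev κ (QR c) t (sq x)
          + (4 / 3) * ev κ (QR b) t (sq x) * ev κ (PR κ c) t (sq x)
          + (2 / 3) * sq x * (ev κ (QR b) t (sq x) + sq x * ev κ (PR κ b) t (sq x))
            * ev κ (dS κ (PR κ c)) t (sq x)
          + sq x * ev κ (PR κ b) t (sq x) * ev κ (PR κ c) t (sq x))) * (qf (EE r) x * x l)) := by
    simp_rw [Fintype.sum_sum_type, Fintype.sum_prod_type]
    simp only [ct, zero_mul, Finset.sum_const_zero, zero_add, add_zero]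
    simp_rw [gT hκ ht, gP hκ ht, vT hκ ht, vP hκ ht]
    congr 1
    · rw [sum_quad, Finset.sum_mul]
      refine Finset.sum_congr rfl fun b _ => ?_
      rw [Finset.sum_mul]
      refine Finset.sum_congr rfl fun c _ => ?_
      rw [mul_assoc, ← con_TT _ _ (ev κ (dS κ (fR c)) t (sq x)), Finset.mul_sum]
      refine Finset.sum_congr rfl fun β _ => ?_
      rw [Finset.mul_sum]
      refine Finset.sum_congr rfl fun γ _ => ?_
      ring
    · rw [sum_quad, Finset.sum_mul, Finset.sum_mul, ← Finset.sum_add_distrib]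
      refine Finset.sum_congr rfl fun b _ => ?_
      rw [Finset.sum_mul, Finset.sum_mul, ← Finset.sum_add_distrib]
      refine Finset.sum_congr rfl fun c _ => ?_
      have key := con_PP (ev κ (QR b) t (sq x)) (ev κ (PR κ b) t (sq x)) (ev κ (QR c) t (sq x))
        (ev κ (dS κ (QR c)) t (sq x)) (ev κ (PR κ c) t (sq x)) (ev κ (dS κ (PR κ c)) t (sq x)) r l x
      refine Eq.trans ?_ ((congrArg (fun y => (bb a b c : ℝ) * y) key).trans (by ring))
      rw [Finset.mul_sum]
      refine Finset.sum_congr rfl fun s _ => ?_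
      rw [Finset.mul_sum]
      refine Finset.sum_congr rfl fun q _ => ?_
      simp_rw [Finset.mul_sum]
      refine Finset.sum_congr rfl fun j _ => ?_
      have hn := nE_ne s
      have hn' := nE_ne q
      field_simp
  rw [h1, h2, gPi hκ ht]
  have e1 := numP1 hκ.ne' t (sq x) (pos_D hκ ht x) a
  have e2 := numP2 hκ.ne' t (sq x) (pos_D hκ ht x) a
  linear_combination li (EE r l) x * e1 + (qf (EE r) x * x l) * e2

/-- the self-interaction -/
theorem unit0 (hκ : 0 < κ) (ht : t < 1) (x : V) (l : Fin 3) :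
    ∑ a, ∑ b, GG a b * ∑ j, curl (AA κ a t) x j * pd j (fun y => curl (AA κ b t) y l) x
      = pd l (FF κ t) x := by
  have e := numPh hκ.ne' t (sq x) (pos_D hκ ht x)
  rw [gPh hκ ht, ← e, add_mul]
  simp_rw [Fintype.sum_sum_type, Fintype.sum_prod_type]
  simp only [GG, zero_mul, Finset.sum_const_zero, zero_add, add_zero]
  simp_rw [gT hκ ht, gP hκ ht, vT hκ ht, vP hκ ht]
  simp only [ite_mul, zero_mul, Finset.sum_ite_eq, Finset.mem_univ, if_true]
  congr 1
  · rw [Finset.sum_mul]
    refine Finset.sum_congr rfl fun b _ => ?_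
    rw [Finset.sum_comm, Finset.sum_mul]
    refine Finset.sum_congr rfl fun c _ => ?_
    rw [mul_assoc, ← con_T0 _ _ (ev κ (dS κ (fR c)) t (sq x)), Finset.mul_sum]
  · rw [Finset.sum_mul]
    refine Finset.sum_congr rfl fun b _ => ?_
    rw [Finset.sum_comm, Finset.sum_mul]
    refine Finset.sum_congr rfl fun c _ => ?_
    rw [mul_assoc, ← con_P0, Finset.mul_sum]
    refine Finset.sum_congr rfl fun s _ => ?_
    simp_rw [Finset.mul_sum]
    refine Finset.sum_congr rfl fun j _ => ?_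
    have hn := nE_ne s
    field_simp

end Pool.Agent.N983.NC
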