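import Pool.Agent.N983.NC.Prof

/-!
Positivity of the Gram matrix.
-/

open MeasureTheory Set Filter Topology
open scoped ContDiff

namespace Pool.Agent.N983.NC

open H459R3.NS

theorem sos4 {d0 d1 d2 d3 a b c d e f : ℝ} (h0 : 0 < d0) (h1 : 0 < d1) (h2 : 0 < d2) (h3 : 0 < d3)
    (y : Fin 4 → ℝ) (hy : y ≠ 0) :
    0 < d0 * (y 0 + a * y 1 + b * y 2 + c * y 3) ^ 2 + d1 * (y 1 + d * y 2 + e * y 3) ^ 2
      + d2 * (y 2 + f * y 3) ^ 2 + d3 * (y 3) ^ 2 := by
  by_contra hcon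
  push Not at hcon
  have p0 : 0 ≤ d0 * (y 0 + a * y 1 + b * y 2 + c * y 3) ^ 2 := by positivity
  have p1 : 0 ≤ d1 * (y 1 + d * y 2 + e * y 3) ^ 2 := by positivity
  have p2 : 0 ≤ d2 * (y 2 + f * y 3) ^ 2 := by positivity
  have p3 : 0 ≤ d3 * (y 3) ^ 2 := by positivity
  have z3 : y 3 = 0 := by
    have : d3 * (y 3) ^ 2 = 0 := by linarith
    simpa [h3.ne'] using this
  have z2 : y 2 = 0 := by
    have : d2 * (y 2 + f * y 3) ^ 2 = 0 := by linarith
    simpa [h2.ne', z3] using this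
  have z1 : y 1 = 0 := by
    have : d1 * (y 1 + d * y 2 + e * y 3) ^ 2 = 0 := by linarith
    simpa [h1.ne', z3, z2] using this
  have z0 : y 0 = 0 := by
    have : d0 * (y 0 + a * y 1 + b * y 2 + c * y 3) ^ 2 = 0 := by linarith
    simpa [h0.ne', z3, z2, z1] using this
  exact hy (by funext i; fin_cases i <;> assumption)

theorem GT_pos (y : Fin 4 → ℝ) (hy : y ≠ 0) : 0 < ∑ a, ∑ b, (GT a b : ℝ) * (y a * y b) := by
  have h := sos4 (d0 := 900) (d1 := 475754 / 9) (d2 := 86631213200 / 237877)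
    (d3 := 5086979833800 / 216578033) (a := -217 / 45) (b := -362 / 15) (c := 73 / 45)
    (d := 496446 / 237877) (e := 5088872 / 237877) (f := -4255685419 / 433156066)
    (by norm_num) (by norm_num) (by norm_num) (by norm_num) y hy
  refine h.trans_eq ?_
  simp [Fin.sum_univ_four, GT]
  ring

theorem GP_pos (y : Fin 4 → ℝ) (hy : y ≠ 0) : 0 < ∑ a, ∑ b, (GP a b : ℝ) * (y a * y b) := by
  have h := sos4 (d0 := 7755) (d1 := 121978380 / 517) (d2 := 1991560957220 / 2032973)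
    (d3 := 196179900893200 / 99578047861) (a := -3994 / 517) (b := -6312 / 517) (c := 49004 / 1551)
    (d := -1239551 / 2032973) (e := -6414356 / 6098919) (f := -149825148732 / 99578047861)
    (by norm_num) (by norm_num) (by norm_num) (by norm_num) y hy
  refine h.trans_eq ?_
  simp [Fin.sum_univ_four, GP]
  ring

theorem nE_pos (r : Fin 5) : 0 < nE r := by
  fin_cases r <;> simp [nE]

theorem GG_eq (v : I0 → ℝ) : ∑ a, ∑ b, GG a b * v a * v b
    = (∑ α, ∑ a, ∑ b, (GT a b : ℝ) * (v (Sum.inl (a, α)) * v (Sum.inl (b, α))))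
      + ∑ r, nE r * ∑ a, ∑ b, (GP a b : ℝ) * (v (Sum.inr (a, r)) * v (Sum.inr (b, r))) := by
  simp_rw [Fintype.sum_sum_type, Fintype.sum_prod_type]
  simp only [GG, zero_mul, Finset.sum_const_zero, zero_add, add_zero, ite_mul, Finset.sum_ite_eq,
    Finset.mem_univ, if_true]
  congr 1
  · rw [Finset.sum_comm]
    refine Finset.sum_congr rfl fun α _ => Finset.sum_congr rfl fun a _ =>
      Finset.sum_congr rfl fun b _ => ?_
    ring
  · rw [Finset.sum_comm]
    refine Finset.sum_congr rfl fun r _ => ?_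
    rw [Finset.mul_sum]
    refine Finset.sum_congr rfl fun a _ => ?_
    rw [Finset.mul_sum]
    refine Finset.sum_congr rfl fun b _ => ?_
    ring

theorem GG_pos (v : I0 → ℝ) (hv : v ≠ 0) : 0 < ∑ a, ∑ b, GG a b * v a * v b := by
  rw [GG_eq]
  have nT : ∀ y : Fin 4 → ℝ, 0 ≤ ∑ a, ∑ b, (GT a b : ℝ) * (y a * y b) := by
    intro y
    by_cases hy : y = 0
    · simp [hy]
    · exact (GT_pos y hy).le
  have nP : ∀ y : Fin 4 → ℝ, 0 ≤ ∑ a, ∑ b, (GP a b : ℝ) * (y a * y b) := by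
    intro y
    by_cases hy : y = 0
    · simp [hy]
    · exact (GP_pos y hy).le
  have n1 : 0 ≤ ∑ α, ∑ a, ∑ b, (GT a b : ℝ) * (v (Sum.inl (a, α)) * v (Sum.inl (b, α))) :=
    Finset.sum_nonneg fun α _ => nT fun a => v (Sum.inl (a, α))
  have n2 : 0 ≤ ∑ r, nE r * ∑ a, ∑ b, (GP a b : ℝ) * (v (Sum.inr (a, r)) * v (Sum.inr (b, r))) :=
    Finset.sum_nonneg fun r _ => mul_nonneg (nE_pos r).le (nP fun a => v (Sum.inr (a, r)))
  obtain ⟨i, hi⟩ := Function.ne_iff.1 hv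
  rcases i with ⟨a, α⟩ | ⟨a, r⟩
  · have h1 : 0 < ∑ α, ∑ a, ∑ b, (GT a b : ℝ) * (v (Sum.inl (a, α)) * v (Sum.inl (b, α))) :=
      Finset.sum_pos' (fun α _ => nT fun a => v (Sum.inl (a, α))) ⟨α, Finset.mem_univ _,
        GT_pos (fun a => v (Sum.inl (a, α))) (fun h => hi (congrFun h a))⟩
    linarith
  · have h1 : 0 < ∑ r, nE r * ∑ a, ∑ b, (GP a b : ℝ) * (v (Sum.inr (a, r)) * v (Sum.inr (b, r))) :=
      Finset.sum_pos' (fun r _ => mul_nonneg (nE_pos r).le (nP fun a => v (Sum.inr (a, r))))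
        ⟨r, Finset.mem_univ _, mul_pos (nE_pos r)
        (GP_pos (fun a => v (Sum.inr (a, r))) (fun h => hi (congrFun h a)))⟩
    linarith

end Pool.Agent.N983.NC
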