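import Pool.Agent.N983.NC.Prof

/-!
Regularity and blow-up of the base fields.
-/

open MeasureTheory Set Filter Topology
open scoped ContDiff

namespace Pool.Agent.N983.NC

open H459R3.NS

theorem ev_contDiffOn' (κ : ℝ) (l : Rad) {g : V → ℝ} (hg : ContDiff ℝ ∞ g) :
    ContDiffOn ℝ ∞ (fun z : ℝ × V => ev κ l z.1 (sq z.2) * g z.2) (Om κ) :=
  (ev_contDiffOn κ l).mul (hg.comp contDiff_snd).contDiffOn

theorem li_contDiff (a : Fin 3 → ℝ) : ContDiff ℝ ∞ (li a) := by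
  unfold li
  fun_prop

theorem qf_contDiff (M : Fin 3 → Fin 3 → ℝ) : ContDiff ℝ ∞ (qf M) := by
  unfold qf li
  fun_prop

theorem crs_contDiff (M : Fin 3 → Fin 3 → ℝ) (i : Fin 3) :
    ContDiff ℝ ∞ (fun x : V => crs (fun m => li (M m) x) x i) := by
  have key : ∀ a b : Fin 3, ContDiff ℝ ∞ (fun y : V => li (M a) y * y b - li (M b) y * y a) := by
    intro a b
    unfold li
    fun_prop
  fin_cases i
  · exact key 1 2
  · exact key 2 0
  · exact key 0 1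

theorem AA_smooth (κ : ℝ) (a : I0) :
    ContDiffOn ℝ ∞ (fun z : ℝ × V => AA κ a z.1 z.2) (Om κ) := by
  rw [contDiffOn_pi]
  intro i
  rcases a with ⟨b, α⟩ | ⟨b, r⟩
  · exact ev_contDiffOn' κ (fR b) (g := fun x => x α * x i) (by fun_prop)
  · exact contDiffOn_const.mul (ev_contDiffOn' κ (kR b) (crs_contDiff (EE r) i))

theorem PP_smooth (κ : ℝ) (a : I0) :
    ContDiffOn ℝ ∞ (fun z : ℝ × V => PP κ a z.1 z.2) (Om κ) := by
  rcases a with ⟨b, α⟩ | ⟨b, r⟩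
  · exact contDiffOn_const
  · exact ev_contDiffOn' κ (piR b) (qf_contDiff _)

theorem FF_smooth (κ : ℝ) : ContDiffOn ℝ ∞ (fun z : ℝ × V => FF κ z.1 z.2) (Om κ) :=
  ev_contDiffOn κ (phR κ)

theorem AA_blow {κ : ℝ} (hκ : 0 < κ) (M : ℝ) :
    ∃ a, ∃ t ∈ Ioo (1 / 2 : ℝ) 1, ∃ x : V, ‖x‖ < 1 / 8 ∧ ∃ i, M < |curl (AA κ a t) x i| := by
  obtain ⟨ε, hε0, hε1, hε2, hε3⟩ : ∃ ε : ℝ, 0 < ε ∧ ε < 1 / 8 ∧ κ * ε ^ 2 < 3 / 2
      ∧ M * (8 * κ * ε) < 5 := by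
    have h1 : ∀ᶠ ε in 𝓝[>] (0 : ℝ), ε < 1 / 8 ∧ κ * ε ^ 2 < 3 / 2 ∧ M * (8 * κ * ε) < 5 := by
      have c1 : ∀ᶠ ε in 𝓝 (0 : ℝ), ε < 1 / 8 := gt_mem_nhds (by norm_num)
      have c2 : ∀ᶠ ε in 𝓝 (0 : ℝ), κ * ε ^ 2 < 3 / 2 := by
        have : ContinuousAt (fun ε : ℝ => κ * ε ^ 2) 0 := by fun_prop
        exact this.eventually_lt continuousAt_const (by norm_num)
      have c3 : ∀ᶠ ε in 𝓝 (0 : ℝ), M * (8 * κ * ε) < 5 := by
        have : ContinuousAt (fun ε : ℝ => M * (8 * κ * ε)) 0 := by fun_prop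
        exact this.eventually_lt continuousAt_const (by norm_num)
      exact nhdsWithin_le_nhds (c1.and (c2.and c3))
    obtain ⟨ε, h2, h3⟩ := (h1.and self_mem_nhdsWithin).exists
    exact ⟨ε, h3, h2.1, h2.2.1, h2.2.2⟩
  set t : ℝ := 1 - κ * ε ^ 2 / 3 with ht
  have hp : 0 < κ * ε ^ 2 := by positivity
  have ht1 : t < 1 := by rw [ht]; linarith
  refine ⟨Sum.inl (0, 1), t, ⟨by rw [ht]; linarith, ht1⟩, ![ε, 0, 0], ?_, 2, ?_⟩
  · rw [pi_norm_lt_iff (by norm_num)]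
    intro i
    fin_cases i
    · simpa [abs_of_pos hε0] using hε1
    · simp
    · simp
  · have hs : sq ![ε, 0, 0] = ε ^ 2 := by simp [sq, Fin.sum_univ_three]
    have h := congrFun (curlT hκ ht1 0 1 2) ![ε, 0, 0]
    rw [h, cmp, ev_nil, hs]
    have e : ev κ (fR 0) t (ε ^ 2) = 5 / (8 * κ * ε ^ 2) := by
      have h1 : 1 - t = κ * ε ^ 2 / 3 := by rw [ht]; ring
      simp only [ev, h1]
      simp [fR]
      field_simp
      norm_num
    rw [e]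
    have h2 : li (rot 1 2) ![ε, 0, 0] = -ε := by simp [li, rot, Fin.sum_univ_three]
    rw [h2]
    have h3 : |5 / (8 * κ * ε ^ 2) * -ε + 0 * (qf 0 ![ε, 0, 0] * ![ε, 0, 0] 2)| = 5 / (8 * κ * ε) := by
      rw [zero_mul, add_zero, mul_neg, abs_neg, abs_of_pos (by positivity)]
      field_simp
    rw [h3, lt_div_iff₀ (by positivity)]
    exact hε3

end Pool.Agent.N983.NC
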