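import Pool.Agent.N983.NC.Core
import Pool.Agent.N983.NC.Dual2
import Pool.Agent.N983.NC.Pos
import Pool.Agent.N983.NC.Reg

/-!
The final statement.
-/

open MeasureTheory Set Filter Topology
open scoped ContDiff

namespace Pool.Agent.N983.NC

open H459R3.NS

/-- enumeration of the indices, with `0` for the unit component -/
noncomputable def enum : Fin 33 ≃ Option I0 :=
  (finSuccEquiv 32).trans (Equiv.optionCongr (Fintype.equivFinOfCardEq (by simp)).symm)

theorem enum_zero : enum 0 = none := by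
  simp [enum]

theorem base0 {κ : ℝ} (hκ : 0 < κ) : Base GG ct (1 / (40 * κ)) κ (AA κ) (PP κ) (FF κ) where
  smooth_A := AA_smooth κ
  smooth_π := PP_smooth κ
  smooth_Φ := FF_smooth κ
  dual a t ht x i := by
    rcases a with ⟨b, α⟩ | ⟨b, r⟩
    · exact dualT hκ ht b α x i
    · exact dualP hκ ht b r x i
  unit t ht x i := unit0 hκ ht x i
  blow := AA_blow hκ

theorem core_exists : ∃ c : Option I0 → Option I0 → Option I0 → ℝ, Sym c ∧
    (∀ a b, c none a b = if a = b then 1 else 0) ∧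
    ∀ κ : ℝ, 0 < κ → ∃ A p, Core c (1 / (40 * κ)) κ A p ∧
      (∀ a, ∀ t < 1, ∀ x, curl (A a t) x
        = (Real.sqrt (1 - t))⁻¹ • curl (A a 0) ((Real.sqrt (1 - t))⁻¹ • x)) ∧
      (∀ a, ∀ t < 1, ∀ x, p a t x = (1 - t)⁻¹ * p a 0 ((Real.sqrt (1 - t))⁻¹ • x)) := by
  obtain ⟨R, S, h1, h2, h3⟩ := exists_RS GG GG_symm GG_pos
  refine ⟨cO S ct, cO_sym S ct_sym, fun a b => ?_, fun κ hκ =>
    ⟨newA R (AA κ), newp S (PP κ) (FF κ), (base0 hκ).core hκ h1 h2 h3, ?_, ?_⟩⟩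
  · rcases a with _ | a <;> rcases b with _ | b <;> simp [cO]
  · have hA1 : ∀ a, ContDiffOn ℝ ∞ (fun z : ℝ × V => AA κ a z.1 z.2) (Iio 1 ×ˢ univ) :=
      fun a => (AA_smooth κ a).mono (O1_sub hκ)
    intro a t ht x
    funext l
    rcases a with _ | a
    · rw [Pi.smul_apply, curl_newA_none, curl_newA_none, smul_zero]
    · rw [Pi.smul_apply, curl_newA hA1 R a ht, curl_newA hA1 R a one_pos, smul_eq_mul,
        Finset.mul_sum]
      refine Finset.sum_congr rfl fun b _ => ?_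
      rw [curl_scale hκ ht]
      ring
  · intro a t ht x
    rcases a with _ | a
    · simp only [newp]
      rw [FF_scale hκ ht]
      ring
    · simp only [newp]
      rw [Finset.mul_sum]
      refine Finset.sum_congr rfl fun b _ => ?_
      rw [PP_scale hκ ht]
      ring

theorem main :
    ∃ c : Fin 33 → Fin 33 → Fin 33 → ℝ,
      (∀ a b d, c a b d = c b a d ∧ c a b d = c a d b) ∧
      (∀ a b, c 0 a b = if a = b then 1 else 0) ∧
      ∀ ν : ℝ, 0 < ν →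
        (∃ (U : Fin 33 → V → V) (P : Fin 33 → V → ℝ), (∀ a, ContDiff ℝ ∞ (U a)) ∧
          (∀ a, ContDiff ℝ ∞ (P a)) ∧ (∃ a, U a ≠ 0) ∧ (∃ C, ∀ a y, ‖U a y‖ ≤ C / (1 + ‖y‖)) ∧
          ∀ t < 1, ∀ a, ∀ x,
            (∑ i, pd i (fun y => ((Real.sqrt (1 - t))⁻¹ • U a ((Real.sqrt (1 - t))⁻¹ • y)) i) x = 0) ∧
            ∀ i, deriv (fun s => ((Real.sqrt (1 - s))⁻¹ • U a ((Real.sqrt (1 - s))⁻¹ • x)) i) t
              + ∑ b, ∑ d, c a b d * ∑ j, ((Real.sqrt (1 - t))⁻¹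
                • U b ((Real.sqrt (1 - t))⁻¹ • x)) j
                * pd j (fun y => ((Real.sqrt (1 - t))⁻¹ • U d ((Real.sqrt (1 - t))⁻¹ • y)) i) x
            = ν * ∑ j, pd j (pd j (fun y => ((Real.sqrt (1 - t))⁻¹
                • U a ((Real.sqrt (1 - t))⁻¹ • y)) i)) x
              - pd i (fun y => (1 - t)⁻¹ * P a ((Real.sqrt (1 - t))⁻¹ • y)) x) ∧
        (∃ f : Fin 33 → ℝ → V → V, (∀ a, ContDiff ℝ ∞ fun z : ℝ × V => f a z.1 z.2) ∧
          (∀ a t, Per (f a t)) ∧ (∀ a t, t ≤ 0 → f a t = 0) ∧ (∀ a t, 2 ≤ t → f a t = 0) ∧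
          ¬ ∃ u p, Adm c ν f u p ∧ ∀ a, u a 0 = 0) := by
  obtain ⟨c, hc, hc0, h⟩ := core_exists
  refine ⟨fun a b d => c (enum a) (enum b) (enum d), fun a b d => hc _ _ _, fun a b => ?_,
    fun ν hν => ?_⟩
  · show c (enum 0) (enum a) (enum b) = if a = b then 1 else 0
    rw [enum_zero, hc0]
    simp
  · have hκ : 0 < 1 / (40 * ν) := by positivity
    obtain ⟨A, p, hcore, hsA, hsp⟩ := h (1 / (40 * ν)) hκ
    have e : 1 / (40 * (1 / (40 * ν))) = ν := by field_simp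
    rw [e] at hcore
    have hcore' := hcore.reindex enum
    refine ⟨hcore'.selfSimilar hκ (fun a => hsA _) (fun a => hsp _), ?_⟩
    exact no_adm_of_core (fun a b d => hc _ _ _) hν.le hκ _ _ hcore'.smooth_A hcore'.smooth_p
      hcore'.pde hcore'.blow

end Pool.Agent.N983.NC
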