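import Pool.Agent.N983.NC.Cut

/-!
Change of basis, and the unit component.
-/

open MeasureTheory Set Filter Topology
open scoped ContDiff MatrixOrder ComplexOrder

namespace Pool.Agent.N983.NC

open H459R3.NS

section alg

variable {ι : Type} [Fintype ι] [DecidableEq ι]

/-- The coupling constants in the orthonormal basis, with the unit component `none`. -/
noncomputable def cO (S : ι → ι → ℝ) (ct : ι → ι → ι → ℝ) :
    Option ι → Option ι → Option ι → ℝ
  | none, none, none => 1
  | none, some a, some b => if a = b then 1 else 0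
  | some a, none, some b => if a = b then 1 else 0
  | some a, some b, none => if a = b then 1 else 0
  | some i, some j, some k => ∑ a, ∑ b, ∑ d, ct a b d * S a i * S b j * S d k
  | none, none, some _ => 0
  | none, some _, none => 0
  | some _, none, none => 0

theorem cO_sym (S : ι → ι → ℝ) {ct : ι → ι → ι → ℝ} (hct : Sym ct) : Sym (cO S ct) := by
  intro a b d
  rcases a with _ | a <;> rcases b with _ | b <;> rcases d with _ | d <;>
    simp only [cO, and_self, eq_comm]
  constructor
  · rw [Finset.sum_comm]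
    refine Finset.sum_congr rfl fun x _ => Finset.sum_congr rfl fun y _ =>
      Finset.sum_congr rfl fun z _ => ?_
    rw [(hct y x z).1]
    ring
  · refine Finset.sum_congr rfl fun x _ => ?_
    rw [Finset.sum_comm]
    refine Finset.sum_congr rfl fun y _ => Finset.sum_congr rfl fun z _ => ?_
    rw [(hct x z y).2]
    ring

theorem exists_RS (G : ι → ι → ℝ) (hGs : ∀ a b, G a b = G b a)
    (hG : ∀ v : ι → ℝ, v ≠ 0 → 0 < ∑ a, ∑ b, G a b * v a * v b) :
    ∃ R S : ι → ι → ℝ, (∀ a b, ∑ i, R i a * R i b = G a b) ∧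
      (∀ i j, ∑ b, R i b * S b j = if i = j then 1 else 0) ∧
      (∀ a b, ∑ i, S a i * R i b = if a = b then 1 else 0) := by
  have hH : (Matrix.of G).IsHermitian := by
    ext a b
    simp [hGs b a]
  have hP : (Matrix.of G).PosDef := by
    refine Matrix.PosDef.of_dotProduct_mulVec_pos hH fun v hv => ?_
    have e : star v ⬝ᵥ (Matrix.of G).mulVec v = ∑ a, ∑ b, G a b * v a * v b := by
      simp only [dotProduct, Matrix.mulVec, Pi.star_apply, star_trivial, Matrix.of_apply,
        Finset.mul_sum]
      refine Finset.sum_congr rfl fun a _ => Finset.sum_congr rfl fun b _ => ?_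
      ring
    rw [e]
    exact hG v hv
  obtain ⟨R, hR⟩ := CStarAlgebra.nonneg_iff_eq_star_mul_self.mp hP.posSemidef.nonneg
  have hRu : IsUnit R := by
    have h1 : IsUnit (star R * R) := hR ▸ hP.isUnit
    have h2 : IsUnit (star R * R).det := (Matrix.isUnit_iff_isUnit_det _).1 h1
    rw [Matrix.det_mul] at h2
    exact (Matrix.isUnit_iff_isUnit_det _).2 (isUnit_of_mul_isUnit_right h2)
  have hdet : IsUnit R.det := (Matrix.isUnit_iff_isUnit_det _).1 hRu
  refine ⟨R, (R⁻¹ : Matrix ι ι ℝ), fun a b => ?_, fun i j => ?_, fun a b => ?_⟩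
  · have h1 : G a b = (star R * R) a b := by rw [← hR]; rfl
    rw [h1, Matrix.mul_apply]
    simp [Matrix.star_apply]
  · have h1 : (R * R⁻¹) i j = (1 : Matrix ι ι ℝ) i j := by rw [Matrix.mul_nonsing_inv _ hdet]
    rw [Matrix.mul_apply, Matrix.one_apply] at h1
    exact h1
  · have h1 : (R⁻¹ * R) a b = (1 : Matrix ι ι ℝ) a b := by rw [Matrix.nonsing_inv_mul _ hdet]
    rw [Matrix.mul_apply, Matrix.one_apply] at h1
    exact h1

/-- Inversion of the change of basis, for quadratic quantities. -/
theorem inv2 {R S : ι → ι → ℝ} (h3 : ∀ a b, ∑ i, S a i * R i b = if a = b then 1 else 0)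
    (T : ι → ι → ℝ) (b d : ι) :
    ∑ j, ∑ k, S b j * S d k * (∑ b', ∑ d', R j b' * R k d' * T b' d') = T b d := by
  have e1 : ∀ j, ∑ k, S b j * S d k * (∑ b', ∑ d', R j b' * R k d' * T b' d')
      = ∑ b', S b j * R j b' * T b' d := by
    intro j
    calc ∑ k, S b j * S d k * (∑ b', ∑ d', R j b' * R k d' * T b' d')
        = ∑ k, ∑ b', ∑ d', S b j * R j b' * T b' d' * (S d k * R k d') := by
          refine Finset.sum_congr rfl fun k _ => ?_
          rw [Finset.mul_sum]
          refine Finset.sum_congr rfl fun b' _ => ?_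
          rw [Finset.mul_sum]
          refine Finset.sum_congr rfl fun d' _ => ?_
          ring
      _ = ∑ b', ∑ d', ∑ k, S b j * R j b' * T b' d' * (S d k * R k d') := by
          rw [Finset.sum_comm]
          refine Finset.sum_congr rfl fun b' _ => ?_
          rw [Finset.sum_comm]
      _ = ∑ b', ∑ d', S b j * R j b' * T b' d' * (if d = d' then 1 else 0) := by
          refine Finset.sum_congr rfl fun b' _ => Finset.sum_congr rfl fun d' _ => ?_
          rw [← Finset.mul_sum, h3]
      _ = _ := by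
          refine Finset.sum_congr rfl fun b' _ => ?_
          simp
  simp_rw [e1]
  calc ∑ j, ∑ b', S b j * R j b' * T b' d = ∑ b', (∑ j, S b j * R j b') * T b' d := by
        rw [Finset.sum_comm]
        refine Finset.sum_congr rfl fun b' _ => ?_
        rw [Finset.sum_mul]
    _ = _ := by simp [h3]

end alg

/-! ### Linearity -/

section lin

variable {ι : Type} [Fintype ι]

theorem isOpen_O1 : IsOpen (Iio (1 : ℝ) ×ˢ (univ : Set V)) := isOpen_Iio.prod isOpen_univ

theorem O1_sub {κ : ℝ} (hκ : 0 < κ) : Iio (1 : ℝ) ×ˢ (univ : Set V) ⊆ Om κ :=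
  fun _ hz => Om_of_lt hκ hz.1

/-- Smoothness of the slices. -/
theorem sliceD {F : ℝ × V → ℝ} (hF : ContDiffOn ℝ ∞ F (Iio 1 ×ˢ univ)) {t : ℝ} (ht : t < 1) :
    ContDiff ℝ ∞ (fun y => F (t, y)) := by
  rw [← contDiffOn_univ]
  exact hF.comp (contDiff_const.prodMk contDiff_id).contDiffOn fun y _ => ⟨ht, mem_univ _⟩

theorem sliceT {F : ℝ × V → ℝ} (hF : ContDiffOn ℝ ∞ F (Iio 1 ×ˢ univ)) {t : ℝ} (ht : t < 1)
    (x : V) : DifferentiableAt ℝ (fun s => F (s, x)) t := by
  have h1 : DifferentiableAt ℝ F (t, x) := diffAt isOpen_O1 hF ⟨ht, mem_univ _⟩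
  have h2 : HasDerivAt (fun s : ℝ => ((s, x) : ℝ × V)) (1, 0) t :=
    (hasDerivAt_id t).prodMk (hasDerivAt_const t x)
  exact (h1.hasFDerivAt.comp_hasDerivAt t h2).differentiableAt

theorem curl_smooth {A : ℝ → V → V}
    (hA : ContDiffOn ℝ ∞ (fun z : ℝ × V => A z.1 z.2) (Iio 1 ×ˢ univ)) (i : Fin 3) :
    ContDiffOn ℝ ∞ (fun z : ℝ × V => curl (A z.1) z.2 i) (Iio 1 ×ˢ univ) := by
  have hAc : ∀ i, ContDiffOn ℝ ∞ (fun z : ℝ × V => A z.1 z.2 i) (Iio 1 ×ˢ univ) :=
    fun i => (contDiffOn_pi.1 hA) i
  refine (contDiffOn_Curl isOpen_O1 hAc i).congr fun z hz => ?_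
  exact curl_slice hAc hz.1 z.2 i

theorem pd_lin {f : ι → V → ℝ} {x : V} (hf : ∀ b, DifferentiableAt ℝ (f b) x) (w : ι → ℝ)
    (j : Fin 3) : pd j (fun y => ∑ b, w b * f b y) x = ∑ b, w b * pd j (f b) x := by
  have h1 : HasFDerivAt (fun y => ∑ b, w b * f b y) (∑ b, w b • fderiv ℝ (f b) x) x :=
    HasFDerivAt.fun_sum fun b _ => (hf b).hasFDerivAt.const_mul (w b)
  unfold pd
  rw [h1.fderiv]
  simp

theorem deriv_lin {f : ι → ℝ → ℝ} {t : ℝ} (hf : ∀ b, DifferentiableAt ℝ (f b) t) (w : ι → ℝ) :
    deriv (fun s => ∑ b, w b * f b s) t = ∑ b, w b * deriv (f b) t := by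
  have h1 : HasDerivAt (fun s => ∑ b, w b * f b s) (∑ b, w b * deriv (f b) t) t :=
    HasDerivAt.fun_sum fun b _ => (hf b).hasDerivAt.const_mul (w b)
  exact h1.deriv

/-- The new potentials. -/
noncomputable def newA (R : ι → ι → ℝ) (A : ι → ℝ → V → V) : Option ι → ℝ → V → V
  | none => fun _ _ => 0
  | some i => fun t x => ∑ b, R i b • A b t x

/-- The new pressures. -/
noncomputable def newp (S : ι → ι → ℝ) (π : ι → ℝ → V → ℝ) (Φ : ℝ → V → ℝ) :
    Option ι → ℝ → V → ℝ
  | none => fun t x => -Φ t x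
  | some i => fun t x => ∑ a, S a i * π a t x

theorem curl_zero' : curl (fun _ => 0) = fun _ => 0 := by
  funext x
  have e : ∀ j i : Fin 3, pd j (fun _ : V => (0 : V) i) x = 0 := by
    intro j i
    simp [pd]
  unfold curl
  simp only [e]
  funext i
  fin_cases i <;> simp

theorem curl_newA_none (R : ι → ι → ℝ) (A : ι → ℝ → V → V) (t : ℝ) (x : V) (l : Fin 3) :
    curl (newA R A none t) x l = 0 := by
  show curl (fun _ => 0) x l = 0
  rw [curl_zero']
  rfl

theorem curl_newA {A : ι → ℝ → V → V}
    (hA : ∀ a, ContDiffOn ℝ ∞ (fun z : ℝ × V => A a z.1 z.2) (Iio 1 ×ˢ univ))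
    (R : ι → ι → ℝ) (i : ι) {t : ℝ} (ht : t < 1) (x : V) (l : Fin 3) :
    curl (newA R A (some i) t) x l = ∑ b, R i b * curl (A b t) x l := by
  have hd : ∀ b m, DifferentiableAt ℝ (fun y => A b t y m) x := fun b m =>
    ((sliceD (F := fun z => A b z.1 z.2 m) ((contDiffOn_pi.1 (hA b)) m) ht).differentiable
      (by norm_num)) x
  have e : ∀ m j, pd j (fun y => newA R A (some i) t y m) x
      = ∑ b, R i b * pd j (fun y => A b t y m) x := by
    intro m j
    have h1 : (fun y => newA R A (some i) t y m) = fun y => ∑ b, R i b * A b t y m := by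
      funext y
      simp [newA, Finset.sum_apply]
    rw [h1]
    exact pd_lin (fun b => hd b m) (R i) j
  unfold curl
  rw [e, e, e, e, e, e]
  fin_cases l <;> simp [Finset.sum_sub_distrib, mul_sub]

end lin

/-! ### The base system -/

section base

variable {ι : Type} [Fintype ι] [DecidableEq ι]

/-- The equations in the original (not orthonormal) basis. -/
structure Base (G : ι → ι → ℝ) (ct : ι → ι → ι → ℝ) (ν κ : ℝ) (A : ι → ℝ → V → V)
    (π : ι → ℝ → V → ℝ) (Φ : ℝ → V → ℝ) : Prop where
  smooth_A : ∀ a, ContDiffOn ℝ ∞ (fun z : ℝ × V => A a z.1 z.2) (Om κ)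
  smooth_π : ∀ a, ContDiffOn ℝ ∞ (fun z : ℝ × V => π a z.1 z.2) (Om κ)
  smooth_Φ : ContDiffOn ℝ ∞ (fun z : ℝ × V => Φ z.1 z.2) (Om κ)
  dual : ∀ a, ∀ t < 1, ∀ x i, (∑ b, G a b * (deriv (fun s => curl (A b s) x i) t
      - ν * ∑ j, pd j (pd j (fun y => curl (A b t) y i)) x))
     + (∑ b, ∑ d, ct a b d * ∑ j, curl (A b t) x j * pd j (fun y => curl (A d t) y i) x)
     + pd i (π a t) x = 0
  unit : ∀ t < 1, ∀ x i, ∑ a, ∑ b, G a b * ∑ j, curl (A a t) x j
      * pd j (fun y => curl (A b t) y i) x = pd i (Φ t) x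
  blow : ∀ M : ℝ, ∃ a, ∃ t ∈ Ioo (1 / 2 : ℝ) 1, ∃ x, ‖x‖ < 1 / 8 ∧ ∃ i, M < |curl (A a t) x i|

/-- The hypotheses of `no_adm_of_core`. -/
structure Core {K : Type} [Fintype K] (c : K → K → K → ℝ) (ν κ : ℝ) (A : K → ℝ → V → V)
    (p : K → ℝ → V → ℝ) : Prop where
  smooth_A : ∀ a, ContDiffOn ℝ ∞ (fun z : ℝ × V => A a z.1 z.2) (Om κ)
  smooth_p : ∀ a, ContDiffOn ℝ ∞ (fun z : ℝ × V => p a z.1 z.2) (Om κ)
  pde : ∀ a, ∀ t < 1, ∀ x i, deriv (fun s => curl (A a s) x i) t
       + ∑ b, ∑ d, c a b d * ∑ j, curl (A b t) x j * pd j (fun y => curl (A d t) y i) x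
       = ν * ∑ j, pd j (pd j (fun y => curl (A a t) y i)) x - pd i (p a t) x
  blow : ∀ M : ℝ, ∃ a, ∃ t ∈ Ioo (1 / 2 : ℝ) 1, ∃ x, ‖x‖ < 1 / 8 ∧ ∃ i, M < |curl (A a t) x i|

variable {G : ι → ι → ℝ} {ct : ι → ι → ι → ℝ} {ν κ : ℝ} {A : ι → ℝ → V → V}
  {π : ι → ℝ → V → ℝ} {Φ : ℝ → V → ℝ}

theorem Base.core (h : Base G ct ν κ A π Φ) (hκ : 0 < κ) {R S : ι → ι → ℝ}
    (h1 : ∀ a b, ∑ i, R i a * R i b = G a b)
    (h2 : ∀ i j, ∑ b, R i b * S b j = if i = j then 1 else 0)
    (h3 : ∀ a b, ∑ i, S a i * R i b = if a = b then 1 else 0) :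
    Core (cO S ct) ν κ (newA R A) (newp S π Φ) := by
  have hA1 : ∀ a, ContDiffOn ℝ ∞ (fun z : ℝ × V => A a z.1 z.2) (Iio 1 ×ˢ univ) :=
    fun a => (h.smooth_A a).mono (O1_sub hκ)
  have hπ1 : ∀ a, ContDiffOn ℝ ∞ (fun z : ℝ × V => π a z.1 z.2) (Iio 1 ×ˢ univ) :=
    fun a => (h.smooth_π a).mono (O1_sub hκ)
  have hcs : ∀ a l, ContDiffOn ℝ ∞ (fun z : ℝ × V => curl (A a z.1) z.2 l) (Iio 1 ×ˢ univ) :=
    fun a l => curl_smooth (hA1 a) l
  -- derivatives of the new fields
  have c0 : ∀ i, ∀ t < 1, ∀ x l, curl (newA R A (some i) t) x l = ∑ b, R i b * curl (A b t) x l :=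
    fun i t ht x l => curl_newA hA1 R i ht x l
  have ct' : ∀ i, ∀ t < 1, ∀ x l, deriv (fun s => curl (newA R A (some i) s) x l) t
      = ∑ b, R i b * deriv (fun s => curl (A b s) x l) t := by
    intro i t ht x l
    have e : (fun s => curl (newA R A (some i) s) x l)
        =ᶠ[𝓝 t] fun s => ∑ b, R i b * curl (A b s) x l := by
      filter_upwards [Iio_mem_nhds ht] with s hs
      exact c0 i s hs x l
    rw [e.deriv_eq]
    exact deriv_lin (f := fun b s => curl (A b s) x l) (fun b => sliceT (hcs b l) ht x) (R i)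
  have cx : ∀ i, ∀ t < 1, ∀ x l j, pd j (fun y => curl (newA R A (some i) t) y l) x
      = ∑ b, R i b * pd j (fun y => curl (A b t) y l) x := by
    intro i t ht x l j
    have e : (fun y => curl (newA R A (some i) t) y l) = fun y => ∑ b, R i b * curl (A b t) y l :=
      funext fun y => c0 i t ht y l
    rw [e]
    exact pd_lin (f := fun b y => curl (A b t) y l)
      (fun b => ((sliceD (hcs b l) ht).differentiable (by norm_num)) x) (R i) j
  have cxx : ∀ i, ∀ t < 1, ∀ x l j, pd j (pd j (fun y => curl (newA R A (some i) t) y l)) x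
      = ∑ b, R i b * pd j (pd j (fun y => curl (A b t) y l)) x := by
    intro i t ht x l j
    have e : pd j (fun y => curl (newA R A (some i) t) y l)
        = fun y => ∑ b, R i b * pd j (fun y => curl (A b t) y l) y :=
      funext fun y => cx i t ht y l j
    rw [e]
    refine pd_lin (f := fun b y => pd j (fun y => curl (A b t) y l) y) (fun b => ?_) (R i) j
    have h4 : ContDiff ℝ ∞ (pd j (fun y => curl (A b t) y l)) := by
      have h5 : ContDiff ℝ ∞ (fderiv ℝ (fun y => curl (A b t) y l)) :=
        (sliceD (hcs b l) ht).fderiv_right (by norm_cast)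
      exact h5.clm_apply contDiff_const
    exact (h4.differentiable (by norm_num)) x
  have n0 : ∀ t x l, curl (newA R A none t) x l = 0 := fun t x l => curl_newA_none R A t x l
  have n0' : ∀ t l, (fun y => curl (newA R A none t) y l) = fun _ => 0 := fun t l =>
    funext fun y => n0 t y l
  have pz : ∀ j, pd j (fun _ : V => (0 : ℝ)) = fun _ => 0 := fun j => by
    funext x
    simp [pd]
  -- the transport terms
  have tr : ∀ i k, ∀ t < 1, ∀ x l, ∑ j, curl (newA R A (some i) t) x j
      * pd j (fun y => curl (newA R A (some k) t) y l) x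
      = ∑ b, ∑ d, R i b * R k d * ∑ j, curl (A b t) x j * pd j (fun y => curl (A d t) y l) x := by
    intro i k t ht x l
    simp_rw [c0 i t ht, cx k t ht]
    calc ∑ j, (∑ b, R i b * curl (A b t) x j) * ∑ b, R k b * pd j (fun y => curl (A b t) y l) x
        = ∑ j, ∑ b, ∑ d, R i b * R k d * (curl (A b t) x j
            * pd j (fun y => curl (A d t) y l) x) := by
          refine Finset.sum_congr rfl fun j _ => ?_
          rw [Finset.sum_mul]
          refine Finset.sum_congr rfl fun b _ => ?_
          rw [Finset.mul_sum]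
          refine Finset.sum_congr rfl fun d _ => ?_
          ring
      _ = _ := by
          rw [Finset.sum_comm]
          refine Finset.sum_congr rfl fun b _ => ?_
          rw [Finset.sum_comm]
          refine Finset.sum_congr rfl fun d _ => ?_
          rw [← Finset.mul_sum]
  -- the coefficients of the new basis
  have hSG : ∀ i b, ∑ a, S a i * G a b = R i b := by
    intro i b
    calc ∑ a, S a i * G a b = ∑ a, ∑ j, S a i * (R j a * R j b) := by
          refine Finset.sum_congr rfl fun a _ => ?_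
          rw [← h1 a b, Finset.mul_sum]
      _ = ∑ j, (∑ a, R j a * S a i) * R j b := by
          rw [Finset.sum_comm]
          refine Finset.sum_congr rfl fun j _ => ?_
          rw [Finset.sum_mul]
          refine Finset.sum_congr rfl fun a _ => ?_
          ring
      _ = _ := by simp [h2]
  refine ⟨fun a => ?_, fun a => ?_, fun a t ht x l => ?_, fun M => ?_⟩
  · rcases a with _ | i
    · exact contDiffOn_const
    · exact ContDiffOn.sum fun b _ => (h.smooth_A b).const_smul (R i b)
  · rcases a with _ | i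
    · exact h.smooth_Φ.neg
    · exact ContDiffOn.sum fun b _ => contDiffOn_const.mul (h.smooth_π b)
  · rcases a with _ | i
    · -- the unit component
      have e1 : deriv (fun s => curl (newA R A none s) x l) t = 0 := by
        simp [n0]
      have e2 : pd l (newp S π Φ none t) x = - pd l (Φ t) x := by
        show fderiv ℝ (fun y => -Φ t y) x _ = _
        rw [fderiv_fun_neg]
        rfl
      rw [e1, e2, zero_add, ← h.unit t ht x l]
      simp only [Fintype.sum_option, n0, n0', pz, zero_mul, mul_zero, Finset.sum_const_zero,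
        add_zero, zero_add, sub_neg_eq_add]
      have e3 : ∀ i k, cO S ct none (some i) (some k) * ∑ j, curl (newA R A (some i) t) x j
          * pd j (fun y => curl (newA R A (some k) t) y l) x
          = if i = k then ∑ b, ∑ d, R i b * R k d * ∑ j, curl (A b t) x j
            * pd j (fun y => curl (A d t) y l) x else 0 := by
        intro i k
        rw [tr i k t ht x l]
        by_cases hik : i = k <;> simp [cO, hik]
      simp_rw [e3]
      simp only [Finset.sum_ite_eq, Finset.mem_univ, if_true]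
      rw [Finset.sum_comm]
      refine Finset.sum_congr rfl fun b _ => ?_
      rw [Finset.sum_comm]
      refine Finset.sum_congr rfl fun d _ => ?_
      rw [← Finset.sum_mul, h1]
    · have e2 : pd l (newp S π Φ (some i) t) x = ∑ a, S a i * pd l (π a t) x := by
        show pd l (fun y => ∑ a, S a i * π a t y) x = _
        exact pd_lin (f := fun a y => π a t y) (fun a =>
          ((sliceD (F := fun z => π a z.1 z.2) (hπ1 a) ht).differentiable (by norm_num)) x)
          (fun a => S a i) l
      rw [ct' i t ht x l, e2]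
      simp_rw [cxx i t ht]
      simp only [Fintype.sum_option, n0, n0', pz, zero_mul, mul_zero, Finset.sum_const_zero,
        add_zero, zero_add]
      -- the quadratic terms
      have e3 : ∑ j, ∑ k, cO S ct (some i) (some j) (some k)
          * ∑ m, curl (newA R A (some j) t) x m
            * pd m (fun y => curl (newA R A (some k) t) y l) x
          = ∑ a, S a i * ∑ b, ∑ d, ct a b d * ∑ m, curl (A b t) x m
            * pd m (fun y => curl (A d t) y l) x := by
        simp_rw [fun j k => tr j k t ht x l]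
        set T : ι → ι → ℝ := fun b d => ∑ m, curl (A b t) x m
            * pd m (fun y => curl (A d t) y l) x with hT
        calc ∑ j, ∑ k, cO S ct (some i) (some j) (some k) * ∑ b, ∑ d, R j b * R k d * T b d
            = ∑ j, ∑ k, ∑ a, ∑ b, ∑ d, S a i * (ct a b d *
                (S b j * S d k * ∑ b', ∑ d', R j b' * R k d' * T b' d')) := by
              refine Finset.sum_congr rfl fun j _ => Finset.sum_congr rfl fun k _ => ?_
              simp only [cO]
              rw [Finset.sum_mul]
              refine Finset.sum_congr rfl fun a _ => ?_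
              rw [Finset.sum_mul]
              refine Finset.sum_congr rfl fun b _ => ?_
              rw [Finset.sum_mul]
              refine Finset.sum_congr rfl fun d _ => ?_
              ring
          _ = ∑ a, ∑ b, ∑ d, ∑ j, ∑ k, S a i * (ct a b d *
                (S b j * S d k * ∑ b', ∑ d', R j b' * R k d' * T b' d')) := by
              rw [Finset.sum_congr rfl fun j _ => Finset.sum_comm, Finset.sum_comm]
              refine Finset.sum_congr rfl fun a _ => ?_
              rw [Finset.sum_congr rfl fun j _ => Finset.sum_comm, Finset.sum_comm]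
              refine Finset.sum_congr rfl fun b _ => ?_
              rw [Finset.sum_congr rfl fun j _ => Finset.sum_comm, Finset.sum_comm]
          _ = ∑ a, ∑ b, ∑ d, S a i * (ct a b d * T b d) := by
              refine Finset.sum_congr rfl fun a _ => Finset.sum_congr rfl fun b _ =>
                Finset.sum_congr rfl fun d _ => ?_
              rw [← inv2 h3 T b d]
              simp only [Finset.mul_sum]
          _ = _ := by
              refine Finset.sum_congr rfl fun a _ => ?_
              simp only [hT, Finset.mul_sum]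
      rw [e3]
      -- the linear terms
      have e4 : ∑ b, R i b * (deriv (fun s => curl (A b s) x l) t
          - ν * ∑ j, pd j (pd j (fun y => curl (A b t) y l)) x)
          = ∑ a, S a i * ∑ b, G a b * (deriv (fun s => curl (A b s) x l) t
          - ν * ∑ j, pd j (pd j (fun y => curl (A b t) y l)) x) := by
        simp only [Finset.mul_sum (Finset.univ) (fun b => G _ b * _)]
        rw [Finset.sum_comm]
        refine Finset.sum_congr rfl fun b _ => ?_
        rw [← hSG i b, Finset.sum_mul]
        refine Finset.sum_congr rfl fun a _ => ?_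
        ring
      have e5 : ∑ b, R i b * (deriv (fun s => curl (A b s) x l) t
          - ν * ∑ j, pd j (pd j (fun y => curl (A b t) y l)) x)
          = ∑ b, R i b * deriv (fun s => curl (A b s) x l) t
          - ν * ∑ j, ∑ b, R i b * pd j (pd j (fun y => curl (A b t) y l)) x := by
        rw [Finset.sum_comm, Finset.mul_sum, ← Finset.sum_sub_distrib]
        refine Finset.sum_congr rfl fun b _ => ?_
        rw [← Finset.mul_sum]
        ring
      have e6 : ∑ a, S a i * ((∑ b, G a b * (deriv (fun s => curl (A b s) x l) t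
          - ν * ∑ j, pd j (pd j (fun y => curl (A b t) y l)) x))
          + (∑ b, ∑ d, ct a b d * ∑ m, curl (A b t) x m * pd m (fun y => curl (A d t) y l) x)
          + pd l (π a t) x) = 0 :=
        Finset.sum_eq_zero fun a _ => by rw [h.dual a t ht x l, mul_zero]
      simp only [mul_add, Finset.sum_add_distrib] at e6
      rw [← e4, e5] at e6
      linarith
  · obtain ⟨a, t, ht, x, hx, l, hl⟩ := h.blow (|M| * ∑ a, ∑ i, |S a i|)
    have e1 : curl (A a t) x l = ∑ i, S a i * curl (newA R A (some i) t) x l := by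
      simp_rw [fun i => c0 i t ht.2 x l]
      calc curl (A a t) x l = ∑ b, (if a = b then 1 else 0) * curl (A b t) x l := by simp
        _ = ∑ b, ∑ i, S a i * (R i b * curl (A b t) x l) := by
            refine Finset.sum_congr rfl fun b _ => ?_
            rw [← h3 a b, Finset.sum_mul]
            refine Finset.sum_congr rfl fun i _ => ?_
            ring
        _ = _ := by
            rw [Finset.sum_comm]
            refine Finset.sum_congr rfl fun i _ => ?_
            rw [Finset.mul_sum]
    by_contra hcon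
    push Not at hcon
    have e2 : ∀ i, |curl (newA R A (some i) t) x l| ≤ |M| := fun i =>
      (hcon (some i) t ht x hx l).trans (le_abs_self M)
    have e3 : |curl (A a t) x l| ≤ |M| * ∑ i, |S a i| := by
      rw [e1]
      refine (Finset.abs_sum_le_sum_abs _ _).trans ?_
      rw [Finset.mul_sum]
      refine Finset.sum_le_sum fun i _ => ?_
      rw [abs_mul, mul_comm]
      exact mul_le_mul_of_nonneg_right (e2 i) (abs_nonneg _)
    have e4 : ∑ i, |S a i| ≤ ∑ a, ∑ i, |S a i| :=
      Finset.single_le_sum (f := fun a => ∑ i, |S a i|)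
        (fun a _ => Finset.sum_nonneg fun i _ => abs_nonneg _) (Finset.mem_univ a)
    have e5 := mul_le_mul_of_nonneg_left e4 (abs_nonneg M)
    linarith

/-- Breakdown from the base system. -/
theorem Base.no_adm (h : Base G ct ν κ A π Φ) (hν : 0 ≤ ν) (hκ : 0 < κ) (hct : Sym ct)
    (hGs : ∀ a b, G a b = G b a)
    (hG : ∀ v : ι → ℝ, v ≠ 0 → 0 < ∑ a, ∑ b, G a b * v a * v b) :
    ∃ S : ι → ι → ℝ, Sym (cO S ct) ∧
    ∃ f : Option ι → ℝ → V → V, (∀ a, ContDiff ℝ ∞ fun z : ℝ × V => f a z.1 z.2) ∧
      (∀ a t, Per (f a t)) ∧ (∀ a t, t ≤ 0 → f a t = 0) ∧ (∀ a t, 2 ≤ t → f a t = 0) ∧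
      ¬ ∃ u p, Adm (cO S ct) ν f u p ∧ ∀ a, u a 0 = 0 := by
  obtain ⟨R, S, h1, h2, h3⟩ := exists_RS G hGs hG
  have hc := h.core hκ h1 h2 h3
  exact ⟨S, cO_sym S hct, no_adm_of_core (cO_sym S hct) hν hκ _ _ hc.smooth_A hc.smooth_p
    hc.pde hc.blow⟩

end base

end Pool.Agent.N983.NC
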