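import Pool.Agent.N983.NC.Fld

/-!
Contraction identities.
-/

open MeasureTheory Set Filter Topology
open scoped ContDiff

namespace Pool.Agent.N983.NC

open H459R3.NS

/-- a value -/
def vl (g h : ℝ) (M : Fin 3 → Fin 3 → ℝ) (a : Fin 3 → ℝ) (l : Fin 3) (x : V) : ℝ :=
  g * li a x + h * (qf M x * x l)

/-- a gradient -/
def gr (g g' h h' : ℝ) (M : Fin 3 → Fin 3 → ℝ) (a : Fin 3 → ℝ) (l : Fin 3) (x : V) (j : Fin 3) : ℝ :=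
  2 * x j * g' * li a x + g * a j + 2 * x j * h' * (qf M x * x l)
    + h * (2 * li (M j) x * x l + qf M x * (if j = l then 1 else 0))

theorem cmp_eq_vl (κ : ℝ) (g h : Rad) (M : Fin 3 → Fin 3 → ℝ) (a : Fin 3 → ℝ) (l : Fin 3)
    (t : ℝ) (x : V) : cmp κ g h M a l t x = vl (ev κ g t (sq x)) (ev κ h t (sq x)) M a l x := rfl

theorem cmpG_eq_gr (κ : ℝ) (g h : Rad) (M : Fin 3 → Fin 3 → ℝ) (a : Fin 3 → ℝ) (l : Fin 3)
    (t : ℝ) (x : V) (j : Fin 3) : cmpG κ g h M a l t x j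
      = gr (ev κ g t (sq x)) (ev κ (dS κ g) t (sq x)) (ev κ h t (sq x)) (ev κ (dS κ h) t (sq x))
        M a l x j := rfl

/-- basis of the symmetric trace-free matrices -/
def EE : Fin 5 → Fin 3 → Fin 3 → ℝ :=
  ![![![0, 1, 0], ![1, 0, 0], ![0, 0, 0]],
    ![![0, 0, 0], ![0, 0, 1], ![0, 1, 0]],
    ![![0, 0, 1], ![0, 0, 0], ![1, 0, 0]],
    ![![1, 0, 0], ![0, -1, 0], ![0, 0, 0]],
    ![![-1, 0, 0], ![0, -1, 0], ![0, 0, 2]]]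

/-- squares of the norms of the matrices `EE` -/
def nE : Fin 5 → ℝ := ![2, 2, 2, 2, 6]

theorem EE_symm (r : Fin 5) (m n : Fin 3) : EE r m n = EE r n m := by
  fin_cases r <;> fin_cases m <;> fin_cases n <;> simp [EE]

theorem EE_tr (r : Fin 5) : ∑ m, EE r m m = 0 := by
  fin_cases r <;> simp [EE, Fin.sum_univ_three]
  norm_num

theorem con_T (χ χ' Q Q' P P' : ℝ) (α l : Fin 3) (x : V) :
    ∑ β, ∑ r, EE r α β / nE r * ∑ j, (vl χ 0 0 (rot β j) j x * gr Q Q' P P' (EE r) (EE r l) l x j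
      + vl Q P (EE r) (EE r j) j x * gr χ χ' 0 0 0 (rot β l) l x j)
    = -((2 / 3) * sq x * (Q + sq x * P) * χ' + (5 / 3) * Q * χ + (2 / 3) * sq x * P * χ)
      * li (rot α l) x := by
  fin_cases α <;> fin_cases l <;>
    simp [Fin.sum_univ_three, Fin.sum_univ_five, sq, qf, li, vl, gr, rot, EE, nE] <;> ring

theorem con_TT (χ χ₂ χ₂' : ℝ) (r : Fin 5) (l : Fin 3) (x : V) :
    ∑ β, ∑ γ, EE r β γ * ∑ j, vl χ 0 0 (rot β j) j x * gr χ₂ χ₂' 0 0 0 (rot γ l) l x j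
    = χ * χ₂ * li (EE r l) x := by
  fin_cases r <;> fin_cases l <;>
    simp [Fin.sum_univ_three, qf, li, vl, gr, rot, EE] <;> ring

/-- symmetrized traces `(tr (E_r E_s E_q) + tr (E_s E_r E_q)) / 2` -/
def trZ : Fin 5 → Fin 5 → Fin 5 → ℤ :=
  ![![![0, 0, 0, 0, -2], ![0, 0, 1, 0, 0], ![0, 1, 0, 0, 0], ![0, 0, 0, 0, 0], ![-2, 0, 0, 0, 0]],
    ![![0, 0, 1, 0, 0], ![0, 0, 0, -1, 1], ![1, 0, 0, 0, 0], ![0, -1, 0, 0, 0], ![0, 1, 0, 0, 0]],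
    ![![0, 1, 0, 0, 0], ![1, 0, 0, 0, 0], ![0, 0, 0, 1, 1], ![0, 0, 1, 0, 0], ![0, 0, 1, 0, 0]],
    ![![0, 0, 0, 0, 0], ![0, -1, 0, 0, 0], ![0, 0, 1, 0, 0], ![0, 0, 0, 0, -2], ![0, 0, 0, -2, 0]],
    ![![-2, 0, 0, 0, 0], ![0, 1, 0, 0, 0], ![0, 0, 1, 0, 0], ![0, 0, 0, -2, 0], ![0, 0, 0, 0, 6]]]

theorem trZ_symm : ∀ r s q : Fin 5, trZ r s q = trZ s r q ∧ trZ r s q = trZ r q s := by
  decide

theorem con_T0 (χ χ₂ χ₂' : ℝ) (l : Fin 3) (x : V) :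
    ∑ β, ∑ j, vl χ 0 0 (rot β j) j x * gr χ₂ χ₂' 0 0 0 (rot β l) l x j
    = -2 * (χ * χ₂) * x l := by
  fin_cases l <;>
    simp [Fin.sum_univ_three, qf, li, vl, gr, rot] <;> ring

theorem con_P0 (Q P Q₂ Q₂' P₂ P₂' : ℝ) (l : Fin 3) (x : V) :
    ∑ r, 1 / nE r * ∑ j, vl Q P (EE r) (EE r j) j x * gr Q₂ Q₂' P₂ P₂' (EE r) (EE r l) l x j
    = ((4 / 3) * sq x * (Q + sq x * P) * Q₂' + (5 / 3) * Q * Q₂ + (2 / 3) * sq x * P * Q₂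
      + 4 * sq x * Q * P₂ + (4 / 3) * sq x ^ 2 * (Q + sq x * P) * P₂' + 2 * sq x ^ 2 * P * P₂)
      * x l := by
  fin_cases l <;>
    simp [Fin.sum_univ_three, Fin.sum_univ_five, sq, qf, li, vl, gr, EE, nE] <;> ring

theorem con_PP (Q P Q₂ Q₂' P₂ P₂' : ℝ) (r : Fin 5) (l : Fin 3) (x : V) :
    ∑ s, ∑ q, (trZ r s q : ℝ) / (nE s * nE q)
      * ∑ j, vl Q P (EE s) (EE s j) j x * gr Q₂ Q₂' P₂ P₂' (EE q) (EE q l) l x j
    = ((1 / 3) * sq x * (Q + sq x * P) * Q₂' + (7 / 12) * Q * Q₂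
        + (1 / 6) * sq x * (P * Q₂ + Q * P₂)) * li (EE r l) x
      + ((1 / 3) * (Q + sq x * P) * Q₂' + (1 / 6) * P * Q₂ + (4 / 3) * Q * P₂
        + (2 / 3) * sq x * (Q + sq x * P) * P₂' + sq x * P * P₂) * (qf (EE r) x * x l) := by
  fin_cases r <;> fin_cases l <;>
    simp [Fin.sum_univ_three, Fin.sum_univ_five, sq, qf, li, vl, gr, EE, nE, trZ] <;> ring

end Pool.Agent.N983.NC
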