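import Pool.Agent.N983.NC.Dual

/-!
Scaling of the base fields.
-/

open MeasureTheory Set Filter Topology
open scoped ContDiff

namespace Pool.Agent.N983.NC

open H459R3.NS

/-- all terms of the list have the weight `k` -/
def Wt (k : ℕ) (l : Rad) : Prop := ∀ q ∈ l, q.2.2 = q.2.1 + k

theorem ev_scale {κ : ℝ} (hκ : 0 < κ) {k : ℕ} {l : Rad} (hl : Wt k l) {t s : ℝ} (ht : t < 1)
    (hs : 0 ≤ s) : ev κ l t s = ((1 - t)⁻¹) ^ k * ev κ l 0 ((1 - t)⁻¹ * s) := by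
  induction l with
  | nil => simp [ev_nil]
  | cons q l ih =>
    have h1 : q.2.2 = q.2.1 + k := hl q (by simp)
    have h2 : Wt k l := fun r hr => hl r (by simp [hr])
    rw [ev_cons, ev_cons, ih h2, mul_add, h1]
    congr 1
    have hτ : 0 < 1 - t := by linarith
    have hD : 0 < 1 - t + κ * s := by positivity
    have e : 1 - 0 + κ * ((1 - t)⁻¹ * s) = (1 - t + κ * s) / (1 - t) := by
      field_simp
      ring
    rw [e, div_pow, pow_add (1 - t) q.2.1 k, inv_pow]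
    have hk : (1 - t) ^ k ≠ 0 := pow_ne_zero _ hτ.ne'
    have hn : (1 - t) ^ q.2.1 ≠ 0 := pow_ne_zero _ hτ.ne'
    have hDn : (1 - t + κ * s) ^ (q.2.1 + k) ≠ 0 := pow_ne_zero _ hD.ne'
    simp only [sub_zero, one_pow, mul_one]
    rw [div_div_eq_mul_div]
    field_simp

theorem fR_wt (b : Fin 4) : Wt 1 (fR b) := by
  intro q hq
  fin_cases b <;> simp [fR] at hq <;> rcases hq with rfl | rfl <;> rfl

theorem QR_wt (b : Fin 4) : Wt 1 (QR b) := by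
  intro q hq
  fin_cases b <;> simp [QR] at hq <;> rcases hq with rfl | rfl <;> rfl

theorem PR_wt (κ : ℝ) (b : Fin 4) : Wt 2 (PR κ b) := by
  intro q hq
  fin_cases b <;> simp [PR] at hq <;> rcases hq with rfl <;> rfl

theorem piR_wt (a : Fin 4) : Wt 2 (piR a) := by
  intro q hq
  fin_cases a <;> simp [piR] at hq
  · rcases hq with rfl | rfl | rfl | rfl | rfl | rfl | rfl | rfl <;> rfl
  · rcases hq with rfl | rfl | rfl | rfl | rfl | rfl | rfl <;> rfl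
  · rcases hq with rfl | rfl | rfl | rfl | rfl | rfl <;> rfl
  · rcases hq with rfl | rfl | rfl | rfl | rfl <;> rfl

theorem phR_wt (κ : ℝ) : Wt 1 (phR κ) := by
  intro q hq
  simp [phR] at hq
  rcases hq with rfl | rfl | rfl | rfl | rfl | rfl | rfl | rfl | rfl <;> rfl

theorem sq_smul (r : ℝ) (x : V) : sq (r • x) = r ^ 2 * sq x := by
  simp [sq, Finset.mul_sum, mul_pow]

theorem li_smul (r : ℝ) (a : Fin 3 → ℝ) (x : V) : li a (r • x) = r * li a x := by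
  simp only [li, Finset.mul_sum, Pi.smul_apply, smul_eq_mul]
  refine Finset.sum_congr rfl fun m _ => ?_
  ring

theorem qf_smul (r : ℝ) (M : Fin 3 → Fin 3 → ℝ) (x : V) : qf M (r • x) = r ^ 2 * qf M x := by
  simp only [qf, li_smul, Finset.mul_sum, Pi.smul_apply, smul_eq_mul]
  refine Finset.sum_congr rfl fun m _ => ?_
  ring

theorem isqrt_sq {t : ℝ} (ht : t < 1) : (Real.sqrt (1 - t))⁻¹ ^ 2 = (1 - t)⁻¹ := by
  rw [inv_pow, Real.sq_sqrt (by linarith)]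

theorem curl_scale {κ : ℝ} (hκ : 0 < κ) {t : ℝ} (ht : t < 1) (a : I0) (x : V) (l : Fin 3) :
    curl (AA κ a t) x l
      = (Real.sqrt (1 - t))⁻¹ * curl (AA κ a 0) ((Real.sqrt (1 - t))⁻¹ • x) l := by
  have h0 : (0 : ℝ) < 1 := one_pos
  have e2 := isqrt_sq ht
  rcases a with ⟨b, α⟩ | ⟨b, r⟩
  · rw [vT hκ ht, vT hκ h0, sq_smul, e2, ev_scale hκ (fR_wt b) ht (sq_nonneg' x)]
    simp only [vl, li_smul, zero_mul, add_zero, pow_one]
    rw [← e2]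
    ring
  · rw [vP hκ ht, vP hκ h0, sq_smul, e2, ev_scale hκ (QR_wt b) ht (sq_nonneg' x),
      ev_scale hκ (PR_wt κ b) ht (sq_nonneg' x)]
    simp only [vl, li_smul, qf_smul, Pi.smul_apply, smul_eq_mul, pow_one]
    rw [← e2]
    ring

theorem PP_scale {κ : ℝ} (hκ : 0 < κ) {t : ℝ} (ht : t < 1) (a : I0) (x : V) :
    PP κ a t x = (1 - t)⁻¹ * PP κ a 0 ((Real.sqrt (1 - t))⁻¹ • x) := by
  have e2 := isqrt_sq ht
  rcases a with ⟨b, α⟩ | ⟨b, r⟩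
  · simp [PP]
  · simp only [PP]
    rw [sq_smul, e2, ev_scale hκ (piR_wt b) ht (sq_nonneg' x), qf_smul, e2]
    ring

theorem FF_scale {κ : ℝ} (hκ : 0 < κ) {t : ℝ} (ht : t < 1) (x : V) :
    FF κ t x = (1 - t)⁻¹ * FF κ 0 ((Real.sqrt (1 - t))⁻¹ • x) := by
  have e2 := isqrt_sq ht
  simp only [FF]
  rw [sq_smul, e2, ev_scale hκ (phR_wt κ) ht (sq_nonneg' x), pow_one]

/-- decay of self-similar profiles -/
theorem decay {κ : ℝ} (hκ : 0 < κ) {F : ℝ → V → V}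
    (hF : ContinuousOn (fun z : ℝ × V => F z.1 z.2) (Om κ))
    (hs : ∀ t < 1, ∀ x, F t x = (Real.sqrt (1 - t))⁻¹ • F 0 ((Real.sqrt (1 - t))⁻¹ • x)) :
    ∃ C, ∀ y, ‖F 0 y‖ ≤ C / (1 + ‖y‖) := by
  have c1 : IsCompact (Icc (0 : ℝ) 1 ×ˢ Metric.sphere (0 : V) 1) :=
    isCompact_Icc.prod (isCompact_sphere _ _)
  have s1 : Icc (0 : ℝ) 1 ×ˢ Metric.sphere (0 : V) 1 ⊆ Om κ := by
    rintro ⟨t, x⟩ ⟨ht, hx⟩
    simp only [mem_sphere_iff_norm, sub_zero] at hx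
    have hx0 : x ≠ 0 := by
      rintro rfl
      simp at hx
    obtain ⟨i, hi⟩ := Function.ne_iff.1 hx0
    have h1 : 0 < ∑ i, x i ^ 2 :=
      Finset.sum_pos' (fun _ _ => sq_nonneg _) ⟨i, Finset.mem_univ _, by
        have : x i ≠ 0 := hi
        positivity⟩
    have h2 : 0 < κ * ∑ i, x i ^ 2 := mul_pos hκ h1
    have h3 : t ≤ 1 := ht.2
    show 0 < 1 - t + κ * ∑ i, x i ^ 2
    linarith
  obtain ⟨M1, hM1⟩ := c1.exists_bound_of_continuousOn (hF.mono s1)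
  have c2 : IsCompact ({(0 : ℝ)} ×ˢ Metric.closedBall (0 : V) 1) :=
    isCompact_singleton.prod (isCompact_closedBall _ _)
  have s2 : ({(0 : ℝ)} ×ˢ Metric.closedBall (0 : V) 1) ⊆ Om κ := by
    rintro ⟨t, x⟩ ⟨ht, hx⟩
    have ht0 : t = 0 := ht
    subst ht0
    exact mem_Om_of_lt hκ one_pos x
  obtain ⟨M2, hM2⟩ := c2.exists_bound_of_continuousOn (hF.mono s2)
  refine ⟨2 * (|M1| + |M2|), fun y => ?_⟩
  have hy0 : 0 < 1 + ‖y‖ := by positivity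
  rw [le_div_iff₀ hy0]
  rcases le_or_gt ‖y‖ 1 with hy | hy
  · have h1 := hM2 (0, y) ⟨rfl, by simpa using hy⟩
    have h2 : ‖F 0 y‖ ≤ |M2| := h1.trans (le_abs_self _)
    have h3 : 0 ≤ ‖F 0 y‖ := norm_nonneg _
    nlinarith [abs_nonneg M1, abs_nonneg M2]
  · have hyp : 0 < ‖y‖ := by linarith
    set t : ℝ := 1 - (‖y‖⁻¹) ^ 2 with ht
    have hi1 : ‖y‖⁻¹ < 1 := inv_lt_one_of_one_lt₀ hy
    have hi0 : 0 < ‖y‖⁻¹ := inv_pos.2 hyp
    have ht1 : t < 1 := by rw [ht]; nlinarith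
    have ht0 : 0 ≤ t := by rw [ht]; nlinarith
    have hsq : Real.sqrt (1 - t) = ‖y‖⁻¹ := by
      rw [ht, sub_sub_cancel, Real.sqrt_sq hi0.le]
    have h1 := hs t ht1 (‖y‖⁻¹ • y)
    rw [hsq, inv_inv, smul_smul, mul_inv_cancel₀ hyp.ne', one_smul] at h1
    have h2 := hM1 (t, ‖y‖⁻¹ • y) ⟨⟨ht0, ht1.le⟩, by
      simp [norm_smul, hyp.ne']⟩
    simp only [h1, norm_smul, norm_norm] at h2
    have h3 : ‖y‖ * ‖F 0 y‖ ≤ |M1| := h2.trans (le_abs_self _)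
    have h4 : 0 ≤ ‖F 0 y‖ := norm_nonneg _
    nlinarith [abs_nonneg M1, abs_nonneg M2]

end Pool.Agent.N983.NC
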