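import Pool.Agent.N983.NC.Basis
import Pool.Agent.N983.NC.Scale

/-!
Consequences of a singular core solution.
-/

open MeasureTheory Set Filter Topology
open scoped ContDiff

namespace Pool.Agent.N983.NC

open H459R3.NS

theorem Core.reindex {K K' : Type} [Fintype K] [Fintype K'] {c : K → K → K → ℝ} {ν κ : ℝ}
    {A : K → ℝ → V → V} {p : K → ℝ → V → ℝ} (h : Core c ν κ A p) (e : K' ≃ K) :
    Core (fun a b d => c (e a) (e b) (e d)) ν κ (fun a => A (e a)) (fun a => p (e a)) where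
  smooth_A a := h.smooth_A (e a)
  smooth_p a := h.smooth_p (e a)
  pde a t ht x i := by
    have h1 := h.pde (e a) t ht x i
    rw [← Equiv.sum_comp e] at h1
    simp_rw [← Equiv.sum_comp e (fun d => c (e a) _ d * ∑ j, curl (A _ t) x j
      * pd j (fun y => curl (A d t) y i) x)] at h1
    exact h1
  blow M := by
    obtain ⟨a, t, ht, x, hx, i, hi⟩ := h.blow M
    exact ⟨e.symm a, t, ht, x, hx, i, by simpa using hi⟩

theorem curl_contDiffOn {κ : ℝ} {A : ℝ → V → V}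
    (hA : ContDiffOn ℝ ∞ (fun z : ℝ × V => A z.1 z.2) (Om κ)) :
    ContDiffOn ℝ ∞ (fun z : ℝ × V => curl (A z.1) z.2) (Om κ) := by
  rw [contDiffOn_pi]
  intro i
  have hA' : ∀ i, ContDiffOn ℝ ∞ (fun z : ℝ × V => A z.1 z.2 i) (Om κ) := fun i =>
    contDiffOn_pi.1 hA i
  refine (contDiffOn_Curl (isOpen_Om κ) hA' i).congr fun z hz => ?_
  have e : ∀ i j, pd j (fun y => A z.1 y i) z.2 = PD j (fun z => A z.1 z.2 i) z := fun i j =>
    pd_slice' (F := fun z => A z.1 z.2 i) (t := z.1) (x := z.2) (diffAt (isOpen_Om κ) (hA' i) hz) j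
  unfold curl
  rw [e, e, e, e, e, e]
  fin_cases i <;> simp [Curl]

theorem slice_contDiff {κ : ℝ} (hκ : 0 < κ) {E : Type*} [NormedAddCommGroup E] [NormedSpace ℝ E]
    {F : ℝ → V → E} (hF : ContDiffOn ℝ ∞ (fun z : ℝ × V => F z.1 z.2) (Om κ)) {t : ℝ} (ht : t < 1) :
    ContDiff ℝ ∞ (F t) := by
  rw [← contDiffOn_univ]
  exact hF.comp (contDiff_const.prodMk contDiff_id).contDiffOn (fun x _ => mem_Om_of_lt hκ ht x)

theorem div_curl {κ : ℝ} (hκ : 0 < κ) {A : ℝ → V → V}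
    (hA : ContDiffOn ℝ ∞ (fun z : ℝ × V => A z.1 z.2) (Om κ)) {t : ℝ} (ht : t < 1) (x : V) :
    ∑ i, pd i (fun y => curl (A t) y i) x = 0 := by
  have hA' : ∀ i, ContDiffOn ℝ ∞ (fun z : ℝ × V => A z.1 z.2 i) (Om κ) := fun i =>
    contDiffOn_pi.1 hA i
  have hz := mem_Om_of_lt hκ ht x
  rw [← div_Curl (isOpen_Om κ) hA' hz]
  refine Finset.sum_congr rfl fun i _ => ?_
  have e : (fun y => curl (A t) y i) = fun y => Curl (fun i z => A z.1 z.2 i) i (t, y) := by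
    funext y
    exact curl_slice (fun i => (hA' i).mono fun z hz => mem_Om_of_lt hκ hz.1 z.2) ht y i
  rw [e]
  exact pd_slice' (diffAt (isOpen_Om κ) (contDiffOn_Curl (isOpen_Om κ) hA' i) hz) i

/-- The self-similar solution. -/
theorem Core.selfSimilar {K : Type} [Fintype K] {c : K → K → K → ℝ} {ν κ : ℝ}
    {A : K → ℝ → V → V} {p : K → ℝ → V → ℝ} (h : Core c ν κ A p) (hκ : 0 < κ)
    (hsA : ∀ a, ∀ t < 1, ∀ x, curl (A a t) x
      = (Real.sqrt (1 - t))⁻¹ • curl (A a 0) ((Real.sqrt (1 - t))⁻¹ • x))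
    (hsp : ∀ a, ∀ t < 1, ∀ x, p a t x = (1 - t)⁻¹ * p a 0 ((Real.sqrt (1 - t))⁻¹ • x)) :
    ∃ (U : K → V → V) (P : K → V → ℝ), (∀ a, ContDiff ℝ ∞ (U a)) ∧ (∀ a, ContDiff ℝ ∞ (P a)) ∧
      (∃ a, U a ≠ 0) ∧ (∃ C, ∀ a y, ‖U a y‖ ≤ C / (1 + ‖y‖)) ∧
      ∀ t < 1, ∀ a, ∀ x,
        (∑ i, pd i (fun y => ((Real.sqrt (1 - t))⁻¹ • U a ((Real.sqrt (1 - t))⁻¹ • y)) i) x = 0) ∧
        ∀ i, deriv (fun s => ((Real.sqrt (1 - s))⁻¹ • U a ((Real.sqrt (1 - s))⁻¹ • x)) i) t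
          + ∑ b, ∑ d, c a b d * ∑ j, ((Real.sqrt (1 - t))⁻¹ • U b ((Real.sqrt (1 - t))⁻¹ • x)) j
            * pd j (fun y => ((Real.sqrt (1 - t))⁻¹ • U d ((Real.sqrt (1 - t))⁻¹ • y)) i) x
        = ν * ∑ j, pd j (pd j (fun y => ((Real.sqrt (1 - t))⁻¹
            • U a ((Real.sqrt (1 - t))⁻¹ • y)) i)) x
          - pd i (fun y => (1 - t)⁻¹ * P a ((Real.sqrt (1 - t))⁻¹ • y)) x := by
  have hcurl := fun a => curl_contDiffOn (h.smooth_A a)
  refine ⟨fun a => curl (A a 0), fun a => p a 0,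
    fun a => slice_contDiff hκ (F := fun t => curl (A a t)) (hcurl a) one_pos,
    fun a => slice_contDiff hκ (F := p a) (h.smooth_p a) one_pos, ?_, ?_, ?_⟩
  · obtain ⟨a, t, ht, x, -, i, hi⟩ := h.blow 0
    refine ⟨a, fun h0 => ?_⟩
    have e := hsA a t ht.2 x
    have h0' : curl (A a 0) = 0 := h0
    rw [h0'] at e
    simp [e] at hi
  · have h1 : ∀ a, ∃ C, ∀ y, ‖curl (A a 0) y‖ ≤ C / (1 + ‖y‖) := fun a =>
      decay hκ (F := fun t => curl (A a t)) (hcurl a).continuousOn (hsA a)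
    choose C hC using h1
    refine ⟨∑ a, |C a|, fun a y => (hC a y).trans ?_⟩
    have hy : 0 < 1 + ‖y‖ := by positivity
    refine div_le_div_of_nonneg_right ?_ hy.le
    exact (le_abs_self _).trans (Finset.single_le_sum (f := fun a => |C a|)
      (fun _ _ => abs_nonneg _) (Finset.mem_univ a))
  · intro t ht a x
    have e1 : ∀ s < 1, ∀ a y, (Real.sqrt (1 - s))⁻¹ • curl (A a 0) ((Real.sqrt (1 - s))⁻¹ • y)
        = curl (A a s) y := fun s hs a y => (hsA a s hs y).symm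
    have e2 : ∀ y, (1 - t)⁻¹ * p a 0 ((Real.sqrt (1 - t))⁻¹ • y) = p a t y := fun y =>
      (hsp a t ht y).symm
    refine ⟨?_, fun i => ?_⟩
    · simp_rw [e1 t ht]
      exact div_curl hκ (h.smooth_A a) ht x
    · simp_rw [e1 t ht, e2]
      have e3 : (fun s => ((Real.sqrt (1 - s))⁻¹ • curl (A a 0) ((Real.sqrt (1 - s))⁻¹ • x)) i)
          =ᶠ[𝓝 t] fun s => curl (A a s) x i := by
        filter_upwards [Iio_mem_nhds ht] with s hs
        rw [e1 s hs]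
      rw [e3.deriv_eq]
      exact h.pde a t ht x i

end Pool.Agent.N983.NC
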