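import Pool.Agent.N983.NC.Cut2

/-!
From a singular core solution in the whole space to a breakdown for the periodic problem with a
smooth force.
-/

open MeasureTheory Set Filter Topology
open scoped ContDiff

namespace Pool.Agent.N983.NC

open H459R3.NS

variable {K : Type*} [Fintype K] {c : K → K → K → ℝ} {ν : ℝ}

theorem pd_pd_slice {F : ℝ × V → ℝ} (hF : ContDiffOn ℝ ∞ F (Iio 1 ×ˢ univ)) {t : ℝ} (ht : t < 1)
    (j : Fin 3) (x : V) : pd j (pd j (fun y => F (t, y))) x = PD j (PD j F) (t, x) := by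
  have hO : IsOpen (Iio (1 : ℝ) ×ˢ (univ : Set V)) := isOpen_Iio.prod isOpen_univ
  have e : pd j (fun y => F (t, y)) = fun y => PD j F (t, y) := by
    funext y
    exact pd_slice' (diffAt hO hF ⟨ht, mem_univ _⟩) j
  rw [e]
  exact pd_slice' (diffAt hO (contDiffOn_PD hO hF j) ⟨ht, mem_univ _⟩) j

theorem Res_slice {u : K → ℝ → V → V} {q : K → ℝ → V → ℝ}
    (hu : ∀ a i, ContDiffOn ℝ ∞ (fun z : ℝ × V => u a z.1 z.2 i) (Iio 1 ×ˢ univ))
    (hq : ∀ a, ContDiffOn ℝ ∞ (fun z : ℝ × V => q a z.1 z.2) (Iio 1 ×ˢ univ))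
    {t : ℝ} (ht : t < 1) (x : V) (a : K) (i : Fin 3) (g : ℝ) :
    (deriv (fun s => u a s x i) t + ∑ b, ∑ d, c a b d * ∑ j, u b t x j * pd j (fun y => u d t y i) x
      = ν * ∑ j, pd j (pd j (fun y => u a t y i)) x - pd i (q a t) x + g) ↔
    Res c ν (fun a i z => u a z.1 z.2 i) (fun a z => q a z.1 z.2) a i (t, x) = g := by
  have hO : IsOpen (Iio (1 : ℝ) ×ˢ (univ : Set V)) := isOpen_Iio.prod isOpen_univ
  have e1 : deriv (fun s => u a s x i) t = PT (fun z => u a z.1 z.2 i) (t, x) :=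
    deriv_slice' (F := fun z => u a z.1 z.2 i) (diffAt hO (hu a i) ⟨ht, mem_univ _⟩)
  have e2 : ∀ d j, pd j (fun y => u d t y i) x = PD j (fun z => u d z.1 z.2 i) (t, x) :=
    fun d j => pd_slice' (F := fun z => u d z.1 z.2 i) (diffAt hO (hu d i) ⟨ht, mem_univ _⟩) j
  have e3 : ∀ j, pd j (pd j (fun y => u a t y i)) x = PD j (PD j (fun z => u a z.1 z.2 i)) (t, x) :=
    fun j => pd_pd_slice (F := fun z => u a z.1 z.2 i) (hu a i) ht j x
  have e4 : pd i (q a t) x = PD i (fun z => q a z.1 z.2) (t, x) :=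
    pd_slice' (F := fun z => q a z.1 z.2) (diffAt hO (hq a) ⟨ht, mem_univ _⟩) i
  rw [e1, e4]
  simp_rw [e2, e3]
  unfold Res
  constructor <;> intro h <;> linarith

theorem curl_slice {A : ℝ → V → V}
    (hA : ∀ i, ContDiffOn ℝ ∞ (fun z : ℝ × V => A z.1 z.2 i) (Iio 1 ×ˢ univ)) {t : ℝ} (ht : t < 1)
    (x : V) (i : Fin 3) : curl (A t) x i = Curl (fun i z => A z.1 z.2 i) i (t, x) := by
  have hO : IsOpen (Iio (1 : ℝ) ×ˢ (univ : Set V)) := isOpen_Iio.prod isOpen_univ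
  have e : ∀ i j, pd j (fun y => A t y i) x = PD j (fun z => A z.1 z.2 i) (t, x) :=
    fun i j => pd_slice' (F := fun z => A z.1 z.2 i) (diffAt hO (hA i) ⟨ht, mem_univ _⟩) j
  unfold curl
  rw [e, e, e, e, e, e]
  fin_cases i <;> simp [Curl]

theorem no_adm_of_core (hc : Sym c) {κ : ℝ} (hν : 0 ≤ ν) (hκ : 0 < κ)
    (A : K → ℝ → V → V) (p : K → ℝ → V → ℝ)
    (hA : ∀ a, ContDiffOn ℝ ∞ (fun z : ℝ × V => A a z.1 z.2) (Om κ))
    (hp : ∀ a, ContDiffOn ℝ ∞ (fun z : ℝ × V => p a z.1 z.2) (Om κ))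
    (hpde : ∀ a, ∀ t < 1, ∀ x i, deriv (fun s => curl (A a s) x i) t
       + ∑ b, ∑ d, c a b d * ∑ j, curl (A b t) x j * pd j (fun y => curl (A d t) y i) x
       = ν * ∑ j, pd j (pd j (fun y => curl (A a t) y i)) x - pd i (p a t) x)
    (hblow : ∀ M : ℝ, ∃ a, ∃ t ∈ Ioo (1 / 2 : ℝ) 1, ∃ x, ‖x‖ < 1 / 8 ∧ ∃ i, M < |curl (A a t) x i|) :
    ∃ f : K → ℝ → V → V, (∀ a, ContDiff ℝ ∞ fun z : ℝ × V => f a z.1 z.2) ∧ (∀ a t, Per (f a t)) ∧
      (∀ a t, t ≤ 0 → f a t = 0) ∧ (∀ a t, 2 ≤ t → f a t = 0) ∧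
      ¬ ∃ u p, Adm c ν f u p ∧ ∀ a, u a 0 = 0 := by
  have hO : IsOpen (Iio (1 : ℝ) ×ˢ (univ : Set V)) := isOpen_Iio.prod isOpen_univ
  have hOm := Om_open κ
  have hsub : Iio (1 : ℝ) ×ˢ (univ : Set V) ⊆ Om κ := fun z hz => Om_of_lt hκ hz.1
  have hAc : ∀ a i, ContDiffOn ℝ ∞ (fun z : ℝ × V => A a z.1 z.2 i) (Om κ) :=
    fun a i => (contDiffOn_pi.1 (hA a)) i
  -- the cut-off solution
  set v : K → Fin 3 → ℝ × V → ℝ := fun a i => Curl (fun i z => zeta z * A a z.1 z.2 i) i with hv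
  set q : K → ℝ × V → ℝ := fun a z => zeta z * p a z.1 z.2 with hq
  have vs : ∀ a i, ContDiffOn ℝ ∞ (v a i) (Om κ) := fun a i =>
    contDiffOn_Curl hOm (fun i => zeta_smooth.contDiffOn.mul (hAc a i)) i
  have qs : ∀ a, ContDiffOn ℝ ∞ (q a) (Om κ) := fun a => zeta_smooth.contDiffOn.mul (hp a)
  -- vanishing
  have hz0 : ∀ z : ℝ × V, (z.1 < 1 / 4 ∨ 1 / 4 < ‖z.2‖) → zeta =ᶠ[𝓝 z] fun _ => 0 := by
    intro z hz
    rcases hz with h | h
    · have : {y : ℝ × V | y.1 < 1 / 4} ∈ 𝓝 z :=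
        (isOpen_lt continuous_fst continuous_const).mem_nhds h
      filter_upwards [this] with y hy
      exact zeta_zero_left (le_of_lt hy)
    · have : {y : ℝ × V | 1 / 4 < ‖y.2‖} ∈ 𝓝 z :=
        (isOpen_lt continuous_const continuous_snd.norm).mem_nhds h
      filter_upwards [this] with y hy
      exact zeta_zero_right (le_of_lt hy)
  have v0 : ∀ z : ℝ × V, (z.1 < 1 / 4 ∨ 1 / 4 < ‖z.2‖) → ∀ a i, v a i =ᶠ[𝓝 z] fun _ => 0 := by
    intro z hz a i
    have h1 : Curl (fun i z => zeta z * A a z.1 z.2 i) i =ᶠ[𝓝 z] Curl (fun _ _ => 0) i := by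
      refine Curl_congr (fun i => ?_) i
      filter_upwards [hz0 z hz] with y hy
      rw [hy, zero_mul]
    rw [Curl_zero] at h1
    exact h1
  have q0 : ∀ z : ℝ × V, (z.1 < 1 / 4 ∨ 1 / 4 < ‖z.2‖) → ∀ a, q a =ᶠ[𝓝 z] fun _ => 0 := by
    intro z hz a
    filter_upwards [hz0 z hz] with y hy
    show zeta y * p a y.1 y.2 = 0
    rw [hy, zero_mul]
  have r0 : ∀ z : ℝ × V, (z.1 < 1 / 4 ∨ 1 / 4 < ‖z.2‖) → ∀ a i, Res c ν v q a i z = 0 := by
    intro z hz a i
    rw [Res_congr (v0 z hz) (q0 z hz), Res_zero]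
  -- the core
  have hz1 : ∀ z : ℝ × V, (1 / 2 < z.1 ∧ ‖z.2‖ < 1 / 8) → zeta =ᶠ[𝓝 z] fun _ => 1 := by
    intro z hz
    have h1 : {y : ℝ × V | 1 / 2 < y.1} ∈ 𝓝 z :=
      (isOpen_lt continuous_const continuous_fst).mem_nhds hz.1
    have h2 : {y : ℝ × V | ‖y.2‖ < 1 / 8} ∈ 𝓝 z :=
      (isOpen_lt continuous_snd.norm continuous_const).mem_nhds hz.2
    filter_upwards [h1, h2] with y hy1 hy2
    exact zeta_one (le_of_lt hy1) (le_of_lt hy2)
  have v1 : ∀ z : ℝ × V, (1 / 2 < z.1 ∧ ‖z.2‖ < 1 / 8) → z.1 < 1 → ∀ a i,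
      v a i =ᶠ[𝓝 z] fun y => curl (A a y.1) y.2 i := by
    intro z hz hz' a i
    have h1 : Curl (fun i z => zeta z * A a z.1 z.2 i) i
        =ᶠ[𝓝 z] Curl (fun i z => A a z.1 z.2 i) i := by
      refine Curl_congr (fun i => ?_) i
      filter_upwards [hz1 z hz] with y hy
      rw [hy, one_mul]
    refine h1.trans ?_
    filter_upwards [hO.mem_nhds (⟨hz', mem_univ _⟩ : z ∈ Iio (1 : ℝ) ×ˢ (univ : Set V))] with y hy
    exact (curl_slice (A := A a) (fun i => (hAc a i).mono hsub) hy.1 y.2 i).symm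
  have q1 : ∀ z : ℝ × V, (1 / 2 < z.1 ∧ ‖z.2‖ < 1 / 8) → ∀ a, q a =ᶠ[𝓝 z] fun y => p a y.1 y.2 := by
    intro z hz a
    filter_upwards [hz1 z hz] with y hy
    show zeta y * p a y.1 y.2 = p a y.1 y.2
    rw [hy, one_mul]
  have cs : ∀ a i, ContDiffOn ℝ ∞ (fun z : ℝ × V => curl (A a z.1) z.2 i) (Iio 1 ×ˢ univ) := by
    intro a i
    refine (contDiffOn_Curl hO (fun i => (hAc a i).mono hsub) i).congr fun z hz => ?_
    exact curl_slice (A := A a) (fun i => (hAc a i).mono hsub) hz.1 z.2 i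
  have r1 : ∀ z : ℝ × V, (1 / 2 < z.1 ∧ ‖z.2‖ < 1 / 8) → z.1 < 1 → ∀ a i,
      Res c ν v q a i z = 0 := by
    intro z hz hz' a i
    rw [Res_congr (v1 z hz hz') (q1 z hz)]
    have := (Res_slice (c := c) (ν := ν) (u := fun a t => curl (A a t)) (q := p) cs
      (fun a => (hp a).mono hsub) hz' z.2 a i 0).1 (by rw [add_zero]; exact hpde a z.1 hz' z.2 i)
    exact this
  -- the force
  obtain ⟨δ, hδ0, hδ1, hδ2⟩ : ∃ δ : ℝ, 0 < δ ∧ δ * 1024 < κ ∧ δ < 1 := by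
    refine ⟨min κ 1 / 4096, by positivity, ?_, ?_⟩
    · have := min_le_left κ 1
      linarith
    · have := min_le_right κ 1
      linarith
  set f0 : K → Fin 3 → ℝ × V → ℝ := fun a i z => psi δ z * Res c ν v q a i z with hf0
  have f0s : ∀ a i, ContDiff ℝ ∞ (f0 a i) := fun a i =>
    contDiff_psi_mul hδ0 hκ hδ1 (contDiffOn_Res hOm vs qs a i)
  have f00 : ∀ a i z, (z.1 < 1 / 4 ∨ 1 / 4 < ‖z.2‖) → f0 a i z = 0 := by
    intro a i z hz
    show psi δ z * Res c ν v q a i z = 0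
    rw [r0 z hz, mul_zero]
  have f02 : ∀ a i z, 2 ≤ z.1 → f0 a i z = 0 := by
    intro a i z hz
    show psi δ z * Res c ν v q a i z = 0
    rw [psi_zero hδ0, zero_mul]
    rintro ⟨h1, -⟩
    linarith
  have f01 : ∀ a i z, z.1 < 1 → f0 a i z = Res c ν v q a i z := by
    intro a i z hz
    show psi δ z * Res c ν v q a i z = Res c ν v q a i z
    by_cases h : z.1 ≤ 5 / 8 ∨ 1 / 16 ≤ ‖z.2‖
    · rw [psi_one hδ0 hz.le h, one_mul]
    · push Not at h
      rw [r1 z ⟨by linarith, by linarith⟩ hz, mul_zero]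
  -- periodization
  set f : K → ℝ → V → V := fun a t x i => f0 a i (t, rd x) with hf
  set U : K → ℝ → V → V := fun a t x i => v a i (t, rd x) with hU
  set Q : K → ℝ → V → ℝ := fun a t x => q a (t, rd x) with hQ
  have vv : ∀ a i z, 1 / 4 < ‖z.2‖ → v a i z = 0 := fun a i z hz => (v0 z (Or.inr hz) a i).eq_of_nhds
  have qq : ∀ a z, 1 / 4 < ‖z.2‖ → q a z = 0 := fun a z hz => (q0 z (Or.inr hz) a).eq_of_nhds
  have Us : ∀ a i, ContDiffOn ℝ ∞ (fun z : ℝ × V => U a z.1 z.2 i) (Iio 1 ×ˢ univ) := by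
    intro a i
    refine contDiffOn_per (g := v a i) (vv a i) fun t ht x => ?_
    exact (vs a i).contDiffAt (hOm.mem_nhds (hsub ⟨ht, mem_univ _⟩))
  have Qs : ∀ a, ContDiffOn ℝ ∞ (fun z : ℝ × V => Q a z.1 z.2) (Iio 1 ×ˢ univ) := by
    intro a
    refine contDiffOn_per (g := q a) (qq a) fun t ht x => ?_
    exact (qs a).contDiffAt (hOm.mem_nhds (hsub ⟨ht, mem_univ _⟩))
  have hI : Ico (0 : ℝ) 1 ×ˢ (univ : Set V) ⊆ Iio 1 ×ˢ univ := prod_mono (fun t ht => ht.2) subset_rfl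
  have resU : ∀ a i t, t < 1 → ∀ x,
      Res c ν (fun a i z => U a z.1 z.2 i) (fun a z => Q a z.1 z.2) a i (t, x)
        = Res c ν v q a i (t, rd x) := by
    intro a i t _ x
    rw [Res_congr (v' := fun a i z => v a i (z + (0, rd x - x)))
      (q' := fun a z => q a (z + (0, rd x - x)))
      (fun a i => per_ev (vv a i) t x) (fun a => per_ev (qq a) t x), Res_shift]
    congr 1
    ext1 <;> simp
  have hsol : SolI c ν 1 f U Q := by
    refine ⟨fun a => ?_, fun a => (Qs a).mono hI, fun a t _ i x => ?_, fun a t _ i x => ?_, ?_, ?_⟩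
    · exact contDiffOn_pi.2 fun i => (Us a i).mono hI
    · funext j
      show v a j (t, rd (x + Pi.single i 1)) = v a j (t, rd x)
      rw [rd_add]
    · show q a (t, rd (x + Pi.single i 1)) = q a (t, rd x)
      rw [rd_add]
    · intro a t ht x
      have e : ∀ i, pd i (fun y => U a t y i) x = PD i (v a i) (t, rd x) := by
        intro i
        have h1 : pd i (fun y => U a t y i) x = PD i (fun z : ℝ × V => U a z.1 z.2 i) (t, x) :=
          pd_slice' (F := fun z => U a z.1 z.2 i) (diffAt hO (Us a i) ⟨ht.2, mem_univ _⟩) i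
        have h2 : ((t, x) : ℝ × V) + (0, rd x - x) = (t, rd x) := by
          ext1 <;> simp
        rw [h1, PD_congr (per_ev (vv a i) t x), PD_shift]
        simp only [h2]
      simp_rw [e]
      exact div_Curl hOm (fun i => zeta_smooth.contDiffOn.mul (hAc a i)) (hsub ⟨ht.2, mem_univ _⟩)
    · intro a t ht x i
      refine (Res_slice (c := c) (ν := ν) Us Qs ht.2 x a i _).2 ?_
      rw [resU a i t ht.2 x]
      exact (f01 a i (t, rd x) ht.2).symm
  refine ⟨f, fun a => ?_, fun a t i x => ?_, fun a t ht => ?_, fun a t ht => ?_, ?_⟩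
  · rw [contDiff_pi]
    intro i
    rw [← contDiffOn_univ, ← univ_prod_univ]
    exact contDiffOn_per (g := f0 a i) (fun z hz => f00 a i z (Or.inr hz))
      fun t _ x => (f0s a i).contDiffAt
  · funext j
    show f0 a j (t, rd (x + Pi.single i 1)) = f0 a j (t, rd x)
    rw [rd_add]
  · funext x i
    exact f00 a i _ (Or.inl (by show t < 1 / 4; linarith))
  · funext x i
    exact f02 a i _ ht
  · rintro ⟨u, P, hadm, hu0⟩
    have huniq := SolI.unique hc hν (hadm.solI 1) hsol (fun a => by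
      rw [hu0 a]
      funext x i
      show 0 = v a i (0, rd x)
      rw [(v0 (0, rd x) (Or.inl (by norm_num)) a i).eq_of_nhds])
    -- bound
    have hK : IsCompact (Icc (0 : ℝ) 1 ×ˢ Metric.closedBall (0 : V) (1 / 8)) :=
      isCompact_Icc.prod (isCompact_closedBall _ _)
    have hb : ∀ a, ∃ M, ∀ z ∈ Icc (0 : ℝ) 1 ×ˢ Metric.closedBall (0 : V) (1 / 8),
        ‖u a z.1 z.2‖ ≤ M := fun a =>
      hK.exists_bound_of_continuousOn (((hadm.smooth_u a).continuousOn).mono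
        (prod_mono Icc_subset_Ici_self (subset_univ _)))
    choose M hM using hb
    obtain ⟨a, t, ht, x, hx, i, hi⟩ := hblow (∑ a, |M a|)
    have h1 : U a t x i = curl (A a t) x i := by
      show v a i (t, rd x) = _
      rw [rd_eq_self (by linarith)]
      exact (v1 (t, x) ⟨ht.1, hx⟩ ht.2 a i).eq_of_nhds
    have h2 : u a t x = U a t x := congrFun (huniq a (t := t) ⟨by linarith [ht.1], ht.2⟩) x
    have h3 : |u a t x i| ≤ M a :=
      (norm_le_pi_norm (u a t x) i).trans (hM a (t, x) ⟨⟨by linarith [ht.1], ht.2.le⟩, by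
        simpa using hx.le⟩)
    have h4 : M a ≤ ∑ a, |M a| := (le_abs_self _).trans
      (Finset.single_le_sum (f := fun a => |M a|) (fun _ _ => abs_nonneg _) (Finset.mem_univ a))
    rw [h2, h1] at h3
    linarith

end Pool.Agent.N983.NC
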