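import Pool.Agent.N983.NC.Uniq3

/-!
Cut-off and periodization: calculus for functions of time and space.
-/

open MeasureTheory Set Filter Topology
open scoped ContDiff

namespace Pool.Agent.N983.NC

open H459R3.NS

/-- Spatial derivative of a function of time and space. -/
noncomputable def PD (j : Fin 3) (F : ℝ × V → ℝ) (z : ℝ × V) : ℝ := fderiv ℝ F z (0, Pi.single j 1)

/-- Time derivative of a function of time and space. -/
noncomputable def PT (F : ℝ × V → ℝ) (z : ℝ × V) : ℝ := fderiv ℝ F z (1, 0)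

/-- The curl of a vector field depending on time. -/
noncomputable def Curl (B : Fin 3 → ℝ × V → ℝ) (i : Fin 3) : ℝ × V → ℝ :=
  match i with
  | 0 => fun z => PD 1 (B 2) z - PD 2 (B 1) z
  | 1 => fun z => PD 2 (B 0) z - PD 0 (B 2) z
  | 2 => fun z => PD 0 (B 1) z - PD 1 (B 0) z

/-- The residual of the system of equations. -/
noncomputable def Res {K : Type*} [Fintype K] (c : K → K → K → ℝ) (ν : ℝ)
    (v : K → Fin 3 → ℝ × V → ℝ) (q : K → ℝ × V → ℝ) (a : K) (i : Fin 3) (z : ℝ × V) : ℝ :=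
  PT (v a i) z + ∑ b, ∑ d, c a b d * ∑ j, v b j z * PD j (v d i) z
    - ν * ∑ j, PD j (PD j (v a i)) z + PD i (q a) z

/-! ### Slices -/

theorem pd_slice' {F : ℝ × V → ℝ} {t : ℝ} {x : V} (h : DifferentiableAt ℝ F (t, x)) (j : Fin 3) :
    pd j (fun y => F (t, y)) x = PD j F (t, x) := by
  have h1 : HasFDerivAt (fun y : V => F (t, y))
      ((fderiv ℝ F (t, x)).comp (ContinuousLinearMap.inr ℝ ℝ V)) x :=
    HasFDerivAt.comp x h.hasFDerivAt (hasFDerivAt_prodMk_right t x)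
  unfold pd PD
  rw [h1.fderiv]
  simp

theorem deriv_slice' {F : ℝ × V → ℝ} {t : ℝ} {x : V} (h : DifferentiableAt ℝ F (t, x)) :
    deriv (fun s => F (s, x)) t = PT F (t, x) := by
  have h2 : HasDerivAt (fun s : ℝ => ((s, x) : ℝ × V)) (1, 0) t :=
    (hasDerivAt_id t).prodMk (hasDerivAt_const t x)
  exact (h.hasFDerivAt.comp_hasDerivAt t h2).deriv

theorem PD_congr {F G : ℝ × V → ℝ} {z : ℝ × V} (h : F =ᶠ[𝓝 z] G) (j : Fin 3) :
    PD j F z = PD j G z := by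
  unfold PD
  rw [h.fderiv_eq]

theorem PD_congr' {F G : ℝ × V → ℝ} {z : ℝ × V} (h : F =ᶠ[𝓝 z] G) (j : Fin 3) :
    PD j F =ᶠ[𝓝 z] PD j G := by
  filter_upwards [h.eventuallyEq_nhds] with y hy
  exact PD_congr hy j

theorem PT_congr {F G : ℝ × V → ℝ} {z : ℝ × V} (h : F =ᶠ[𝓝 z] G) : PT F z = PT G z := by
  unfold PT
  rw [h.fderiv_eq]

theorem Curl_congr {B B' : Fin 3 → ℝ × V → ℝ} {z : ℝ × V} (h : ∀ i, B i =ᶠ[𝓝 z] B' i)
    (i : Fin 3) : Curl B i =ᶠ[𝓝 z] Curl B' i := by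
  fin_cases i <;> simp only [Curl]
  · exact (PD_congr' (h 2) 1).sub (PD_congr' (h 1) 2)
  · exact (PD_congr' (h 0) 2).sub (PD_congr' (h 2) 0)
  · exact (PD_congr' (h 1) 0).sub (PD_congr' (h 0) 1)

theorem PD_zero (j : Fin 3) (z : ℝ × V) : PD j (fun _ => 0) z = 0 := by
  simp [PD]

theorem PD_fun_zero (j : Fin 3) : PD j (fun _ => 0) = fun _ => 0 := by
  funext z; exact PD_zero j z

theorem PT_zero (z : ℝ × V) : PT (fun _ => 0) z = 0 := by
  simp [PT]

theorem Curl_zero (i : Fin 3) : Curl (fun _ _ => 0) i = fun _ => 0 := by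
  fin_cases i <;> simp only [Curl, PD_zero, sub_zero]

section res

variable {K : Type*} [Fintype K] {c : K → K → K → ℝ} {ν : ℝ}

theorem Res_congr {v v' : K → Fin 3 → ℝ × V → ℝ} {q q' : K → ℝ × V → ℝ} {z : ℝ × V}
    (hv : ∀ a i, v a i =ᶠ[𝓝 z] v' a i) (hq : ∀ a, q a =ᶠ[𝓝 z] q' a) (a : K) (i : Fin 3) :
    Res c ν v q a i z = Res c ν v' q' a i z := by
  unfold Res
  rw [PT_congr (hv a i), PD_congr (hq a) i]
  simp_rw [fun b j => (hv b j).eq_of_nhds, fun d j => PD_congr (hv d i) j,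
    fun j => PD_congr (PD_congr' (hv a i) j) j]

theorem Res_zero (a : K) (i : Fin 3) (z : ℝ × V) :
    Res c ν (fun _ _ _ => 0) (fun _ _ => 0) a i z = 0 := by
  simp [Res, PT_zero, PD_fun_zero, PD_zero]

/-! ### Translations -/

theorem PD_shift (F : ℝ × V → ℝ) (w : ℝ × V) (j : Fin 3) :
    PD j (fun z => F (z + w)) = fun z => PD j F (z + w) := by
  funext z
  unfold PD
  rw [fderiv_comp_add_right]

theorem PT_shift (F : ℝ × V → ℝ) (w : ℝ × V) :
    PT (fun z => F (z + w)) = fun z => PT F (z + w) := by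
  funext z
  unfold PT
  rw [fderiv_comp_add_right]

theorem Res_shift (v : K → Fin 3 → ℝ × V → ℝ) (q : K → ℝ × V → ℝ) (w z : ℝ × V) (a : K)
    (i : Fin 3) :
    Res c ν (fun a i z => v a i (z + w)) (fun a z => q a (z + w)) a i z = Res c ν v q a i (z + w) := by
  unfold Res
  simp only [PD_shift, PT_shift]

end res

/-! ### Smoothness -/

section smooth

variable {O : Set (ℝ × V)} {F : ℝ × V → ℝ}

theorem contDiffOn_PD (hO : IsOpen O) (hF : ContDiffOn ℝ ∞ F O) (j : Fin 3) :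
    ContDiffOn ℝ ∞ (PD j F) O :=
  (hF.fderiv_of_isOpen hO (by norm_cast)).clm_apply contDiffOn_const

theorem contDiffOn_PT (hO : IsOpen O) (hF : ContDiffOn ℝ ∞ F O) :
    ContDiffOn ℝ ∞ (PT F) O :=
  (hF.fderiv_of_isOpen hO (by norm_cast)).clm_apply contDiffOn_const

theorem contDiffOn_Curl (hO : IsOpen O) {B : Fin 3 → ℝ × V → ℝ}
    (hB : ∀ i, ContDiffOn ℝ ∞ (B i) O) (i : Fin 3) : ContDiffOn ℝ ∞ (Curl B i) O := by
  fin_cases i <;> simp only [Curl]
  · exact (contDiffOn_PD hO (hB 2) 1).sub (contDiffOn_PD hO (hB 1) 2)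
  · exact (contDiffOn_PD hO (hB 0) 2).sub (contDiffOn_PD hO (hB 2) 0)
  · exact (contDiffOn_PD hO (hB 1) 0).sub (contDiffOn_PD hO (hB 0) 1)

theorem contDiffOn_Res {K : Type*} [Fintype K] {c : K → K → K → ℝ} {ν : ℝ} (hO : IsOpen O)
    {v : K → Fin 3 → ℝ × V → ℝ} {q : K → ℝ × V → ℝ} (hv : ∀ a i, ContDiffOn ℝ ∞ (v a i) O)
    (hq : ∀ a, ContDiffOn ℝ ∞ (q a) O) (a : K) (i : Fin 3) :
    ContDiffOn ℝ ∞ (Res c ν v q a i) O := by
  have h1 : ContDiffOn ℝ ∞ (fun z => ∑ b, ∑ d, c a b d * ∑ j, v b j z * PD j (v d i) z) O :=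
    ContDiffOn.sum fun b _ => ContDiffOn.sum fun d _ => contDiffOn_const.mul
      (ContDiffOn.sum fun j _ => (hv b j).mul (contDiffOn_PD hO (hv d i) j))
  have h2 : ContDiffOn ℝ ∞ (fun z => ν * ∑ j, PD j (PD j (v a i)) z) O :=
    contDiffOn_const.mul (ContDiffOn.sum fun j _ => contDiffOn_PD hO (contDiffOn_PD hO (hv a i) j) j)
  exact (((contDiffOn_PT hO (hv a i)).add h1).sub h2).add (contDiffOn_PD hO (hq a) i)

theorem PD_comm (hO : IsOpen O) (hF : ContDiffOn ℝ ∞ F O) {z : ℝ × V} (hz : z ∈ O) (i j : Fin 3) :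
    PD i (PD j F) z = PD j (PD i F) z := by
  have h2 : ContDiffAt ℝ 2 F z := ((hF.of_le (by norm_cast)).contDiffAt (hO.mem_nhds hz))
  have hs : IsSymmSndFDerivAt ℝ F z := h2.isSymmSndFDerivAt (by simp)
  have hd : DifferentiableAt ℝ (fderiv ℝ F) z :=
    (h2.fderiv_right (m := 1) (by norm_num)).differentiableAt one_ne_zero
  have key : ∀ i j : Fin 3, PD i (PD j F) z
      = fderiv ℝ (fderiv ℝ F) z (0, Pi.single i 1) (0, Pi.single j 1) := by
    intro i j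
    have a1 : HasFDerivAt (fun z => fderiv ℝ F z (0, Pi.single j 1)) _ z :=
      hd.hasFDerivAt.clm_apply (hasFDerivAt_const ((0, Pi.single j (1 : ℝ)) : ℝ × V) z)
    unfold PD
    rw [a1.fderiv]
    simp
  rw [key, key]
  exact hs _ _

theorem PD_sub {F G : ℝ × V → ℝ} {z : ℝ × V} (hF : DifferentiableAt ℝ F z)
    (hG : DifferentiableAt ℝ G z) (j : Fin 3) :
    PD j (fun z => F z - G z) z = PD j F z - PD j G z := by
  unfold PD
  rw [fderiv_fun_sub hF hG]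
  simp

theorem diffAt (hO : IsOpen O) (hF : ContDiffOn ℝ ∞ F O) {z : ℝ × V} (hz : z ∈ O) :
    DifferentiableAt ℝ F z :=
  (hF.contDiffAt (hO.mem_nhds hz)).differentiableAt (by norm_num)

/-- The divergence of a curl. -/
theorem div_Curl (hO : IsOpen O) {B : Fin 3 → ℝ × V → ℝ} (hB : ∀ i, ContDiffOn ℝ ∞ (B i) O)
    {z : ℝ × V} (hz : z ∈ O) : ∑ i, PD i (Curl B i) z = 0 := by
  have d : ∀ i j, DifferentiableAt ℝ (PD i (B j)) z := fun i j =>
    diffAt hO (contDiffOn_PD hO (hB j) i) hz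
  rw [Fin.sum_univ_three]
  simp only [Curl]
  rw [PD_sub (d 1 2) (d 2 1), PD_sub (d 2 0) (d 0 2), PD_sub (d 0 1) (d 1 0),
    PD_comm hO (hB 2) hz 0 1, PD_comm hO (hB 1) hz 0 2, PD_comm hO (hB 0) hz 1 2]
  ring

end smooth

end Pool.Agent.N983.NC
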