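import Pool.Agent.N983.NC.Cut1

/-!
Cut-off and periodization: cut-off functions and the map onto the period cell.
-/

open MeasureTheory Set Filter Topology
open scoped ContDiff

namespace Pool.Agent.N983.NC

open H459R3.NS

/-! ### The representative modulo the lattice -/

/-- The representative of `x` modulo the lattice near `0`. -/
noncomputable def rd (x : V) : V := fun i => x i - round (x i)

theorem rd_add (x : V) (i : Fin 3) : rd (x + Pi.single i 1) = rd x := by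
  funext j
  unfold rd
  by_cases h : j = i
  · subst h
    simp
  · simp [Pi.single_apply, h]

theorem rd_eq_self {x : V} (h : ‖x‖ < 1 / 2) : rd x = x := by
  funext j
  have h1 : |x j| < 1 / 2 := (norm_le_pi_norm x j).trans_lt h
  rw [abs_lt] at h1
  have h2 : round (x j) = 0 := round_eq_zero_iff.2 ⟨by linarith [h1.1], h1.2⟩
  simp [rd, h2]

theorem round_of_abs {y : ℝ} {k : ℤ} (h : |y - k| < 1 / 2) : round y = k := by
  rw [abs_lt] at h
  have h2 : round (y - k) = 0 := round_eq_zero_iff.2 ⟨by linarith [h.1], h.2⟩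
  rw [round_sub_intCast] at h2
  linarith

theorem rd_ev (x₀ : V) : ∀ᶠ y in 𝓝 x₀, rd y = y + (rd x₀ - x₀) ∨
    (1 / 4 < ‖rd y‖ ∧ 1 / 4 < ‖y + (rd x₀ - x₀)‖) := by
  by_cases h : ∀ i, |x₀ i - (round (x₀ i) : ℝ)| < 1 / 2
  · have h1 : ∀ᶠ y : V in 𝓝 x₀, ∀ i, |y i - (round (x₀ i) : ℝ)| < 1 / 2 := by
      rw [eventually_all]
      intro i
      have hc : Continuous fun y : V => |y i - (round (x₀ i) : ℝ)| := by fun_prop
      exact hc.continuousAt.eventually (gt_mem_nhds (h i))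
    filter_upwards [h1] with y hy
    left
    funext i
    have := round_of_abs (hy i)
    simp only [rd, Pi.add_apply, Pi.sub_apply, this]
    ring
  · push Not at h
    obtain ⟨i, hi⟩ := h
    have h1 : ∀ᶠ y : V in 𝓝 x₀, |y i - x₀ i| < 1 / 8 := by
      have hc : Continuous fun y : V => |y i - x₀ i| := by fun_prop
      refine hc.continuousAt.eventually (gt_mem_nhds ?_)
      simp
    filter_upwards [h1] with y hy
    right
    constructor
    · refine lt_of_lt_of_le ?_ (norm_le_pi_norm (rd y) i)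
      have h2 : |x₀ i - round (x₀ i)| ≤ |x₀ i - round (y i)| := round_le _ _
      have h3 : |x₀ i - round (y i)| ≤ |x₀ i - y i| + |y i - round (y i)| := abs_sub_le _ _ _
      rw [abs_sub_comm (x₀ i) (y i)] at h3
      simp only [rd, Real.norm_eq_abs]
      linarith
    · refine lt_of_lt_of_le ?_ (norm_le_pi_norm (y + (rd x₀ - x₀)) i)
      have h3 : |x₀ i - round (x₀ i)| ≤ |x₀ i - y i| + |y i - round (x₀ i)| := abs_sub_le _ _ _
      rw [abs_sub_comm (x₀ i) (y i)] at h3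
      have h4 : (y + (rd x₀ - x₀)) i = y i - round (x₀ i) := by
        simp only [rd, Pi.add_apply, Pi.sub_apply]
        ring
      rw [Real.norm_eq_abs, h4]
      linarith

theorem per_ev {g : ℝ × V → ℝ} (hg : ∀ z, 1 / 4 < ‖z.2‖ → g z = 0) (t₀ : ℝ) (x₀ : V) :
    (fun z : ℝ × V => g (z.1, rd z.2)) =ᶠ[𝓝 (t₀, x₀)] fun z => g (z + (0, rd x₀ - x₀)) := by
  have h1 : ∀ᶠ z : ℝ × V in 𝓝 (t₀, x₀), rd z.2 = z.2 + (rd x₀ - x₀) ∨
      (1 / 4 < ‖rd z.2‖ ∧ 1 / 4 < ‖z.2 + (rd x₀ - x₀)‖) :=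
    (continuous_snd.continuousAt (x := (t₀, x₀))).eventually (rd_ev x₀)
  filter_upwards [h1] with z hz
  rcases hz with hz | ⟨hz1, hz2⟩
  · have e : z + ((0 : ℝ), rd x₀ - x₀) = (z.1, rd z.2) := by
      ext1
      · simp
      · simp [hz]
    rw [e]
  · rw [hg _ hz1, hg]
    simpa using hz2

/-- periodization of a smooth function -/
theorem contDiffOn_per {g : ℝ × V → ℝ} (hg : ∀ z, 1 / 4 < ‖z.2‖ → g z = 0) {I : Set ℝ}
    (h : ∀ t ∈ I, ∀ x, ContDiffAt ℝ ∞ g (t, x)) :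
    ContDiffOn ℝ ∞ (fun z : ℝ × V => g (z.1, rd z.2)) (I ×ˢ univ) := by
  rintro ⟨t, x⟩ hz
  refine ContDiffAt.contDiffWithinAt ?_
  refine ContDiffAt.congr_of_eventuallyEq ?_ (per_ev hg t x)
  have e : ((t, x) : ℝ × V) + (0, rd x - x) = (t, rd x) := by
    ext1 <;> simp
  have h1 : ContDiffAt ℝ ∞ g (((t, x) : ℝ × V) + (0, rd x - x)) := by
    rw [e]
    exact h t hz.1 _
  exact h1.comp (t, x) (contDiffAt_id.add contDiffAt_const)

/-! ### Cut-off functions -/

/-- Cut-off function for the solution. -/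
noncomputable def bump1 : ContDiffBump (0 : V) := ⟨1 / 8, 1 / 4, by norm_num, by norm_num⟩

/-- Cut-off function for the force. -/
noncomputable def bump2 : ContDiffBump (0 : V) := ⟨1 / 32, 1 / 16, by norm_num, by norm_num⟩

/-- Cut-off function for the solution. -/
noncomputable def zeta (z : ℝ × V) : ℝ := Real.smoothTransition (4 * z.1 - 1) * bump1 z.2

/-- Cut-off function for the force. -/
noncomputable def psi (δ : ℝ) (z : ℝ × V) : ℝ :=
  (1 - Real.smoothTransition ((z.1 - 1) / δ)) *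
    (1 - Real.smoothTransition (8 * z.1 - 5) * bump2 z.2)

theorem zeta_smooth : ContDiff ℝ ∞ zeta := by
  unfold zeta
  refine ContDiff.mul ?_ (bump1.contDiff.comp contDiff_snd)
  exact Real.smoothTransition.contDiff.comp ((contDiff_const.mul contDiff_fst).sub contDiff_const)

theorem zeta_one {z : ℝ × V} (h1 : 1 / 2 ≤ z.1) (h2 : ‖z.2‖ ≤ 1 / 8) : zeta z = 1 := by
  unfold zeta
  rw [Real.smoothTransition.one_of_one_le (by linarith), one_mul]
  exact bump1.one_of_mem_closedBall (by simpa [bump1] using h2)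

theorem zeta_zero_left {z : ℝ × V} (h1 : z.1 ≤ 1 / 4) : zeta z = 0 := by
  unfold zeta
  rw [Real.smoothTransition.zero_of_nonpos (by linarith), zero_mul]

theorem zeta_zero_right {z : ℝ × V} (h1 : 1 / 4 ≤ ‖z.2‖) : zeta z = 0 := by
  unfold zeta
  rw [bump1.zero_of_le_dist (by simpa [bump1] using h1), mul_zero]

theorem psi_smooth (δ : ℝ) : ContDiff ℝ ∞ (psi δ) := by
  unfold psi
  refine ContDiff.mul (contDiff_const.sub ?_) (contDiff_const.sub (ContDiff.mul ?_
    (bump2.contDiff.comp contDiff_snd)))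
  · exact Real.smoothTransition.contDiff.comp ((contDiff_fst.sub contDiff_const).div_const δ)
  · exact Real.smoothTransition.contDiff.comp ((contDiff_const.mul contDiff_fst).sub contDiff_const)

theorem psi_one {δ : ℝ} (hδ : 0 < δ) {z : ℝ × V} (h1 : z.1 ≤ 1) (h2 : z.1 ≤ 5 / 8 ∨ 1 / 16 ≤ ‖z.2‖) :
    psi δ z = 1 := by
  unfold psi
  rw [Real.smoothTransition.zero_of_nonpos (x := (z.1 - 1) / δ)
    (div_nonpos_of_nonpos_of_nonneg (by linarith) hδ.le)]
  rcases h2 with h | h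
  · rw [Real.smoothTransition.zero_of_nonpos (by linarith)]
    norm_num
  · rw [bump2.zero_of_le_dist (by simpa [bump2] using h)]
    norm_num

/-- The support of the cut-off function for the force. -/
def Sup (δ : ℝ) : Set (ℝ × V) := {z | z.1 ≤ 1 + δ ∧ (z.1 ≤ 3 / 4 ∨ 1 / 32 ≤ ‖z.2‖)}

theorem psi_zero {δ : ℝ} (hδ : 0 < δ) {z : ℝ × V} (h : z ∉ Sup δ) : psi δ z = 0 := by
  unfold psi
  by_cases h1 : z.1 ≤ 1 + δ
  · have h2 : ¬ (z.1 ≤ 3 / 4 ∨ 1 / 32 ≤ ‖z.2‖) := fun h2 => h ⟨h1, h2⟩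
    push Not at h2
    rw [Real.smoothTransition.one_of_one_le (x := 8 * z.1 - 5) (by linarith),
      bump2.one_of_mem_closedBall (by simpa [bump2] using h2.2.le)]
    norm_num
  · have h3 : 1 ≤ (z.1 - 1) / δ := by
      rw [le_div_iff₀ hδ]
      linarith
    rw [Real.smoothTransition.one_of_one_le h3]
    norm_num

theorem Sup_closed (δ : ℝ) : IsClosed (Sup δ) := by
  have h1 : IsClosed {z : ℝ × V | z.1 ≤ 1 + δ} := isClosed_le continuous_fst continuous_const
  have h2 : IsClosed {z : ℝ × V | z.1 ≤ 3 / 4} := isClosed_le continuous_fst continuous_const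
  have h3 : IsClosed {z : ℝ × V | 1 / 32 ≤ ‖z.2‖} :=
    isClosed_le continuous_const continuous_snd.norm
  exact h1.inter (h2.union h3)

theorem norm_sq_le (x : V) : ‖x‖ ^ 2 ≤ ∑ i, x i ^ 2 := by
  obtain ⟨i, hi⟩ : ∃ i, ‖x‖ = ‖x i‖ := by
    obtain ⟨i, -, hi⟩ := Finset.exists_max_image Finset.univ (fun i => ‖x i‖) Finset.univ_nonempty
    refine ⟨i, le_antisymm ?_ (norm_le_pi_norm x i)⟩
    exact (pi_norm_le_iff_of_nonneg (norm_nonneg _)).2 fun j => hi j (Finset.mem_univ j)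
  rw [hi, Real.norm_eq_abs, sq_abs]
  exact Finset.single_le_sum (f := fun i => x i ^ 2) (fun j _ => sq_nonneg _) (Finset.mem_univ i)

theorem Sup_sub {δ κ : ℝ} (hκ : 0 < κ) (hδ : δ * 1024 < κ) : Sup δ ⊆ Om κ := by
  rintro z ⟨h1, h2⟩
  have h0 : 0 ≤ κ * ∑ i, z.2 i ^ 2 := mul_nonneg hκ.le (Finset.sum_nonneg fun i _ => sq_nonneg _)
  show 0 < 1 - z.1 + κ * ∑ i, z.2 i ^ 2
  rcases h2 with h | h
  · linarith
  · have h3 : (1 / 32 : ℝ) ^ 2 ≤ ‖z.2‖ ^ 2 := pow_le_pow_left₀ (by norm_num) h 2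
    have h4 : κ * (1 / 32 : ℝ) ^ 2 ≤ κ * ∑ i, z.2 i ^ 2 :=
      mul_le_mul_of_nonneg_left (h3.trans (norm_sq_le _)) hκ.le
    norm_num at h4
    linarith

theorem Om_open (κ : ℝ) : IsOpen (Om κ) :=
  isOpen_lt continuous_const (by fun_prop)

theorem Om_of_lt {κ : ℝ} (hκ : 0 < κ) {z : ℝ × V} (h : z.1 < 1) : z ∈ Om κ := by
  have h0 : 0 ≤ κ * ∑ i, z.2 i ^ 2 := mul_nonneg hκ.le (Finset.sum_nonneg fun i _ => sq_nonneg _)
  show 0 < 1 - z.1 + κ * ∑ i, z.2 i ^ 2
  linarith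

/-- The product with the cut-off function is smooth everywhere. -/
theorem contDiff_psi_mul {δ κ : ℝ} (hδ0 : 0 < δ) (hκ : 0 < κ) (hδ : δ * 1024 < κ)
    {R : ℝ × V → ℝ} (hR : ContDiffOn ℝ ∞ R (Om κ)) : ContDiff ℝ ∞ fun z => psi δ z * R z := by
  rw [contDiff_iff_contDiffAt]
  intro z
  by_cases h : z ∈ Om κ
  · exact (psi_smooth δ).contDiffAt.mul (hR.contDiffAt ((Om_open κ).mem_nhds h))
  · have h1 : z ∈ (Sup δ)ᶜ := fun h2 => h (Sup_sub hκ hδ h2)
    have h2 : (fun z => psi δ z * R z) =ᶠ[𝓝 z] fun _ => 0 := by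
      filter_upwards [(Sup_closed δ).isOpen_compl.mem_nhds h1] with y hy
      rw [psi_zero hδ0 hy, zero_mul]
    exact contDiffAt_const.congr_of_eventuallyEq h2

end Pool.Agent.N983.NC
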