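import Pool.Agent.N983.NC.Contr

/-!
The explicit data and the numerical identities.
-/

open MeasureTheory Set Filter Topology
open scoped ContDiff

namespace Pool.Agent.N983.NC

open H459R3.NS

/-- Gram matrix of the first kind -/
def GT : Fin 4 → Fin 4 → ℤ :=
  ![![900, -4340, -21720, 1460],
    ![-4340, 73790, 215060, 1123820],
    ![-21720, 215060, 1118600, -1253200],
    ![1460, 1123820, -1253200, 59372000]]

/-- Gram matrix of the second kind -/
def GP : Fin 4 → Fin 4 → ℤ :=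
  ![![7755, -59910, -94680, 245020],
    ![-59910, 698760, 587580, -2141000],
    ![-94680, 587580, 2223280, -4314080],
    ![245020, -2141000, -4314080, 10222080]]

/-- couplings (first kind, first kind, second kind) -/
def dd : Fin 4 → Fin 4 → Fin 4 → ℤ :=
  ![![![15855, 192339, -471123, -311232],
      ![-235041, 1161687, -1995360, 11077054],
      ![-713598, 5715529, 16378924, 18609656],
      ![-3366861, -32112138, -78935064, 159171072]],
    ![![-235041, 1161687, -1995360, 11077054],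
      ![-1229490, 7709668, -22596924, 13557436],
      ![-3071131, 5180198, -53834520, 31339488],
      ![4718844, 71233956, -202352544, -39891328]],
    ![![-713598, 5715529, 16378924, 18609656],
      ![-3071131, 5180198, -53834520, 31339488],
      ![-23011392, -98876704, -77358464, 173069120],
      ![133551888, 200181728, -1308948544, -584021504]],
    ![![-3366861, -32112138, -78935064, 159171072],
      ![4718844, 71233956, -202352544, -39891328],
      ![133551888, 200181728, -1308948544, -584021504],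
      ![-220994976, 2400882432, 4260191232, 0]]]

/-- couplings (second kind, second kind, second kind) -/
def bb : Fin 4 → Fin 4 → Fin 4 → ℤ :=
  ![![![465573, -762558, -8439324, 5956308],
      ![-762558, 2666460, -14702268, 65094192],
      ![-8439324, -14702268, -169089888, -142689888],
      ![5956308, 65094192, -142689888, -506094336]],
    ![![-762558, 2666460, -14702268, 65094192],
      ![2666460, 61848084, 72483984, 522230400],
      ![-14702268, 72483984, -254139648, 751943808],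
      ![65094192, 522230400, 751943808, 0]],
    ![![-8439324, -14702268, -169089888, -142689888],
      ![-14702268, 72483984, -254139648, 751943808],
      ![-169089888, -254139648, -3029887488, 0],
      ![-142689888, 751943808, 0, 0]],
    ![![5956308, 65094192, -142689888, -506094336],
      ![65094192, 522230400, 751943808, 0],
      ![-142689888, 751943808, 0, 0],
      ![-506094336, 0, 0, 0]]]

theorem GT_symm : ∀ a b : Fin 4, GT a b = GT b a := by decide

theorem GP_symm : ∀ a b : Fin 4, GP a b = GP b a := by decide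

theorem dd_symm : ∀ a b c : Fin 4, dd a b c = dd b a c := by decide

theorem bb_symm : ∀ a b c : Fin 4, bb a b c = bb b a c ∧ bb a b c = bb a c b := by decide

/-- the radial profiles of the fields of the first kind -/
noncomputable def fR : Fin 4 → Rad :=
  ![[(1, 0, 1), (-128 / 3, 4, 5)], [(1, 1, 2), (64, 4, 5)], [(1, 2, 3), (-16, 4, 5)],
    [(1, 3, 4), (-8 / 3, 4, 5)]]

/-- the radial profiles of the potentials of the second kind -/
noncomputable def kR : Fin 4 → Rad :=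
  ![[(1 / 3, 0, 1)], [(1 / 3, 1, 2)], [(1 / 3, 2, 3)], [(1 / 3, 3, 4)]]

/-- the radial profiles of the fields of the second kind -/
noncomputable def QR : Fin 4 → Rad :=
  ![[(1 / 3, 0, 1), (2 / 3, 1, 2)], [(-1 / 3, 1, 2), (4 / 3, 2, 3)], [(-1, 2, 3), (2, 3, 4)],
    [(-5 / 3, 3, 4), (8 / 3, 4, 5)]]

/-- the radial profiles of the fields of the second kind -/
noncomputable def PR (κ : ℝ) : Fin 4 → Rad :=
  ![[(2 * κ / 3, 0, 2)], [(4 * κ / 3, 1, 3)], [(2 * κ, 2, 4)], [(8 * κ / 3, 3, 5)]]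

/-- the radial profiles of the pressures -/
noncomputable def piR : Fin 4 → Rad :=
  ![[(-35069 / 12, 0, 2), (728663 / 3, 1, 3), (1767564, 2, 4), (2905940 / 3, 3, 5), 
      (18331360 / 3, 4, 6), (82159424, 5, 7), (85833440, 6, 8), (-224930816, 7, 9)],
    [(-1281127 / 6, 0, 2), (-1751572 / 3, 1, 3), (-1679485, 2, 4), 
      (-168382840 / 3, 3, 5), (-433586000 / 3, 4, 6), (-237855488, 5, 7), 
      (584845184, 6, 8)],
    [(710092 / 3, 0, 2), (3756826 / 3, 1, 3), (45925588, 2, 4), (339975584 / 3, 3, 5), 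
      (601655840 / 3, 4, 6), (-508666624, 5, 7)],
    [(476685, 0, 2), (-12409876, 1, 3), (-32525696, 2, 4), (-46773568, 3, 5), 
      (143397760, 4, 6)]]

/-- the radial profile of the potential of the self-interaction -/
noncomputable def phR (κ : ℝ) : Rad :=
  [(7985 / 6 / κ, 0, 1), (-45260 / κ, 1, 2), (1007980 / 3 / κ, 2, 3), 
      (4727170 / 9 / κ, 3, 4), (-5059168 / 3 / κ, 4, 5), (-43598320 / 9 / κ, 5, 6), 
      (228485120 / 9 / κ, 6, 7), (-95918080 / 3 / κ, 7, 8), (37396480 / 3 / κ, 8, 9)]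

theorem numT {κ : ℝ} (hκ : κ ≠ 0) (t s : ℝ) (hD : 0 < 1 - t + κ * s) (a : Fin 4) :
    (∑ b, (GT a b : ℝ) * (ev κ (dT (fR b)) t s
        - 1 / (40 * κ) * (4 * s * ev κ (dS κ (dS κ (fR b))) t s + 10 * ev κ (dS κ (fR b)) t s)))
      + ∑ b, ∑ c, (dd a b c : ℝ) * -((2 / 3) * s * (ev κ (QR c) t s + s * ev κ (PR κ c) t s)
          * ev κ (dS κ (fR b)) t s + (5 / 3) * ev κ (QR c) t s * ev κ (fR b) t s
          + (2 / 3) * s * ev κ (PR κ c) t s * ev κ (fR b) t s) = 0 := by
  obtain ⟨τ, hτ⟩ : ∃ τ, τ = 1 - t := ⟨_, rfl⟩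
  obtain ⟨D, hDe⟩ : ∃ D, D = τ + κ * s := ⟨_, rfl⟩
  have hs : s = (D - τ) / κ := by rw [hDe]; field_simp; ring
  have hD0 : D ≠ 0 := by rw [hDe, hτ]; exact hD.ne'
  simp only [ev, ← hτ]
  simp only [← hDe]
  fin_cases a <;> simp [Fin.sum_univ_four, dT, dS, fR, QR, PR, GT, dd] <;> rw [hs] <;> field_simp <;>
    ring

theorem numP1 {κ : ℝ} (hκ : κ ≠ 0) (t s : ℝ) (hD : 0 < 1 - t + κ * s) (a : Fin 4) :
    (∑ b, (GP a b : ℝ) * (ev κ (dT (QR b)) t s
        - 1 / (40 * κ) * (4 * s * ev κ (dS κ (dS κ (QR b))) t s + 10 * ev κ (dS κ (QR b)) t s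
          + 4 * ev κ (PR κ b) t s)))
      + (∑ b, ∑ c, (dd b c a : ℝ) * (ev κ (fR b) t s * ev κ (fR c) t s))
      + (∑ b, ∑ c, (bb a b c : ℝ) * ((1 / 3) * s * (ev κ (QR b) t s + s * ev κ (PR κ b) t s)
          * ev κ (dS κ (QR c)) t s + (7 / 12) * ev κ (QR b) t s * ev κ (QR c) t s
          + (1 / 6) * s * (ev κ (PR κ b) t s * ev κ (QR c) t s
            + ev κ (QR b) t s * ev κ (PR κ c) t s)))
      + 2 * ev κ (piR a) t s = 0 := by
  obtain ⟨τ, hτ⟩ : ∃ τ, τ = 1 - t := ⟨_, rfl⟩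
  obtain ⟨D, hDe⟩ : ∃ D, D = τ + κ * s := ⟨_, rfl⟩
  have hs : s = (D - τ) / κ := by rw [hDe]; field_simp; ring
  have hD0 : D ≠ 0 := by rw [hDe, hτ]; exact hD.ne'
  simp only [ev, ← hτ]
  simp only [← hDe]
  fin_cases a <;> simp [Fin.sum_univ_four, dT, dS, fR, QR, PR, piR, GP, dd, bb] <;> rw [hs] <;>
    field_simp <;> ring

theorem numP2 {κ : ℝ} (hκ : κ ≠ 0) (t s : ℝ) (hD : 0 < 1 - t + κ * s) (a : Fin 4) :
    (∑ b, (GP a b : ℝ) * (ev κ (dT (PR κ b)) t s
        - 1 / (40 * κ) * (4 * s * ev κ (dS κ (dS κ (PR κ b))) t s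
          + 18 * ev κ (dS κ (PR κ b)) t s)))
      + (∑ b, ∑ c, (bb a b c : ℝ) * ((1 / 3) * (ev κ (QR b) t s + s * ev κ (PR κ b) t s)
          * ev κ (dS κ (QR c)) t s + (1 / 6) * ev κ (PR κ b) t s * ev κ (QR c) t s
          + (4 / 3) * ev κ (QR b) t s * ev κ (PR κ c) t s
          + (2 / 3) * s * (ev κ (QR b) t s + s * ev κ (PR κ b) t s) * ev κ (dS κ (PR κ c)) t s
          + s * ev κ (PR κ b) t s * ev κ (PR κ c) t s))
      + 2 * ev κ (dS κ (piR a)) t s = 0 := by
  obtain ⟨τ, hτ⟩ : ∃ τ, τ = 1 - t := ⟨_, rfl⟩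
  obtain ⟨D, hDe⟩ : ∃ D, D = τ + κ * s := ⟨_, rfl⟩
  have hs : s = (D - τ) / κ := by rw [hDe]; field_simp; ring
  have hD0 : D ≠ 0 := by rw [hDe, hτ]; exact hD.ne'
  simp only [ev, ← hτ]
  simp only [← hDe]
  fin_cases a <;> simp [Fin.sum_univ_four, dT, dS, fR, QR, PR, piR, GP, bb] <;> rw [hs] <;>
    field_simp <;> ring

theorem numPh {κ : ℝ} (hκ : κ ≠ 0) (t s : ℝ) (hD : 0 < 1 - t + κ * s) :
    (∑ b, ∑ c, (GT b c : ℝ) * (-2 * (ev κ (fR b) t s * ev κ (fR c) t s)))
      + (∑ b, ∑ c, (GP b c : ℝ) * ((4 / 3) * s * (ev κ (QR b) t s + s * ev κ (PR κ b) t s)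
          * ev κ (dS κ (QR c)) t s + (5 / 3) * ev κ (QR b) t s * ev κ (QR c) t s
          + (2 / 3) * s * ev κ (PR κ b) t s * ev κ (QR c) t s
          + 4 * s * ev κ (QR b) t s * ev κ (PR κ c) t s
          + (4 / 3) * s ^ 2 * (ev κ (QR b) t s + s * ev κ (PR κ b) t s) * ev κ (dS κ (PR κ c)) t s
          + 2 * s ^ 2 * ev κ (PR κ b) t s * ev κ (PR κ c) t s))
      = 2 * ev κ (dS κ (phR κ)) t s := by
  obtain ⟨τ, hτ⟩ : ∃ τ, τ = 1 - t := ⟨_, rfl⟩
  obtain ⟨D, hDe⟩ : ∃ D, D = τ + κ * s := ⟨_, rfl⟩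
  have hs : s = (D - τ) / κ := by rw [hDe]; field_simp; ring
  have hD0 : D ≠ 0 := by rw [hDe, hτ]; exact hD.ne'
  simp only [ev, ← hτ]
  simp only [← hDe]
  simp [Fin.sum_univ_four, dS, fR, QR, PR, phR, GT, GP]
  rw [hs]
  field_simp
  ring

end Pool.Agent.N983.NC
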