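import Pool.Agent.N983.NC.Prof

/-!
The equations for the base fields.
-/

open MeasureTheory Set Filter Topology
open scoped ContDiff

namespace Pool.Agent.N983.NC

open H459R3.NS

variable {κ : ℝ} {t : ℝ}

theorem zero_symm : ∀ m n : Fin 3, (0 : Fin 3 → Fin 3 → ℝ) m n = (0 : Fin 3 → Fin 3 → ℝ) n m :=
  fun _ _ => rfl

theorem vT (hκ : 0 < κ) (ht : t < 1) (b : Fin 4) (α l : Fin 3) (x : V) :
    curl (AA κ (Sum.inl (b, α)) t) x l = vl (ev κ (fR b) t (sq x)) 0 0 (rot α l) l x := by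
  have h := congrFun (curlT hκ ht b α l) x
  rw [h, cmp_eq_vl, ev_nil]

theorem vP (hκ : 0 < κ) (ht : t < 1) (b : Fin 4) (r : Fin 5) (l : Fin 3) (x : V) :
    curl (AA κ (Sum.inr (b, r)) t) x l
      = 1 / nE r * vl (ev κ (QR b) t (sq x)) (ev κ (PR κ b) t (sq x)) (EE r) (EE r l) l x :=
  congrFun (curlP hκ ht b r l) x

theorem gT (hκ : 0 < κ) (ht : t < 1) (b : Fin 4) (α l j : Fin 3) (x : V) :
    pd j (fun y => curl (AA κ (Sum.inl (b, α)) t) y l) x
      = gr (ev κ (fR b) t (sq x)) (ev κ (dS κ (fR b)) t (sq x)) 0 0 0 (rot α l) l x j := by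
  rw [curlT hκ ht, pd_cmp hκ zero_symm _ _ ht, cmpG_eq_gr, ev_nil]
  rfl

theorem gP (hκ : 0 < κ) (ht : t < 1) (b : Fin 4) (r : Fin 5) (l j : Fin 3) (x : V) :
    pd j (fun y => curl (AA κ (Sum.inr (b, r)) t) y l) x
      = 1 / nE r * gr (ev κ (QR b) t (sq x)) (ev κ (dS κ (QR b)) t (sq x))
        (ev κ (PR κ b) t (sq x)) (ev κ (dS κ (PR κ b)) t (sq x)) (EE r) (EE r l) l x j := by
  rw [curlP hκ ht, ((HG.cmp (EE_symm r) (EE r l) l (pos_D hκ ht x)).const_mul (1 / nE r)).pd]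
  rfl

theorem lT (hκ : 0 < κ) (ht : t < 1) (b : Fin 4) (α l : Fin 3) (x : V) :
    ∑ j, pd j (pd j (fun y => curl (AA κ (Sum.inl (b, α)) t) y l)) x
      = (4 * sq x * ev κ (dS κ (dS κ (fR b))) t (sq x) + 10 * ev κ (dS κ (fR b)) t (sq x))
        * li (rot α l) x := by
  rw [curlT hκ ht, lap_cmp hκ zero_symm (by simp) _ _ ht]
  simp [ev_nil, dS, qf, li]

theorem lP (hκ : 0 < κ) (ht : t < 1) (b : Fin 4) (r : Fin 5) (l : Fin 3) (x : V) :
    ∑ j, pd j (pd j (fun y => curl (AA κ (Sum.inr (b, r)) t) y l)) x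
      = 1 / nE r * ((4 * sq x * ev κ (dS κ (dS κ (QR b))) t (sq x)
          + 10 * ev κ (dS κ (QR b)) t (sq x)) * li (EE r l) x
        + (4 * sq x * ev κ (dS κ (dS κ (PR κ b))) t (sq x) + 18 * ev κ (dS κ (PR κ b)) t (sq x))
          * (qf (EE r) x * x l)
        + 4 * ev κ (PR κ b) t (sq x) * li (EE r l) x) := by
  rw [← lap_cmp hκ (EE_symm r) (EE_tr r) _ _ ht, Finset.mul_sum]
  refine Finset.sum_congr rfl fun j _ => ?_
  have e : pd j (fun y => curl (AA κ (Sum.inr (b, r)) t) y l)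
      = fun y => 1 / nE r * pd j (cmp κ (QR b) (PR κ b) (EE r) (EE r l) l t) y := by
    funext y
    rw [gP hκ ht, pd_cmp hκ (EE_symm r) _ _ ht]
    rfl
  rw [e]
  have h : DifferentiableAt ℝ (pd j (cmp κ (QR b) (PR κ b) (EE r) (EE r l) l t)) x := by
    have e1 : pd j (cmp κ (QR b) (PR κ b) (EE r) (EE r l) l t) = fun y =>
        2 * (y j * (ev κ (dS κ (QR b)) t (sq y) * li (EE r l) y)) + EE r l j * ev κ (QR b) t (sq y)
        + 2 * (y j * (ev κ (dS κ (PR κ b)) t (sq y) * (qf (EE r) y * y l)))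
        + 2 * (ev κ (PR κ b) t (sq y) * (li (EE r j) y * y l))
        + (if j = l then 1 else 0) * (ev κ (PR κ b) t (sq y) * qf (EE r) y) := by
      funext y
      rw [pd_cmp hκ (EE_symm r) _ _ ht j y]
      unfold cmpG
      ring
    rw [e1]
    have hD := pos_D hκ ht x
    exact (((((((HG.coord j x).mul ((HG.ev _ hD).mul (HG.li _ x))).const_mul 2).add
      ((HG.ev _ hD).const_mul _)).add
      (((HG.coord j x).mul ((HG.ev _ hD).mul ((HG.qf (EE_symm r) x).mul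
        (HG.coord l x)))).const_mul
        2)).add (((HG.ev _ hD).mul ((HG.li _ x).mul (HG.coord l x))).const_mul 2)).add
      (((HG.ev _ hD).mul (HG.qf (EE_symm r) x)).const_mul _)).differentiableAt
  change (fderiv ℝ (fun y => 1 / nE r * pd j (cmp κ (QR b) (PR κ b) (EE r) (EE r l) l t) y) x)
    (Pi.single j 1) = 1 / nE r * (fderiv ℝ (pd j (cmp κ (QR b) (PR κ b) (EE r) (EE r l) l t)) x)
    (Pi.single j 1)
  rw [fderiv_const_mul h]
  simp

theorem dtT (hκ : 0 < κ) (ht : t < 1) (b : Fin 4) (α l : Fin 3) (x : V) :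
    deriv (fun s => curl (AA κ (Sum.inl (b, α)) s) x l) t
      = ev κ (dT (fR b)) t (sq x) * li (rot α l) x := by
  have e : (fun s => curl (AA κ (Sum.inl (b, α)) s) x l)
      =ᶠ[𝓝 t] fun s => cmp κ (fR b) [] 0 (rot α l) l s x := by
    filter_upwards [Iio_mem_nhds ht] with s hs
    exact congrFun (curlT hκ hs b α l) x
  rw [e.deriv_eq, (deriv_cmp hκ _ _ ht x).deriv]
  simp [cmp, dT, ev_nil]

theorem dtP (hκ : 0 < κ) (ht : t < 1) (b : Fin 4) (r : Fin 5) (l : Fin 3) (x : V) :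
    deriv (fun s => curl (AA κ (Sum.inr (b, r)) s) x l) t
      = 1 / nE r * (ev κ (dT (QR b)) t (sq x) * li (EE r l) x
        + ev κ (dT (PR κ b)) t (sq x) * (qf (EE r) x * x l)) := by
  have e : (fun s => curl (AA κ (Sum.inr (b, r)) s) x l)
      =ᶠ[𝓝 t] fun s => 1 / nE r * cmp κ (QR b) (PR κ b) (EE r) (EE r l) l s x := by
    filter_upwards [Iio_mem_nhds ht] with s hs
    exact congrFun (curlP hκ hs b r l) x
  rw [e.deriv_eq, ((deriv_cmp hκ _ _ ht x).const_mul (1 / nE r)).deriv]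
  rfl

theorem gPi (hκ : 0 < κ) (ht : t < 1) (a : Fin 4) (r : Fin 5) (l : Fin 3) (x : V) :
    pd l (PP κ (Sum.inr (a, r)) t) x = 2 * ev κ (piR a) t (sq x) * li (EE r l) x
      + 2 * ev κ (dS κ (piR a)) t (sq x) * (qf (EE r) x * x l) := by
  have h := ((HG.ev (piR a) (pos_D hκ ht x)).mul (HG.qf (EE_symm r) x)).pd l
  rw [show PP κ (Sum.inr (a, r)) t = fun y => ev κ (piR a) t (sq y) * qf (EE r) y from rfl, h]
  ring

theorem gPh (hκ : 0 < κ) (ht : t < 1) (l : Fin 3) (x : V) :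
    pd l (FF κ t) x = 2 * ev κ (dS κ (phR κ)) t (sq x) * x l := by
  have h := (HG.ev (phR κ) (pos_D hκ ht x)).pd l
  rw [show FF κ t = fun y => ev κ (phR κ) t (sq y) from rfl, h]
  ring

theorem sum_quad {ι₁ ι₂ κ₁ κ₂ : Type*} [Fintype ι₁] [Fintype ι₂] [Fintype κ₁] [Fintype κ₂]
    (F : ι₁ → κ₁ → ι₂ → κ₂ → ℝ) :
    ∑ b, ∑ s, ∑ c, ∑ q, F b s c q = ∑ b, ∑ c, ∑ s, ∑ q, F b s c q :=
  Finset.sum_congr rfl fun _ _ => Finset.sum_comm

/-- the equations of the first kind -/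
theorem dualT (hκ : 0 < κ) (ht : t < 1) (a : Fin 4) (α : Fin 3) (x : V) (l : Fin 3) :
    (∑ b, GG (Sum.inl (a, α)) b * (deriv (fun s => curl (AA κ b s) x l) t
        - 1 / (40 * κ) * ∑ j, pd j (pd j (fun y => curl (AA κ b t) y l)) x))
      + (∑ b, ∑ d, ct (Sum.inl (a, α)) b d * ∑ j, curl (AA κ b t) x j
          * pd j (fun y => curl (AA κ d t) y l) x)
      + pd l (PP κ (Sum.inl (a, α)) t) x = 0 := by
  have hp : pd l (PP κ (Sum.inl (a, α)) t) x = 0 := by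
    rw [show PP κ (Sum.inl (a, α)) t = fun _ => (0 : ℝ) from rfl]
    exact (HG.const 0 x).pd l
  rw [hp, add_zero]
  have h1 : (∑ b, GG (Sum.inl (a, α)) b * (deriv (fun s => curl (AA κ b s) x l) t
        - 1 / (40 * κ) * ∑ j, pd j (pd j (fun y => curl (AA κ b t) y l)) x))
      = (∑ b, (GT a b : ℝ) * (ev κ (dT (fR b)) t (sq x)
        - 1 / (40 * κ) * (4 * sq x * ev κ (dS κ (dS κ (fR b))) t (sq x)
          + 10 * ev κ (dS κ (fR b)) t (sq x)))) * li (rot α l) x := by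
    rw [Fintype.sum_sum_type]
    have z : ∑ b : Fin 4 × Fin 5, GG (Sum.inl (a, α)) (Sum.inr b)
        * (deriv (fun s => curl (AA κ (Sum.inr b) s) x l) t
        - 1 / (40 * κ) * ∑ j, pd j (pd j (fun y => curl (AA κ (Sum.inr b) t) y l)) x) = 0 :=
      Finset.sum_eq_zero fun b _ => by simp [GG]
    rw [z, add_zero, Fintype.sum_prod_type, Finset.sum_mul]
    refine Finset.sum_congr rfl fun b _ => ?_
    simp_rw [dtT hκ ht, lT hκ ht]
    simp only [GG, ite_mul, zero_mul, Finset.sum_ite_eq, Finset.mem_univ, if_true]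
    ring
  have h2 : (∑ b, ∑ d, ct (Sum.inl (a, α)) b d * ∑ j, curl (AA κ b t) x j
          * pd j (fun y => curl (AA κ d t) y l) x)
      = (∑ b, ∑ c, (dd a b c : ℝ) * -((2 / 3) * sq x * (ev κ (QR c) t (sq x)
            + sq x * ev κ (PR κ c) t (sq x))
          * ev κ (dS κ (fR b)) t (sq x) + (5 / 3) * ev κ (QR c) t (sq x) * ev κ (fR b) t (sq x)
          + (2 / 3) * sq x * ev κ (PR κ c) t (sq x) * ev κ (fR b) t (sq x)))
        * li (rot α l) x := by
    simp_rw [Fintype.sum_sum_type, Fintype.sum_prod_type]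
    simp only [ct, zero_mul, Finset.sum_const_zero, zero_add, add_zero]
    simp_rw [gT hκ ht, gP hκ ht, vT hκ ht, vP hκ ht]
    rw [sum_quad, Finset.sum_mul]
    have h3 : ∑ c : Fin 4, ∑ r : Fin 5, ∑ b : Fin 4, ∑ β : Fin 3, (dd a b c : ℝ) * EE r α β
        * ∑ j, 1 / nE r * vl (ev κ (QR c) t (sq x)) (ev κ (PR κ c) t (sq x)) (EE r) (EE r j) j x
          * gr (ev κ (fR b) t (sq x)) (ev κ (dS κ (fR b)) t (sq x)) 0 0 0 (rot β l) l x j
        = ∑ b : Fin 4, ∑ c : Fin 4, ∑ β : Fin 3, ∑ r : Fin 5, (dd a b c : ℝ) * EE r α β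
        * ∑ j, 1 / nE r * vl (ev κ (QR c) t (sq x)) (ev κ (PR κ c) t (sq x)) (EE r) (EE r j) j x
          * gr (ev κ (fR b) t (sq x)) (ev κ (dS κ (fR b)) t (sq x)) 0 0 0 (rot β l) l x j := by
      rw [sum_quad, Finset.sum_comm]
      refine Finset.sum_congr rfl fun b _ => Finset.sum_congr rfl fun c _ => Finset.sum_comm
    rw [h3, ← Finset.sum_add_distrib]
    refine Finset.sum_congr rfl fun b _ => ?_
    rw [← Finset.sum_add_distrib, Finset.sum_mul]
    refine Finset.sum_congr rfl fun c _ => ?_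
    rw [mul_assoc, ← con_T (ev κ (fR b) t (sq x)) (ev κ (dS κ (fR b)) t (sq x))
      (ev κ (QR c) t (sq x)) (ev κ (dS κ (QR c)) t (sq x)) (ev κ (PR κ c) t (sq x))
      (ev κ (dS κ (PR κ c)) t (sq x)), Finset.mul_sum, ← Finset.sum_add_distrib]
    refine Finset.sum_congr rfl fun β _ => ?_
    rw [Finset.mul_sum, ← Finset.sum_add_distrib]
    refine Finset.sum_congr rfl fun r _ => ?_
    rw [Finset.sum_add_distrib, mul_add, mul_add]
    simp_rw [Finset.mul_sum]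
    congr 1
    · refine Finset.sum_congr rfl fun j _ => ?_
      ring
    · refine Finset.sum_congr rfl fun j _ => ?_
      ring
  rw [h1, h2, ← add_mul, numT hκ.ne' t (sq x) (pos_D hκ ht x) a, zero_mul]

end Pool.Agent.N983.NC
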