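import Pool.Agent.N983.NC.Uniq3

/-!
The energy equality.
-/

open MeasureTheory Set Filter Topology
open scoped ContDiff

namespace Pool.Agent.N983.NC

open H459R3.NS

variable {K : Type*} [Fintype K] {c : K → K → K → ℝ} {ν T : ℝ} {u : K → ℝ → V → V}
  {p : K → ℝ → V → ℝ}

theorem pd_zero (j : Fin 3) : pd j (fun _ : V => (0 : ℝ)) = fun _ => 0 := by
  funext x
  simp [pd]

theorem SolI.zero : SolI c ν T (fun _ _ _ => 0) (fun _ _ _ => 0) (fun _ _ _ => 0) where
  smooth_u _ := contDiffOn_const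
  smooth_p _ := contDiffOn_const
  per_u _ _ _ _ _ := rfl
  per_p _ _ _ _ _ := rfl
  divfree a t ht x := by simp [pd_zero]
  momentum a t ht x i := by simp [pd_zero]

/-- the energy equality for solutions without force -/
theorem SolI.energy (hc : Sym c) (h : SolI c ν T (fun _ _ _ => 0) u p) {t : ℝ} (ht : t ∈ Ioo 0 T) :
    HasDerivAt (fun s => ∑ a, ∑ i, ∫ x in cube, u a s x i ^ 2)
      (-(2 * ν * ∑ a, ∑ i, ∑ j, ∫ x in cube, pd j (fun y => u a t y i) x ^ 2)) t := by
  have h1 := dE_hasDerivAt h SolI.zero hc ht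
  have e1 : dE u (fun _ _ _ => 0) = fun s => ∑ a, ∑ i, ∫ x in cube, u a s x i ^ 2 := by
    funext s
    simp [dE]
  rw [e1] at h1
  refine h1.congr_deriv ?_
  simp [pd_zero, ← pow_two]
  ring

end Pool.Agent.N983.NC
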