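import Pool.Agent.N983.NC.Final

/-!
Ensembles of Navier-Stokes fields, projected to a subspace of random variables.
-/

open Set Filter Topology
open scoped ContDiff

namespace Pool.Agent.N983.NC

open H459R3.NS

/-- The residual of the Navier-Stokes equations. -/
noncomputable def resid (ν : ℝ) (f u : ℝ → V → V) (p : ℝ → V → ℝ) (t : ℝ) (x : V) (i : Fin 3) : ℝ :=
  deriv (fun s => u s x i) t + ∑ j, u t x j * pd j (fun y => u t y i) x
    - ν * ∑ j, pd j (pd j (fun y => u t y i)) x + pd i (p t) x - f t x i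

theorem pd_linc {ι : Type*} {s : Finset ι} {g : ι → V → ℝ} (c : ι → ℝ)
    (hg : ∀ i ∈ s, ContDiff ℝ ∞ (g i)) (j : Fin 3) (x : V) :
    pd j (fun y => ∑ i ∈ s, c i * g i y) x = ∑ i ∈ s, c i * pd j (g i) x := by
  unfold pd
  have h : HasFDerivAt (fun y => ∑ i ∈ s, c i * g i y) (∑ i ∈ s, c i • fderiv ℝ (g i) x) x :=
    HasFDerivAt.fun_sum fun i hi =>
      (((hg i hi).differentiable (by norm_cast)) x).hasFDerivAt.const_mul (c i)
  rw [h.fderiv]
  simp

theorem contDiff_pd' {g : V → ℝ} (hg : ContDiff ℝ ∞ g) (j : Fin 3) : ContDiff ℝ ∞ (pd j g) := by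
  unfold pd
  exact (hg.fderiv_right (m := ∞) (by norm_cast)).clm_apply contDiff_const

theorem lap_lin {ι : Type*} {s : Finset ι} {g : ι → V → ℝ} (c : ι → ℝ)
    (hg : ∀ i ∈ s, ContDiff ℝ ∞ (g i)) (x : V) :
    ∑ j, pd j (pd j (fun y => ∑ i ∈ s, c i * g i y)) x = ∑ i ∈ s, c i * ∑ j, pd j (pd j (g i)) x := by
  have h1 : ∀ j, pd j (pd j (fun y => ∑ i ∈ s, c i * g i y)) x = ∑ i ∈ s, c i * pd j (pd j (g i)) x := by
    intro j
    have e : pd j (fun y => ∑ i ∈ s, c i * g i y) = fun x => ∑ i ∈ s, c i * pd j (g i) x :=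
      funext fun x => pd_linc c hg j x
    rw [e, pd_linc c (fun i hi => contDiff_pd' (hg i hi) j)]
  simp_rw [h1]
  rw [Finset.sum_comm]
  refine Finset.sum_congr rfl fun i _ => ?_
  rw [Finset.mul_sum]

section proj

variable {K : Type*} [Fintype K] [DecidableEq K] {n : ℕ} {m : Fin n → ℝ} {φ : K → Fin n → ℝ}
  {ν : ℝ} {f u : Fin n → ℝ → V → V} {p : Fin n → ℝ → V → ℝ} {g v : K → ℝ → V → V}

/-- The projection of the residuals of an ensemble with values in the span of the `φ a`. -/
theorem proj_res (hort : ∀ a b, ∑ k, m k * (φ a k * φ b k) = if a = b then 1 else 0) {t : ℝ}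
    (hu : ∀ k, ∀ᶠ s in 𝓝 t, ∀ x i, u k s x i = ∑ a, φ a k * v a s x i)
    (hdt : ∀ a x i, DifferentiableAt ℝ (fun s => v a s x i) t)
    (hdx : ∀ a i, ContDiff ℝ ∞ (fun y => v a t y i)) (hp : ∀ k, ContDiff ℝ ∞ (p k t))
    (hf : ∀ k x i, f k t x i = ∑ a, φ a k * g a t x i) (e : K) (x : V) (i : Fin 3) :
    ∑ k, m k * φ e k * resid ν (f k) (u k) (p k) t x i
      = deriv (fun s => v e s x i) t
        + ∑ b, ∑ d, (∑ k, m k * (φ e k * φ b k * φ d k))
          * ∑ j, v b t x j * pd j (fun y => v d t y i) x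
        - ν * ∑ j, pd j (pd j (fun y => v e t y i)) x
        + pd i (fun y => ∑ k, (m k * φ e k) * p k t y) x - g e t x i := by
  have hut : ∀ k x i, u k t x i = ∑ a, φ a k * v a t x i := fun k x i => (hu k).self_of_nhds x i
  -- the orthogonality, used as a reproducing property
  have hrep : ∀ F : K → ℝ, ∑ k, m k * φ e k * ∑ a, φ a k * F a = F e := by
    intro F
    simp_rw [Finset.mul_sum]
    rw [Finset.sum_comm]
    have : ∀ a, ∑ k, m k * φ e k * (φ a k * F a) = (if e = a then 1 else 0) * F a := by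
      intro a
      rw [← hort e a, Finset.sum_mul]
      exact Finset.sum_congr rfl fun k _ => by ring
    simp_rw [this]
    simp
  have h1 : ∀ k, deriv (fun s => u k s x i) t = ∑ a, φ a k * deriv (fun s => v a s x i) t := by
    intro k
    have e1 : (fun s => u k s x i) =ᶠ[𝓝 t] fun s => ∑ a, φ a k * v a s x i := by
      filter_upwards [hu k] with s hs
      exact hs x i
    rw [e1.deriv_eq]
    exact (HasDerivAt.fun_sum fun a _ => (hdt a x i).hasDerivAt.const_mul (φ a k)).deriv
  have h2 : ∀ k, (fun y => u k t y i) = fun y => ∑ a, φ a k * v a t y i := fun k =>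
    funext fun y => hut k y i
  have h3 : ∀ k j, pd j (fun y => u k t y i) x = ∑ a, φ a k * pd j (fun y => v a t y i) x := by
    intro k j
    rw [h2]
    exact pd_linc (g := fun a y => v a t y i) (fun a => φ a k) (fun a _ => hdx a i) j x
  have h4 : ∀ k, ∑ j, pd j (pd j (fun y => u k t y i)) x
      = ∑ a, φ a k * ∑ j, pd j (pd j (fun y => v a t y i)) x := by
    intro k
    rw [h2]
    exact lap_lin (g := fun a y => v a t y i) (fun a => φ a k) (fun a _ => hdx a i) x
  have h5 : pd i (fun y => ∑ k, (m k * φ e k) * p k t y) x = ∑ k, (m k * φ e k) * pd i (p k t) x :=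
    pd_linc (g := fun k => p k t) (fun k => m k * φ e k) (fun k _ => hp k) i x
  have h6 : ∑ k, m k * φ e k * ∑ j, u k t x j * pd j (fun y => u k t y i) x
      = ∑ b, ∑ d, (∑ k, m k * (φ e k * φ b k * φ d k))
          * ∑ j, v b t x j * pd j (fun y => v d t y i) x := by
    have e1 : ∀ k, m k * φ e k * ∑ j, u k t x j * pd j (fun y => u k t y i) x
        = ∑ b, ∑ d, (m k * (φ e k * φ b k * φ d k))
          * ∑ j, v b t x j * pd j (fun y => v d t y i) x := by
      intro k
      have e2 : ∀ j, u k t x j * pd j (fun y => u k t y i) x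
          = ∑ b, ∑ d, (φ b k * φ d k) * (v b t x j * pd j (fun y => v d t y i) x) := by
        intro j
        rw [hut, h3, Finset.sum_mul_sum]
        exact Finset.sum_congr rfl fun b _ => Finset.sum_congr rfl fun d _ => by ring
      simp_rw [e2]
      rw [Finset.sum_comm, Finset.mul_sum]
      refine Finset.sum_congr rfl fun b _ => ?_
      rw [Finset.sum_comm, Finset.mul_sum]
      refine Finset.sum_congr rfl fun d _ => ?_
      rw [← Finset.mul_sum]
      ring
    simp_rw [e1]
    rw [Finset.sum_comm]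
    refine Finset.sum_congr rfl fun b _ => ?_
    rw [Finset.sum_comm]
    refine Finset.sum_congr rfl fun d _ => ?_
    rw [Finset.sum_mul]
  unfold resid
  simp only [mul_sub, mul_add, Finset.sum_sub_distrib, Finset.sum_add_distrib]
  rw [h6, h5]
  simp_rw [h1, h4, hf]
  rw [hrep, hrep]
  have h7 : ∑ k, m k * φ e k * (ν * ∑ a, φ a k * ∑ j, pd j (pd j (fun y => v a t y i)) x)
      = ν * ∑ j, pd j (pd j (fun y => v e t y i)) x := by
    rw [← hrep (fun a => ∑ j, pd j (pd j (fun y => v a t y i)) x), Finset.mul_sum]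
    exact Finset.sum_congr rfl fun k _ => by ring
  rw [h7]

end proj

end Pool.Agent.N983.NC
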