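import Pool.Agent.N983.NC.Rad

/-!
Component functions of the base fields and their derivatives.
-/

open MeasureTheory Set Filter Topology
open scoped ContDiff

namespace Pool.Agent.N983.NC

open H459R3.NS

variable {κ : ℝ}

/-- `a · x` -/
def li (a : Fin 3 → ℝ) (x : V) : ℝ := ∑ m, a m * x m

/-- `x · M x` -/
def qf (M : Fin 3 → Fin 3 → ℝ) (x : V) : ℝ := ∑ m, li (M m) x * x m

/-- The function `g (a · x) + h (x · M x) x_l`. -/
noncomputable def cmp (κ : ℝ) (g h : Rad) (M : Fin 3 → Fin 3 → ℝ) (a : Fin 3 → ℝ) (l : Fin 3)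
    (t : ℝ) (x : V) : ℝ :=
  ev κ g t (sq x) * li a x + ev κ h t (sq x) * (qf M x * x l)

/-- The gradient of `cmp`. -/
noncomputable def cmpG (κ : ℝ) (g h : Rad) (M : Fin 3 → Fin 3 → ℝ) (a : Fin 3 → ℝ) (l : Fin 3)
    (t : ℝ) (x : V) (j : Fin 3) : ℝ :=
  2 * x j * ev κ (dS κ g) t (sq x) * li a x + ev κ g t (sq x) * a j
    + 2 * x j * ev κ (dS κ h) t (sq x) * (qf M x * x l)
    + ev κ h t (sq x) * (2 * li (M j) x * x l + qf M x * (if j = l then 1 else 0))

theorem HG.li (a : Fin 3 → ℝ) (x : V) : HG (li a) a x := HG.lin a x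

theorem HG.qf {M : Fin 3 → Fin 3 → ℝ} (hM : ∀ m n, M m n = M n m) (x : V) :
    HG (qf M) (fun j => 2 * NC.li (M j) x) x := by
  have h : HG (NC.qf M) (fun j => ∑ m, (M m j * x m + NC.li (M m) x * (if j = m then 1 else 0))) x :=
    HG.sum Finset.univ fun m _ => (HG.li (M m) x).mul (HG.coord m x)
  refine h.congr fun j => ?_
  rw [Finset.sum_add_distrib]
  have e : ∑ m, M m j * x m = NC.li (M j) x := Finset.sum_congr rfl fun m _ => by rw [hM m j]
  rw [e]
  simp
  ring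

theorem HG.cmp {g h : Rad} {M : Fin 3 → Fin 3 → ℝ} (hM : ∀ m n, M m n = M n m) (a : Fin 3 → ℝ)
    (l : Fin 3) {t : ℝ} {x : V} (hD : 0 < 1 - t + κ * NC.sq x) :
    HG (NC.cmp κ g h M a l t) (cmpG κ g h M a l t x) x := by
  refine (((HG.ev g hD).mul (HG.li a x)).add
    ((HG.ev h hD).mul ((HG.qf hM x).mul (HG.coord l x)))).congr fun j => ?_
  unfold cmpG
  ring

theorem sq_nonneg' (x : V) : 0 ≤ sq x := Finset.sum_nonneg fun _ _ => sq_nonneg _

theorem pos_D (hκ : 0 < κ) {t : ℝ} (ht : t < 1) (x : V) : 0 < 1 - t + κ * sq x := by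
  have : 0 ≤ κ * sq x := mul_nonneg hκ.le (sq_nonneg' x)
  linarith

theorem pd_cmp (hκ : 0 < κ) {g h : Rad} {M : Fin 3 → Fin 3 → ℝ} (hM : ∀ m n, M m n = M n m)
    (a : Fin 3 → ℝ) (l : Fin 3) {t : ℝ} (ht : t < 1) (j : Fin 3) (x : V) :
    pd j (cmp κ g h M a l t) x = cmpG κ g h M a l t x j :=
  (HG.cmp hM a l (pos_D hκ ht x)).pd j

theorem lap_cmp (hκ : 0 < κ) {g h : Rad} {M : Fin 3 → Fin 3 → ℝ} (hM : ∀ m n, M m n = M n m)
    (hM0 : ∑ m, M m m = 0) (a : Fin 3 → ℝ) (l : Fin 3) {t : ℝ} (ht : t < 1) (x : V) :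
    ∑ j, pd j (pd j (cmp κ g h M a l t)) x
      = (4 * sq x * ev κ (dS κ (dS κ g)) t (sq x) + 10 * ev κ (dS κ g) t (sq x)) * li a x
        + (4 * sq x * ev κ (dS κ (dS κ h)) t (sq x) + 18 * ev κ (dS κ h) t (sq x))
          * (qf M x * x l)
        + 4 * ev κ h t (sq x) * li (M l) x := by
  have hD := pos_D hκ ht x
  have h1 : ∀ j, pd j (pd j (cmp κ g h M a l t)) x =
      2 * (1 * (ev κ (dS κ g) t (sq x) * li a x)
        + x j * (2 * x j * ev κ (dS κ (dS κ g)) t (sq x) * li a x + ev κ (dS κ g) t (sq x) * a j))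
      + a j * (2 * x j * ev κ (dS κ g) t (sq x))
      + 2 * (1 * (ev κ (dS κ h) t (sq x) * (qf M x * x l))
        + x j * (2 * x j * ev κ (dS κ (dS κ h)) t (sq x) * (qf M x * x l)
          + ev κ (dS κ h) t (sq x) * (2 * li (M j) x * x l + qf M x * (if j = l then 1 else 0))))
      + 2 * (2 * x j * ev κ (dS κ h) t (sq x) * (li (M j) x * x l)
        + ev κ h t (sq x) * (M j j * x l + li (M j) x * (if j = l then 1 else 0)))
      + (if j = l then 1 else 0) * (2 * x j * ev κ (dS κ h) t (sq x) * qf M x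
        + ev κ h t (sq x) * (2 * li (M j) x)) := by
    intro j
    have e1 : pd j (cmp κ g h M a l t) = fun y =>
        2 * (y j * (ev κ (dS κ g) t (sq y) * li a y)) + a j * ev κ g t (sq y)
        + 2 * (y j * (ev κ (dS κ h) t (sq y) * (qf M y * y l)))
        + 2 * (ev κ h t (sq y) * (li (M j) y * y l))
        + (if j = l then 1 else 0) * (ev κ h t (sq y) * qf M y) := by
      funext y
      rw [pd_cmp hκ hM a l ht j y]
      unfold cmpG
      ring
    rw [e1]
    refine (HG.pd (((((((HG.coord j x).mul ((HG.ev (dS κ g) hD).mul (HG.li a x))).const_mul 2).add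
      ((HG.ev g hD).const_mul (a j))).add
      (((HG.coord j x).mul ((HG.ev (dS κ h) hD).mul ((HG.qf hM x).mul (HG.coord l x)))).const_mul
        2)).add (((HG.ev h hD).mul ((HG.li (M j) x).mul (HG.coord l x))).const_mul 2)).add
      (((HG.ev h hD).mul (HG.qf hM x)).const_mul (if j = l then 1 else 0))) j).trans ?_
    simp only [if_true]
  simp_rw [h1]
  have h2 : M 2 2 = - M 0 0 - M 1 1 := by
    rw [Fin.sum_univ_three] at hM0; linarith
  have h3 := hM 0 1
  have h4 := hM 0 2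
  have h5 := hM 1 2
  fin_cases l <;> simp [Fin.sum_univ_three, sq, qf, li, h2, h3, h4, h5] <;> ring

theorem deriv_cmp (hκ : 0 < κ) {g h : Rad} {M : Fin 3 → Fin 3 → ℝ}
    (a : Fin 3 → ℝ) (l : Fin 3) {t : ℝ} (ht : t < 1) (x : V) :
    HasDerivAt (fun s => cmp κ g h M a l s x) (cmp κ (dT g) (dT h) M a l t x) t :=
  ((ev_hasDerivAt_t g (pos_D hκ ht x)).mul_const _).add
    ((ev_hasDerivAt_t h (pos_D hκ ht x)).mul_const _)

/-- the cross product -/
def crs (a b : V) : V :=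
  ![a 1 * b 2 - a 2 * b 1, a 2 * b 0 - a 0 * b 2, a 0 * b 1 - a 1 * b 0]

theorem curl_of_HG {A : V → V} {x : V} {G : Fin 3 → Fin 3 → ℝ}
    (h : ∀ i, HG (fun y => A y i) (G i) x) :
    curl A x = ![G 2 1 - G 1 2, G 0 2 - G 2 0, G 1 0 - G 0 1] := by
  unfold curl
  rw [(h 2).pd, (h 1).pd, (h 0).pd, (h 2).pd, (h 1).pd, (h 0).pd]

/-- potential of the first kind: `f x_α x` -/
noncomputable def potT (κ : ℝ) (f : Rad) (α : Fin 3) (t : ℝ) (x : V) : V :=
  fun i => ev κ f t (sq x) * (x α * x i)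

/-- potential of the second kind: `k (M x) × x` -/
noncomputable def potP (κ : ℝ) (k : Rad) (M : Fin 3 → Fin 3 → ℝ) (t : ℝ) (x : V) : V :=
  fun i => ev κ k t (sq x) * crs (fun m => li (M m) x) x i

/-- `e_α × x` has the components `li (rot α l) x` -/
def rot : Fin 3 → Fin 3 → Fin 3 → ℝ :=
  ![![![0, 0, 0], ![0, 0, -1], ![0, 1, 0]],
    ![![0, 0, 1], ![0, 0, 0], ![-1, 0, 0]],
    ![![0, -1, 0], ![1, 0, 0], ![0, 0, 0]]]

theorem curl_potT (hκ : 0 < κ) (f : Rad) (α : Fin 3) {t : ℝ} (ht : t < 1) (x : V) (l : Fin 3) :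
    curl (potT κ f α t) x l = ev κ f t (sq x) * li (rot α l) x := by
  have hD := pos_D hκ ht x
  have h : ∀ i, HG (fun y => potT κ f α t y i) (fun j => 2 * x j * ev κ (dS κ f) t (sq x)
      * (x α * x i) + ev κ f t (sq x) * ((if j = α then 1 else 0) * x i
        + x α * (if j = i then 1 else 0))) x :=
    fun i => (HG.ev f hD).mul ((HG.coord α x).mul (HG.coord i x))
  rw [curl_of_HG h]
  fin_cases α <;> fin_cases l <;> simp [Fin.sum_univ_three, li, rot] <;> ring

/-- gradient of the components of the potential of the second kind -/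
noncomputable def potPG (κ : ℝ) (k : Rad) (M : Fin 3 → Fin 3 → ℝ) (t : ℝ) (x : V)
    (i j : Fin 3) : ℝ :=
  2 * x j * ev κ (dS κ k) t (sq x)
      * crs (fun m => li (M m) x) x i + ev κ k t (sq x) *
        (![(M 1 j * x 2 + li (M 1) x * (if j = 2 then 1 else 0))
            - (M 2 j * x 1 + li (M 2) x * (if j = 1 then 1 else 0)),
          (M 2 j * x 0 + li (M 2) x * (if j = 0 then 1 else 0))
            - (M 0 j * x 2 + li (M 0) x * (if j = 2 then 1 else 0)),
          (M 0 j * x 1 + li (M 0) x * (if j = 1 then 1 else 0))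
            - (M 1 j * x 0 + li (M 1) x * (if j = 0 then 1 else 0))] : Fin 3 → ℝ) i

theorem HG_potP (hκ : 0 < κ) (k : Rad) (M : Fin 3 → Fin 3 → ℝ) {t : ℝ} (ht : t < 1) (x : V)
    (i : Fin 3) : HG (fun y => potP κ k M t y i) (potPG κ k M t x i) x := by
  have hD := pos_D hκ ht x
  have key : ∀ a b : Fin 3, HG (fun y => li (M a) y * y b - li (M b) y * y a)
      (fun j => (M a j * x b + li (M a) x * (if j = b then 1 else 0))
          - (M b j * x a + li (M b) x * (if j = a then 1 else 0))) x := by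
    intro a b
    have h1 := ((HG.li (M a) x).mul (HG.coord b x)).add
      (((HG.li (M b) x).mul (HG.coord a x)).const_mul (-1))
    have e : (fun y => li (M a) y * y b - li (M b) y * y a)
        = fun y => li (M a) y * y b + -1 * (li (M b) y * y a) := by
      funext y; ring
    rw [e]
    exact h1.congr fun j => by ring
  fin_cases i
  · exact (HG.ev k hD).mul (key 1 2)
  · exact (HG.ev k hD).mul (key 2 0)
  · exact (HG.ev k hD).mul (key 0 1)

theorem curl_potP (hκ : 0 < κ) (k : Rad) {M : Fin 3 → Fin 3 → ℝ} (hM : ∀ m n, M m n = M n m)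
    (hM0 : ∑ m, M m m = 0) {t : ℝ} (ht : t < 1) (x : V) (l : Fin 3) :
    curl (potP κ k M t) x l = (3 * ev κ k t (sq x) + 2 * sq x * ev κ (dS κ k) t (sq x))
      * li (M l) x - 2 * ev κ (dS κ k) t (sq x) * (qf M x * x l) := by
  rw [curl_of_HG (HG_potP hκ k M ht x)]
  have h2 : M 2 2 = - M 0 0 - M 1 1 := by
    rw [Fin.sum_univ_three] at hM0; linarith
  have h3 := hM 0 1
  have h4 := hM 0 2
  have h5 := hM 1 2
  fin_cases l <;> simp [Fin.sum_univ_three, sq, qf, li, crs, potPG, h2, h3, h4, h5] <;> ring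

end Pool.Agent.N983.NC
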