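import Pool.Agent.N983.NC.Final

/-!
A Navier-Stokes system with 33 velocity fields, coupled only through the Navier-Stokes
nonlinearity with totally symmetric constants, for which Leray's backward self-similar blow-up
exists and for which the statement (D) of the problem holds.
-/

open Set
open scoped ContDiff

namespace Pool.Agent.N983.NC.MultiVariant

/-- The space `ℝ³`. -/
abbrev Vec := Fin 3 → ℝ

/-- The partial derivative with respect to the `j`-th coordinate. -/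
noncomputable def dx (j : Fin 3) (g : Vec → ℝ) (x : Vec) : ℝ := fderiv ℝ g x (Pi.single j 1)

/-- The fields `uᵃ` are divergence-free at the time `t`. -/
def DivFree (u : Fin 33 → ℝ → Vec → Vec) (t : ℝ) : Prop :=
  ∀ a x, ∑ i, dx i (fun y => u a t y i) x = 0

/-- The equations `∂ₜ uᵃ + ∑_{b,d} c_{abd} (uᵇ·∇) uᵈ = ν Δ uᵃ - ∇ pᵃ + fᵃ`, for the `33` indices
`a`, hold in `ℝ³` at the time `t`. -/
def Momentum (c : Fin 33 → Fin 33 → Fin 33 → ℝ) (ν : ℝ) (f u : Fin 33 → ℝ → Vec → Vec)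
    (p : Fin 33 → ℝ → Vec → ℝ) (t : ℝ) : Prop :=
  ∀ a x i, deriv (fun s => u a s x i) t
      + ∑ b, ∑ d, c a b d * ∑ j, u b t x j * dx j (fun y => u d t y i) x
    = ν * ∑ j, dx j (dx j (fun y => u a t y i)) x - dx i (p a t) x + f a t x i

/-- `g` is `1`-periodic in each coordinate. -/
def Periodic {E : Type} (g : Vec → E) : Prop := ∀ (i : Fin 3) (x : Vec), g (x + Pi.single i 1) = g x

/-- `(u, p)` is an admissible periodic solution with the force `f`, on the time interval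
`[0, ∞)`. -/
structure Admissible (c : Fin 33 → Fin 33 → Fin 33 → ℝ) (ν : ℝ) (f u : Fin 33 → ℝ → Vec → Vec)
    (p : Fin 33 → ℝ → Vec → ℝ) : Prop where
  smooth_u : ∀ a, ContDiffOn ℝ ∞ (fun z : ℝ × Vec => u a z.1 z.2) (Ici 0 ×ˢ univ)
  smooth_p : ∀ a, ContDiffOn ℝ ∞ (fun z : ℝ × Vec => p a z.1 z.2) (Ici 0 ×ˢ univ)
  per_u : ∀ a t, 0 ≤ t → Periodic (u a t)
  per_p : ∀ a t, 0 ≤ t → Periodic (p a t)
  divfree : ∀ t, 0 ≤ t → DivFree u t
  momentum : ∀ t, 0 < t → Momentum c ν f u p t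

/-- There are constants `c_{abd}`, `a, b, d < 33`, symmetric under all permutations of the indices,
with `c_{0ab} = δ_{ab}`, such that for every `ν > 0`:
* the system without force has a nonzero smooth solution
  `u(t, x) = (1 - t)^{-1/2} U(x / √(1 - t))` on `(-∞, 1) × ℝ³`, with `|U(y)| ≤ C / (1 + |y|)`;
* there is a smooth periodic force, vanishing for `t ≤ 0` and for `t ≥ 2`, for which the system
  has no admissible periodic solution with zero initial values. -/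
theorem result :
    ∃ c : Fin 33 → Fin 33 → Fin 33 → ℝ,
      (∀ a b d, c a b d = c b a d ∧ c a b d = c a d b) ∧
      (∀ a b, c 0 a b = if a = b then 1 else 0) ∧
      ∀ ν : ℝ, 0 < ν →
        (∃ (U : Fin 33 → Vec → Vec) (P : Fin 33 → Vec → ℝ),
          (∀ a, ContDiff ℝ ∞ (U a)) ∧ (∀ a, ContDiff ℝ ∞ (P a)) ∧ (∃ a, U a ≠ 0) ∧
          (∃ C : ℝ, ∀ a y, ‖U a y‖ ≤ C / (1 + ‖y‖)) ∧
          ∀ t < 1,
            DivFree (fun a t x => (Real.sqrt (1 - t))⁻¹ • U a ((Real.sqrt (1 - t))⁻¹ • x)) t ∧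
            Momentum c ν (fun _ _ _ => 0)
              (fun a t x => (Real.sqrt (1 - t))⁻¹ • U a ((Real.sqrt (1 - t))⁻¹ • x))
              (fun a t x => (1 - t)⁻¹ * P a ((Real.sqrt (1 - t))⁻¹ • x)) t) ∧
        (∃ f : Fin 33 → ℝ → Vec → Vec,
          (∀ a, ContDiff ℝ ∞ (fun z : ℝ × Vec => f a z.1 z.2)) ∧ (∀ a t, Periodic (f a t)) ∧
          (∀ a t, t ≤ 0 → f a t = 0) ∧ (∀ a t, 2 ≤ t → f a t = 0) ∧
          ¬ ∃ u p, Admissible c ν f u p ∧ ∀ a, u a 0 = 0) := by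
  obtain ⟨c, hc, hc0, h⟩ := Pool.Agent.N983.NC.main
  refine ⟨c, hc, hc0, fun ν hν => ?_⟩
  obtain ⟨⟨U, P, hU, hP, hU0, hUC, hsol⟩, f, hf, hper, hf0, hf2, hno⟩ := h ν hν
  refine ⟨⟨U, P, hU, hP, hU0, hUC, fun t ht => ⟨fun a x => (hsol t ht a x).1, fun a x i => ?_⟩⟩,
    f, hf, hper, hf0, hf2, ?_⟩
  · have h1 := (hsol t ht a x).2 i
    simp only [Pi.zero_apply, add_zero]
    exact h1
  · rintro ⟨u, p, hup, hu0⟩
    exact hno ⟨u, p, ⟨hup.smooth_u, hup.smooth_p, hup.per_u, hup.per_p,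
      fun a t ht x => hup.divfree t ht a x, fun a t ht x i => hup.momentum t ht a x i⟩, hu0⟩

end Pool.Agent.N983.NC.MultiVariant
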