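import Pool.Agent.N983.NC.Data

/-!
The base fields and their derivatives.
-/

open MeasureTheory Set Filter Topology
open scoped ContDiff

namespace Pool.Agent.N983.NC

open H459R3.NS

/-- index type of the base fields -/
abbrev I0 : Type := (Fin 4 × Fin 3) ⊕ (Fin 4 × Fin 5)

/-- Gram matrix -/
noncomputable def GG : I0 → I0 → ℝ
  | Sum.inl (a, α), Sum.inl (b, β) => if α = β then (GT a b : ℝ) else 0
  | Sum.inr (a, r), Sum.inr (b, s) => if r = s then (GP a b : ℝ) * nE r else 0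
  | Sum.inl _, Sum.inr _ => 0
  | Sum.inr _, Sum.inl _ => 0

/-- couplings -/
noncomputable def ct : I0 → I0 → I0 → ℝ
  | Sum.inl (a, α), Sum.inl (b, β), Sum.inr (c, r) => (dd a b c : ℝ) * EE r α β
  | Sum.inl (a, α), Sum.inr (c, r), Sum.inl (b, β) => (dd a b c : ℝ) * EE r α β
  | Sum.inr (c, r), Sum.inl (a, α), Sum.inl (b, β) => (dd a b c : ℝ) * EE r α β
  | Sum.inr (a, r), Sum.inr (b, s), Sum.inr (c, q) => (bb a b c : ℝ) * trZ r s q
  | Sum.inl _, Sum.inl _, Sum.inl _ => 0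
  | Sum.inl _, Sum.inr _, Sum.inr _ => 0
  | Sum.inr _, Sum.inl _, Sum.inr _ => 0
  | Sum.inr _, Sum.inr _, Sum.inl _ => 0

theorem GG_symm (a b : I0) : GG a b = GG b a := by
  rcases a with ⟨a, α⟩ | ⟨a, r⟩ <;> rcases b with ⟨b, β⟩ | ⟨b, s⟩
  · simp only [GG]
    rw [GT_symm a b]
    by_cases h : α = β
    · simp [h]
    · simp [h, Ne.symm h]
  · rfl
  · rfl
  · simp only [GG]
    rw [GP_symm a b]
    by_cases h : r = s
    · simp [h]
    · simp [h, Ne.symm h]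

theorem ct_sym : Sym ct := by
  intro a b d
  rcases a with ⟨a, α⟩ | ⟨a, r⟩ <;> rcases b with ⟨b, β⟩ | ⟨b, s⟩ <;>
    rcases d with ⟨d, γ⟩ | ⟨d, q⟩ <;> simp only [ct, and_self, true_and, and_true]
  · rw [dd_symm a b d, EE_symm q α β]
  · rw [dd_symm b d a, EE_symm r β γ]
  · rw [← (trZ_symm r s q).1, ← (trZ_symm r s q).2, ← (bb_symm a b d).1, ← (bb_symm a b d).2]
    exact ⟨rfl, rfl⟩

/-- potentials -/
noncomputable def AA (κ : ℝ) : I0 → ℝ → V → V
  | Sum.inl (b, α) => potT κ (fR b) α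
  | Sum.inr (b, r) => fun t x i => 1 / nE r * potP κ (kR b) (EE r) t x i

/-- pressures -/
noncomputable def PP (κ : ℝ) : I0 → ℝ → V → ℝ
  | Sum.inl _ => fun _ _ => 0
  | Sum.inr (a, r) => fun t x => ev κ (piR a) t (sq x) * qf (EE r) x

/-- potential of the self-interaction -/
noncomputable def FF (κ : ℝ) (t : ℝ) (x : V) : ℝ := ev κ (phR κ) t (sq x)

theorem kQ {κ : ℝ} (hκ : κ ≠ 0) {t s : ℝ} (hD : 0 < 1 - t + κ * s) (b : Fin 4) :
    3 * ev κ (kR b) t s + 2 * s * ev κ (dS κ (kR b)) t s = ev κ (QR b) t s := by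
  obtain ⟨τ, hτ⟩ : ∃ τ, τ = 1 - t := ⟨_, rfl⟩
  obtain ⟨D, hDe⟩ : ∃ D, D = τ + κ * s := ⟨_, rfl⟩
  have hs : s = (D - τ) / κ := by rw [hDe]; field_simp; ring
  have hD0 : D ≠ 0 := by rw [hDe, hτ]; exact hD.ne'
  simp only [ev, ← hτ]
  simp only [← hDe]
  fin_cases b <;> simp [dS, kR, QR] <;> rw [hs] <;> field_simp <;> ring

theorem kP {κ : ℝ} {t s : ℝ} (hD : 0 < 1 - t + κ * s) (b : Fin 4) :
    2 * ev κ (dS κ (kR b)) t s = - ev κ (PR κ b) t s := by
  have hD0 : 1 - t + κ * s ≠ 0 := hD.ne'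
  fin_cases b <;> simp [ev, dS, kR, PR] <;> field_simp <;> ring

theorem nE_ne (r : Fin 5) : nE r ≠ 0 := by
  fin_cases r <;> simp [nE]

variable {κ : ℝ} {t : ℝ}

theorem curlT (hκ : 0 < κ) (ht : t < 1) (b : Fin 4) (α l : Fin 3) :
    (fun y => curl (AA κ (Sum.inl (b, α)) t) y l) = cmp κ (fR b) [] 0 (rot α l) l t := by
  funext y
  rw [show AA κ (Sum.inl (b, α)) = potT κ (fR b) α from rfl, curl_potT hκ _ _ ht, cmp, ev_nil]
  ring

theorem curl_smul (r : ℝ) {A : V → V} {x : V} {G : Fin 3 → Fin 3 → ℝ}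
    (h : ∀ i, HG (fun y => A y i) (G i) x) (l : Fin 3) :
    curl (fun y i => r * A y i) x l = r * curl A x l := by
  rw [curl_of_HG h, curl_of_HG (fun i => (h i).const_mul r)]
  fin_cases l <;> simp <;> ring

theorem curlP (hκ : 0 < κ) (ht : t < 1) (b : Fin 4) (r : Fin 5) (l : Fin 3) :
    (fun y => curl (AA κ (Sum.inr (b, r)) t) y l)
      = fun y => 1 / nE r * cmp κ (QR b) (PR κ b) (EE r) (EE r l) l t y := by
  funext y
  have hD := pos_D hκ ht y
  rw [show AA κ (Sum.inr (b, r)) t = fun x i => 1 / nE r * potP κ (kR b) (EE r) t x i from rfl,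
    curl_smul (1 / nE r) (fun i => HG_potP hκ (kR b) (EE r) ht y i),
    curl_potP hκ _ (EE_symm r) (EE_tr r) ht, cmp, kQ hκ.ne' hD, kP hD]
  ring

end Pool.Agent.N983.NC
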