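import Pool.Agent.N983.NC.Defs

/-!
Calculus of functions which are radial times polynomial.
-/

open MeasureTheory Set Filter Topology
open scoped ContDiff

namespace Pool.Agent.N983.NC

open H459R3.NS

/-- `|x|²` -/
def sq (x : V) : ℝ := ∑ i, x i ^ 2

theorem isOpen_Om (κ : ℝ) : IsOpen (Om κ) := by
  unfold Om
  exact isOpen_lt continuous_const (by fun_prop)

theorem mem_Om_of_lt {κ : ℝ} (hκ : 0 < κ) {t : ℝ} (ht : t < 1) (x : V) : (t, x) ∈ Om κ := by
  have : 0 ≤ κ * ∑ i, x i ^ 2 := by positivity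
  show 0 < 1 - t + κ * ∑ i, x i ^ 2
  linarith

/-- A radial function: a sum of terms `c (1 - t)ⁿ / (1 - t + κ s)ᵐ`, as the list of the `(c, n, m)`. -/
abbrev Rad := List (ℝ × ℕ × ℕ)

/-- the value of a radial function -/
noncomputable def ev (κ : ℝ) (l : Rad) (t s : ℝ) : ℝ :=
  (l.map fun q => q.1 * (1 - t) ^ q.2.1 / (1 - t + κ * s) ^ q.2.2).sum

/-- the derivative with respect to `s` -/
def dS (κ : ℝ) (l : Rad) : Rad := l.map fun q => (-κ * q.2.2 * q.1, q.2.1, q.2.2 + 1)

/-- the derivative with respect to `t` -/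
def dT (l : Rad) : Rad :=
  l.map (fun q => (-(q.2.1 : ℝ) * q.1, q.2.1 - 1, q.2.2))
    ++ l.map fun q => ((q.2.2 : ℝ) * q.1, q.2.1, q.2.2 + 1)

/-- scalar multiple -/
def smulR (c : ℝ) (l : Rad) : Rad := l.map fun q => (c * q.1, q.2.1, q.2.2)

theorem ev_nil (κ t s : ℝ) : ev κ [] t s = 0 := by simp [ev]

theorem ev_cons (κ : ℝ) (q : ℝ × ℕ × ℕ) (l : Rad) (t s : ℝ) :
    ev κ (q :: l) t s = q.1 * (1 - t) ^ q.2.1 / (1 - t + κ * s) ^ q.2.2 + ev κ l t s := by
  simp [ev]

theorem ev_append (κ : ℝ) (l m : Rad) (t s : ℝ) : ev κ (l ++ m) t s = ev κ l t s + ev κ m t s := by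
  simp [ev]

theorem ev_smulR (κ c : ℝ) (l : Rad) (t s : ℝ) : ev κ (smulR c l) t s = c * ev κ l t s := by
  induction l with
  | nil => simp [ev_nil, smulR]
  | cons q l ih =>
    have : smulR c (q :: l) = (c * q.1, q.2.1, q.2.2) :: smulR c l := rfl
    rw [this, ev_cons, ev_cons, ih]
    simp only
    ring

theorem ev_hasDerivAt_s {κ t s : ℝ} (l : Rad) (h : 0 < 1 - t + κ * s) :
    HasDerivAt (fun s => ev κ l t s) (ev κ (dS κ l) t s) s := by
  induction l with
  | nil => simpa [ev_nil, dS] using hasDerivAt_const s (0 : ℝ)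
  | cons q l ih =>
    have e : dS κ (q :: l) = (-κ * q.2.2 * q.1, q.2.1, q.2.2 + 1) :: dS κ l := rfl
    simp_rw [e, ev_cons]
    refine HasDerivAt.add ?_ ih
    have h1 : HasDerivAt (fun s => 1 - t + κ * s) κ s := by
      simpa using ((hasDerivAt_id s).const_mul κ).const_add (1 - t)
    have h2 := (h1.fun_pow q.2.2).inv (pow_pos h q.2.2).ne'
    have h3 := h2.const_mul (q.1 * (1 - t) ^ q.2.1)
    have h4 : (fun s => q.1 * (1 - t) ^ q.2.1 / (1 - t + κ * s) ^ q.2.2)
        = fun s => q.1 * (1 - t) ^ q.2.1 * ((fun s => (1 - t + κ * s) ^ q.2.2)⁻¹) s := by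
      funext s; simp [div_eq_mul_inv]
    rw [h4]
    refine h3.congr_deriv ?_
    rcases Nat.eq_zero_or_pos q.2.2 with h0 | h0
    · simp [h0]
    · obtain ⟨m, hm⟩ : ∃ m, q.2.2 = m + 1 := ⟨q.2.2 - 1, by omega⟩
      rw [hm]
      simp only [Nat.add_sub_cancel]
      have h5 := h.ne'
      field_simp
      ring

theorem ev_hasDerivAt_t {κ t s : ℝ} (l : Rad) (h : 0 < 1 - t + κ * s) :
    HasDerivAt (fun t => ev κ l t s) (ev κ (dT l) t s) t := by
  induction l with
  | nil => simpa [ev_nil, dT] using hasDerivAt_const t (0 : ℝ)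
  | cons q l ih =>
    have e : ev κ (dT (q :: l)) t s = (-q.2.1 * q.1 * (1 - t) ^ (q.2.1 - 1) / (1 - t + κ * s) ^ q.2.2
        + q.2.2 * q.1 * (1 - t) ^ q.2.1 / (1 - t + κ * s) ^ (q.2.2 + 1)) + ev κ (dT l) t s := by
      unfold dT
      rw [List.map_cons, List.map_cons, List.cons_append, ev_cons, ev_append, ev_cons, ev_append]
      simp only
      ring
    simp_rw [e, ev_cons]
    refine HasDerivAt.add ?_ ih
    have h0 : HasDerivAt (fun t : ℝ => 1 - t) (-1) t := by
      simpa using (hasDerivAt_id t).const_sub 1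
    have h1 : HasDerivAt (fun t => 1 - t + κ * s) (-1) t := h0.add_const _
    have h2 := (h1.fun_pow q.2.2).inv (pow_pos h q.2.2).ne'
    have h3 := ((h0.fun_pow q.2.1).const_mul q.1).mul h2
    have h4 : (fun t => q.1 * (1 - t) ^ q.2.1 / (1 - t + κ * s) ^ q.2.2)
        = (fun t => q.1 * (1 - t) ^ q.2.1) * ((fun t => (1 - t + κ * s) ^ q.2.2)⁻¹) := by
      funext s; simp [div_eq_mul_inv]
    rw [h4]
    refine h3.congr_deriv ?_
    have h5 := h.ne'
    rcases Nat.eq_zero_or_pos q.2.2 with h0 | h0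
    · simp [h0]
      ring
    · obtain ⟨m, hm⟩ : ∃ m, q.2.2 = m + 1 := ⟨q.2.2 - 1, by omega⟩
      rw [hm]
      simp only [Nat.add_sub_cancel, Pi.inv_apply]
      field_simp
      push_cast
      ring

theorem ev_contDiffOn (κ : ℝ) (l : Rad) :
    ContDiffOn ℝ ∞ (fun z : ℝ × V => ev κ l z.1 (sq z.2)) (Om κ) := by
  induction l with
  | nil => simpa [ev_nil] using contDiffOn_const
  | cons q l ih =>
    simp_rw [ev_cons]
    refine ContDiffOn.add (ContDiffOn.div ?_ ?_ ?_) ih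
    · exact ContDiff.contDiffOn (by fun_prop)
    · unfold sq
      exact ContDiff.contDiffOn (by fun_prop)
    · intro z hz
      exact (pow_pos hz _).ne'

/-- `F` has at `x` the gradient `G` -/
def HG (F : V → ℝ) (G : Fin 3 → ℝ) (x : V) : Prop :=
  HasFDerivAt F (∑ j, G j • (ContinuousLinearMap.proj j : V →L[ℝ] ℝ)) x

theorem HG.pd {F : V → ℝ} {G : Fin 3 → ℝ} {x : V} (h : HG F G x) (j : Fin 3) : pd j F x = G j := by
  unfold H459R3.NS.pd
  rw [HasFDerivAt.fderiv h]
  simp [Pi.single_apply]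

theorem HG.congr {F : V → ℝ} {G G' : Fin 3 → ℝ} {x : V} (h : HG F G x) (e : ∀ j, G j = G' j) :
    HG F G' x := by
  have : G = G' := funext e
  rwa [this] at h

theorem HG.const (r : ℝ) (x : V) : HG (fun _ => r) 0 x := by
  unfold HG
  simpa using hasFDerivAt_const r x

theorem HG.add {F F' : V → ℝ} {G G' : Fin 3 → ℝ} {x : V} (h : HG F G x) (h' : HG F' G' x) :
    HG (fun y => F y + F' y) (fun j => G j + G' j) x := by
  unfold HG at *
  have h1 := HasFDerivAt.fun_add h h'
  refine h1.congr_fderiv ?_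
  rw [← Finset.sum_add_distrib]
  simp_rw [add_smul]

theorem HG.mul {F F' : V → ℝ} {G G' : Fin 3 → ℝ} {x : V} (h : HG F G x) (h' : HG F' G' x) :
    HG (fun y => F y * F' y) (fun j => G j * F' x + F x * G' j) x := by
  unfold HG at *
  have h1 := HasFDerivAt.fun_mul h h'
  refine h1.congr_fderiv ?_
  simp_rw [add_smul, Finset.sum_add_distrib, Finset.smul_sum, smul_smul]
  rw [add_comm]
  congr 1
  refine Finset.sum_congr rfl fun j _ => ?_
  rw [mul_comm]

theorem HG.const_mul {F : V → ℝ} {G : Fin 3 → ℝ} {x : V} (h : HG F G x) (r : ℝ) :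
    HG (fun y => r * F y) (fun j => r * G j) x :=
  ((HG.const r x).mul h).congr fun j => by simp

theorem HG.sum {ι : Type*} (s : Finset ι) {F : ι → V → ℝ} {G : ι → Fin 3 → ℝ} {x : V}
    (h : ∀ i ∈ s, HG (F i) (G i) x) :
    HG (fun y => ∑ i ∈ s, F i y) (fun j => ∑ i ∈ s, G i j) x := by
  classical
  induction s using Finset.induction_on with
  | empty => exact (HG.const 0 x).congr fun j => by simp
  | insert a s ha ih =>
    simp_rw [Finset.sum_insert ha]
    exact (h a (Finset.mem_insert_self _ _)).add (ih fun i hi => h i (Finset.mem_insert_of_mem hi))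

theorem HG.coord (i : Fin 3) (x : V) : HG (fun y => y i) (fun j => if j = i then 1 else 0) x := by
  unfold HG
  have h1 : HasFDerivAt (fun y : V => y i) (ContinuousLinearMap.proj i : V →L[ℝ] ℝ) x :=
    (ContinuousLinearMap.proj i : V →L[ℝ] ℝ).hasFDerivAt
  refine h1.congr_fderiv ?_
  simp

theorem HG.lin (a : Fin 3 → ℝ) (x : V) : HG (fun y => ∑ m, a m * y m) a x := by
  refine (HG.sum Finset.univ fun m _ => (HG.coord m x).const_mul (a m)).congr fun j => ?_
  simp

theorem HG.sq (x : V) : HG sq (fun j => 2 * x j) x := by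
  have h : HG (fun y : V => ∑ i, y i * y i)
      (fun j => ∑ i, ((if j = i then 1 else 0) * x i + x i * (if j = i then 1 else 0))) x :=
    HG.sum Finset.univ fun i _ => (HG.coord i x).mul (HG.coord i x)
  have e : NC.sq = fun y : V => ∑ i, y i * y i := by
    funext y
    simp [NC.sq, pow_two]
  rw [e]
  refine h.congr fun j => ?_
  simp [Finset.sum_add_distrib]
  ring

theorem HG.comp {F : V → ℝ} {G : Fin 3 → ℝ} {x : V} {φ : ℝ → ℝ} {φ' : ℝ} (h : HG F G x)
    (hφ : HasDerivAt φ φ' (F x)) : HG (fun y => φ (F y)) (fun j => φ' * G j) x := by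
  unfold HG at *
  have h1 := hφ.comp_hasFDerivAt x h
  refine h1.congr_fderiv ?_
  rw [Finset.smul_sum]
  simp_rw [smul_smul]

theorem HG.ev {κ t : ℝ} {x : V} (l : Rad) (h : 0 < 1 - t + κ * NC.sq x) :
    HG (fun y => ev κ l t (NC.sq y)) (fun j => 2 * x j * NC.ev κ (dS κ l) t (NC.sq x)) x :=
  ((HG.sq x).comp (ev_hasDerivAt_s l h)).congr fun j => by ring

end Pool.Agent.N983.NC
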