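import Pool.Agent.N983.NC.Defs
import Pool.Agent.H459R3.NS.Evo

/-!
Uniqueness of smooth periodic solutions of the systems with several components.
-/

open MeasureTheory Set Filter Topology
open scoped ContDiff

namespace Pool.Agent.N983.NC

open H459R3.NS

variable {K : Type*} [Fintype K] {c : K → K → K → ℝ} {ν T : ℝ} {f u v : K → ℝ → V → V}
  {p q : K → ℝ → V → ℝ}

theorem SolI.smooth_c (h : SolI c ν T f u p) (a : K) (i : Fin 3) :
    ContDiffOn ℝ ∞ (fun z : ℝ × V => u a z.1 z.2 i) (Ico 0 T ×ˢ univ) :=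
  (contDiffOn_pi.1 (h.smooth_u a)) i

theorem SolI.sp (h : SolI c ν T f u p) {t : ℝ} (ht : t ∈ Ico 0 T) (a : K) (i : Fin 3) :
    SP (fun y => u a t y i) where
  smooth := contDiff_slice (f := fun t y => u a t y i) (h.smooth_c a i) ht
  per := fun j x => by simp only [h.per_u a t ht j x]

theorem SolI.sp_p (h : SolI c ν T f u p) {t : ℝ} (ht : t ∈ Ico 0 T) (a : K) : SP (p a t) where
  smooth := contDiff_slice (h.smooth_p a) ht
  per := h.per_p a t ht

theorem SP.neg {g : V → ℝ} (hg : SP g) : SP (fun x => -g x) where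
  smooth := hg.smooth.neg
  per := fun i x => by simp only [hg.per i x]

theorem SP.sub {g h : V → ℝ} (hg : SP g) (hh : SP h) : SP (fun x => g x - h x) where
  smooth := hg.smooth.sub hh.smooth
  per := fun i x => by simp only [hg.per i x, hh.per i x]

theorem SP.const_mul {g : V → ℝ} (hg : SP g) (r : ℝ) : SP (fun x => r * g x) where
  smooth := contDiff_const.mul hg.smooth
  per := fun i x => by simp only [hg.per i x]

theorem pd_sub {g h : V → ℝ} (hg : SP g) (hh : SP h) (j : Fin 3) (x : V) :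
    pd j (fun y => g y - h y) x = pd j g x - pd j h x := by
  unfold pd
  have e : HasFDerivAt (fun y => g y - h y) _ x := (hg.diff x).hasFDerivAt.sub (hh.diff x).hasFDerivAt
  rw [e.fderiv]
  simp

/-- `∑ⱼ ∫ vⱼ ∂ⱼ (g h) = 0` -/
theorem transport2 {w : Fin 3 → V → ℝ} (hw : ∀ i, SP (w i)) (hdiv : ∀ x, ∑ i, pd i (w i) x = 0)
    {g h : V → ℝ} (hg : SP g) (hh : SP h) :
    (∑ j, ∫ x in cube, w j x * (g x * pd j h x)) = - ∑ j, ∫ x in cube, w j x * (h x * pd j g x) := by
  have h1 : ∀ j, (∫ x in cube, w j x * (g x * pd j h x)) + (∫ x in cube, w j x * (h x * pd j g x))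
      = - ∫ x in cube, pd j (w j) x * (g x * h x) := by
    intro j
    rw [ibp (hw j) (hg.mul hh) j, neg_neg, ← integral_add
      ((hw j).mul (hg.mul (hh.pd j))).int ((hw j).mul (hh.mul (hg.pd j))).int]
    congr 1
    funext x
    rw [pd_mul hg hh]
    ring
  rw [eq_neg_iff_add_eq_zero, ← Finset.sum_add_distrib]
  simp_rw [h1]
  rw [Finset.sum_neg_distrib, ← integral_finsetSum _ fun j _ => (((hw j).pd j).mul (hg.mul hh)).int]
  have : ∀ x, ∑ j, pd j (w j) x * (g x * h x) = 0 := by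
    intro x
    rw [← Finset.sum_mul, hdiv, zero_mul]
  simp_rw [this]
  simp

/-- The difference energy. -/
noncomputable def dE (u v : K → ℝ → V → V) (t : ℝ) : ℝ :=
  ∑ a, ∑ i, ∫ x in cube, (u a t x i - v a t x i) ^ 2

theorem sym_cyc (hc : Sym c) (a b d : K) : c a b d = c d b a := by
  rw [(hc a b d).1, (hc b a d).2, (hc b d a).1]

/-- the cancellation of the transport terms -/
theorem trans_cancel (hc : Sym c) (X : K → K → K → ℝ) (hX : ∀ a b d, X a b d = - X d b a) :
    ∑ a, ∑ b, ∑ d, c a b d * X a b d = 0 := by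
  have h1 : ∑ a, ∑ b, ∑ d, c a b d * X a b d = ∑ a, ∑ b, ∑ d, c d b a * X d b a := by
    calc ∑ a, ∑ b, ∑ d, c a b d * X a b d = ∑ b, ∑ a, ∑ d, c a b d * X a b d := Finset.sum_comm
      _ = ∑ b, ∑ d, ∑ a, c a b d * X a b d := Finset.sum_congr rfl fun b _ => Finset.sum_comm
      _ = ∑ a, ∑ b, ∑ d, c d b a * X d b a := Finset.sum_comm
  have h2 : ∑ a, ∑ b, ∑ d, c d b a * X d b a = - ∑ a, ∑ b, ∑ d, c a b d * X a b d := by
    simp_rw [← Finset.sum_neg_distrib]
    refine Finset.sum_congr rfl fun a _ => Finset.sum_congr rfl fun b _ =>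
      Finset.sum_congr rfl fun d _ => ?_
    rw [← sym_cyc hc a b d, hX a b d]
    ring
  linarith

end Pool.Agent.N983.NC
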