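import Pool.Agent.N983.NC.Uniq

/-!
Uniqueness of smooth periodic solutions of the systems with several components.
-/

open MeasureTheory Set Filter Topology
open scoped ContDiff

namespace Pool.Agent.N983.NC

open H459R3.NS

variable {K : Type*} [Fintype K] {c : K → K → K → ℝ} {ν T : ℝ} {f u v : K → ℝ → V → V}
  {p q : K → ℝ → V → ℝ}

theorem SolI.dt_eq' (h : SolI c ν T f u p) {t : ℝ} (ht : t ∈ Ioo 0 T) (a : K) (i : Fin 3) (x : V) :
    dt (fun s y => u a s y i) t x = ν * lap (fun y => u a t y i) x - pd i (p a t) x + f a t x i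
      - ∑ b, ∑ d, c a b d * ∑ j, u b t x j * pd j (fun y => u d t y i) x := by
  have h1 := h.momentum a t ht x i
  unfold dt lap
  linarith

section fixed

variable (hu : SolI c ν T f u p) (hv : SolI c ν T f v q)

include hu hv

theorem spw {t : ℝ} (ht : t ∈ Ico 0 T) (a : K) (i : Fin 3) :
    SP (fun x => u a t x i - v a t x i) := SP.sub (hu.sp ht a i) (hv.sp ht a i)

theorem divw {t : ℝ} (ht : t ∈ Ico 0 T) (a : K) (x : V) :
    ∑ i, pd i (fun x => u a t x i - v a t x i) x = 0 := by
  simp_rw [pd_sub (hu.sp ht a _) (hv.sp ht a _)]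
  rw [Finset.sum_sub_distrib, hu.divfree a t ht x, hv.divfree a t ht x, sub_zero]

theorem lapw {t : ℝ} (ht : t ∈ Ico 0 T) (a : K) (i : Fin 3) (x : V) :
    lap (fun x => u a t x i - v a t x i) x = lap (fun y => u a t y i) x - lap (fun y => v a t y i) x := by
  unfold lap
  rw [← Finset.sum_sub_distrib]
  refine Finset.sum_congr rfl fun j _ => ?_
  have e : pd j (fun x => u a t x i - v a t x i)
      = fun x => pd j (fun y => u a t y i) x - pd j (fun y => v a t y i) x := by
    funext x; exact pd_sub (hu.sp ht a i) (hv.sp ht a i) j x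
  rw [e, pd_sub ((hu.sp ht a i).pd j) ((hv.sp ht a i).pd j)]

theorem dt_diff {t : ℝ} (ht : t ∈ Ioo 0 T) (a : K) (i : Fin 3) (x : V) :
    dt (fun s y => u a s y i) t x - dt (fun s y => v a s y i) t x
      = ν * lap (fun x => u a t x i - v a t x i) x - pd i (fun x => p a t x - q a t x) x
        - ∑ b, ∑ d, c a b d * ∑ j, (u b t x j * pd j (fun x => u d t x i - v d t x i) x
          + (u b t x j - v b t x j) * pd j (fun y => v d t y i) x) := by
  have hI : t ∈ Ico 0 T := ⟨ht.1.le, ht.2⟩
  rw [hu.dt_eq' ht, hv.dt_eq' ht, lapw hu hv hI, pd_sub (hu.sp_p hI a) (hv.sp_p hI a)]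
  have e : ∀ b d, c a b d * ∑ j, (u b t x j * pd j (fun x => u d t x i - v d t x i) x
          + (u b t x j - v b t x j) * pd j (fun y => v d t y i) x)
      = c a b d * ∑ j, u b t x j * pd j (fun y => u d t y i) x
        - c a b d * ∑ j, v b t x j * pd j (fun y => v d t y i) x := by
    intro b d
    rw [← mul_sub, ← Finset.sum_sub_distrib]
    congr 1
    refine Finset.sum_congr rfl fun j _ => ?_
    rw [pd_sub (hu.sp hI d i) (hv.sp hI d i)]
    ring
  simp_rw [e, Finset.sum_sub_distrib]
  ring

/-- the transport part -/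
theorem X_anti {t : ℝ} (ht : t ∈ Ico 0 T) (a b d : K) :
    (∑ i, ∑ j, ∫ x in cube, u b t x j * ((u a t x i - v a t x i)
        * pd j (fun x => u d t x i - v d t x i) x))
      = - ∑ i, ∑ j, ∫ x in cube, u b t x j * ((u d t x i - v d t x i)
        * pd j (fun x => u a t x i - v a t x i) x) := by
  rw [← Finset.sum_neg_distrib]
  refine Finset.sum_congr rfl fun i _ => ?_
  exact transport2 (w := fun j x => u b t x j) (fun j => hu.sp ht b j) (hu.divfree b t ht)
    (spw hu hv ht a i) (spw hu hv ht d i)

theorem dE_hasDerivAt (hc : Sym c) {t : ℝ} (ht : t ∈ Ioo 0 T) :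
    HasDerivAt (dE u v) (2 * (-(ν * ∑ a, ∑ i, ∑ j, ∫ x in cube,
        pd j (fun x => u a t x i - v a t x i) x * pd j (fun x => u a t x i - v a t x i) x)
      - ∑ a, ∑ b, ∑ d, c a b d * ∑ i, ∑ j, ∫ x in cube, (u a t x i - v a t x i)
        * ((u b t x j - v b t x j) * pd j (fun y => v d t y i) x))) t := by
  have hI : t ∈ Ico 0 T := ⟨ht.1.le, ht.2⟩
  have hsp := fun a i => spw hu hv hI a i
  -- derivative of each integral
  have h1 : ∀ a i, HasDerivAt (fun s => ∫ x in cube, (u a s x i - v a s x i) ^ 2)
      (2 * ∫ x in cube, (u a t x i - v a t x i)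
        * (dt (fun s y => u a s y i) t x - dt (fun s y => v a s y i) t x)) t := by
    intro a i
    have hF : ContDiffOn ℝ 1 (fun z : ℝ × V => (u a z.1 z.2 i - v a z.1 z.2 i) ^ 2)
        (Ioo 0 T ×ˢ univ) :=
      ((mono_Ioo (f := fun s y => u a s y i) (hu.smooth_c a i) (by norm_cast)).sub
        (mono_Ioo (f := fun s y => v a s y i) (hv.smooth_c a i) (by norm_cast))).pow 2
    have key := hasDerivAt_int (F := fun s x => (u a s x i - v a s x i) ^ 2) hF ht
    refine key.congr_deriv ?_
    rw [← integral_const_mul]
    congr 1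
    funext x
    have h2 : HasDerivAt (fun s => u a s x i) (dt (fun s y => u a s y i) t x) t := by
      have := hasDerivAt_slice (F := fun s y => u a s y i)
        (mono_Ioo (f := fun s y => u a s y i) (hu.smooth_c a i) (by norm_cast)) ht x
      rwa [← H459R3.NS.dt_eq (f := fun s y => u a s y i) (hu.smooth_c a i) ht x] at this
    have h2' : HasDerivAt (fun s => v a s x i) (dt (fun s y => v a s y i) t x) t := by
      have := hasDerivAt_slice (F := fun s y => v a s y i)
        (mono_Ioo (f := fun s y => v a s y i) (hv.smooth_c a i) (by norm_cast)) ht x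
      rwa [← H459R3.NS.dt_eq (f := fun s y => v a s y i) (hv.smooth_c a i) ht x] at this
    have h3 : HasDerivAt (fun s => (u a s x i - v a s x i) ^ 2) _ t := (h2.sub h2').pow 2
    rw [h3.deriv]
    simp only [Pi.sub_apply]
    push_cast
    ring
  have h2 : HasDerivAt (dE u v) (∑ a, ∑ i, 2 * ∫ x in cube, (u a t x i - v a t x i)
        * (dt (fun s y => u a s y i) t x - dt (fun s y => v a s y i) t x)) t :=
    HasDerivAt.fun_sum fun a _ => HasDerivAt.fun_sum fun i _ => h1 a i
  refine h2.congr_deriv ?_
  simp_rw [← Finset.mul_sum]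
  congr 1
  -- integrate each term
  have e1 : ∀ a i, (∫ x in cube, (u a t x i - v a t x i)
        * (dt (fun s y => u a s y i) t x - dt (fun s y => v a s y i) t x))
      = ν * (∫ x in cube, lap (fun x => u a t x i - v a t x i) x * (u a t x i - v a t x i))
        - (∫ x in cube, (u a t x i - v a t x i) * pd i (fun x => p a t x - q a t x) x)
        - ∑ b, ∑ d, c a b d * ∑ j, ((∫ x in cube, u b t x j * ((u a t x i - v a t x i)
            * pd j (fun x => u d t x i - v d t x i) x))
          + ∫ x in cube, (u a t x i - v a t x i)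
            * ((u b t x j - v b t x j) * pd j (fun y => v d t y i) x)) := by
    intro a i
    have e : ∀ x, (u a t x i - v a t x i)
        * (dt (fun s y => u a s y i) t x - dt (fun s y => v a s y i) t x)
        = ν * (lap (fun x => u a t x i - v a t x i) x * (u a t x i - v a t x i))
          - (u a t x i - v a t x i) * pd i (fun x => p a t x - q a t x) x
          - ∑ b, ∑ d, c a b d * ∑ j, (u b t x j * ((u a t x i - v a t x i)
            * pd j (fun x => u d t x i - v d t x i) x)
            + (u a t x i - v a t x i)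
            * ((u b t x j - v b t x j) * pd j (fun y => v d t y i) x)) := by
      intro x
      rw [dt_diff hu hv ht, mul_sub, mul_sub, Finset.mul_sum]
      congr 1
      · ring
      · refine Finset.sum_congr rfl fun b _ => ?_
        rw [Finset.mul_sum]
        refine Finset.sum_congr rfl fun d _ => ?_
        rw [mul_left_comm, Finset.mul_sum]
        congr 1
        refine Finset.sum_congr rfl fun j _ => ?_
        ring
    simp_rw [e]
    have s3 : ∀ b d j, SP (fun x => u b t x j * ((u a t x i - v a t x i)
            * pd j (fun x => u d t x i - v d t x i) x)) := fun b d j =>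
      (hu.sp hI b j).mul ((hsp a i).mul ((hsp d i).pd j))
    have s4 : ∀ b d j, SP (fun x => (u a t x i - v a t x i)
            * ((u b t x j - v b t x j) * pd j (fun y => v d t y i) x)) := fun b d j =>
      (hsp a i).mul ((hsp b j).mul ((hv.sp hI d i).pd j))
    have s5 : ∀ b d, SP (fun x => c a b d * ∑ j, (u b t x j * ((u a t x i - v a t x i)
            * pd j (fun x => u d t x i - v d t x i) x)
            + (u a t x i - v a t x i)
            * ((u b t x j - v b t x j) * pd j (fun y => v d t y i) x))) := fun b d =>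
      SP.const_mul (SP.sum fun j _ => (s3 b d j).add (s4 b d j)) _
    have i1 : IntegrableOn (fun x => ν * (lap (fun x => u a t x i - v a t x i) x
        * (u a t x i - v a t x i))) cube := ((hsp a i).lap.mul (hsp a i)).int.const_mul ν
    have i2 : IntegrableOn (fun x => (u a t x i - v a t x i)
        * pd i (fun x => p a t x - q a t x) x) cube :=
      ((hsp a i).mul ((SP.sub (hu.sp_p hI a) (hv.sp_p hI a)).pd i)).int
    have i3 : IntegrableOn (fun x => ∑ b, ∑ d, c a b d * ∑ j, (u b t x j * ((u a t x i - v a t x i)
            * pd j (fun x => u d t x i - v d t x i) x)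
            + (u a t x i - v a t x i)
            * ((u b t x j - v b t x j) * pd j (fun y => v d t y i) x))) cube :=
      (SP.sum fun b _ => SP.sum fun d _ => s5 b d).int
    have i12 : IntegrableOn (fun x => ν * (lap (fun x => u a t x i - v a t x i) x
        * (u a t x i - v a t x i)) - (u a t x i - v a t x i)
        * pd i (fun x => p a t x - q a t x) x) cube := i1.sub i2
    rw [integral_sub i12 i3, integral_sub i1 i2, integral_const_mul]
    congr 1
    rw [integral_finsetSum _ fun b _ => (SP.sum fun d _ => s5 b d).int]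
    refine Finset.sum_congr rfl fun b _ => ?_
    rw [integral_finsetSum _ fun d _ => (s5 b d).int]
    refine Finset.sum_congr rfl fun d _ => ?_
    rw [integral_const_mul, integral_finsetSum _ fun j _ => ((s3 b d j).add (s4 b d j)).int]
    congr 1
    refine Finset.sum_congr rfl fun j _ => ?_
    exact integral_add (s3 b d j).int (s4 b d j).int
  simp_rw [e1, Finset.sum_sub_distrib]
  have z1 : ∑ a, ∑ i, ∫ x in cube, (u a t x i - v a t x i) * pd i (fun x => p a t x - q a t x) x = 0 :=
    Finset.sum_eq_zero fun a _ => int_press (v := fun i x => u a t x i - v a t x i)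
      (fun i => hsp a i) (divw hu hv hI a) (SP.sub (hu.sp_p hI a) (hv.sp_p hI a))
  have z2 : ∑ a, ∑ i, ν * (∫ x in cube, lap (fun x => u a t x i - v a t x i) x
      * (u a t x i - v a t x i)) = -(ν * ∑ a, ∑ i, ∑ j, ∫ x in cube,
        pd j (fun x => u a t x i - v a t x i) x * pd j (fun x => u a t x i - v a t x i) x) := by
    simp_rw [int_lap_mul (hsp _ _) (hsp _ _), Finset.mul_sum, mul_neg, Finset.sum_neg_distrib,
      Finset.mul_sum]
  have z3 : ∑ a, ∑ i, ∑ b, ∑ d, c a b d * ∑ j, ((∫ x in cube, u b t x j * ((u a t x i - v a t x i)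
            * pd j (fun x => u d t x i - v d t x i) x))
          + ∫ x in cube, (u a t x i - v a t x i)
            * ((u b t x j - v b t x j) * pd j (fun y => v d t y i) x))
      = ∑ a, ∑ b, ∑ d, c a b d * ∑ i, ∑ j, ∫ x in cube, (u a t x i - v a t x i)
        * ((u b t x j - v b t x j) * pd j (fun y => v d t y i) x) := by
    have r1 : ∀ a, ∑ i, ∑ b, ∑ d, c a b d * ∑ j, ((∫ x in cube, u b t x j * ((u a t x i - v a t x i)
            * pd j (fun x => u d t x i - v d t x i) x))
          + ∫ x in cube, (u a t x i - v a t x i)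
            * ((u b t x j - v b t x j) * pd j (fun y => v d t y i) x))
        = ∑ b, ∑ d, (c a b d * (∑ i, ∑ j, ∫ x in cube, u b t x j * ((u a t x i - v a t x i)
            * pd j (fun x => u d t x i - v d t x i) x))
          + c a b d * ∑ i, ∑ j, ∫ x in cube, (u a t x i - v a t x i)
            * ((u b t x j - v b t x j) * pd j (fun y => v d t y i) x)) := by
      intro a
      rw [Finset.sum_comm]
      refine Finset.sum_congr rfl fun b _ => ?_
      rw [Finset.sum_comm]
      refine Finset.sum_congr rfl fun d _ => ?_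
      rw [← Finset.mul_sum, ← mul_add, ← Finset.sum_add_distrib]
      congr 1
      refine Finset.sum_congr rfl fun i _ => ?_
      rw [← Finset.sum_add_distrib]
    simp_rw [r1, Finset.sum_add_distrib]
    rw [trans_cancel hc _ (fun a b d => X_anti hu hv hI a b d), zero_add]
  rw [z1, z2, z3, sub_zero]

theorem dE_continuousOn : ContinuousOn (dE u v) (Ico 0 T) := by
  unfold dE
  refine continuousOn_finsetSum _ fun a _ => continuousOn_finsetSum _ fun i _ => ?_
  exact continuousOn_int (F := fun s x => (u a s x i - v a s x i) ^ 2)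
    (((hu.smooth_c a i).continuousOn.sub (hv.smooth_c a i).continuousOn).pow 2)

end fixed

end Pool.Agent.N983.NC
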