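import Pool.Agent.N983.NC.Uniq2

/-!
Uniqueness of smooth periodic solutions of the systems with several components.
-/

open MeasureTheory Set Filter Topology
open scoped ContDiff

namespace Pool.Agent.N983.NC

open H459R3.NS

variable {K : Type*} [Fintype K] {c : K → K → K → ℝ} {ν T : ℝ} {f u v : K → ℝ → V → V}
  {p q : K → ℝ → V → ℝ}

theorem isCompact_cube : IsCompact cube := isCompact_Icc

theorem measurableSet_cube : MeasurableSet cube := isCompact_cube.isClosed.measurableSet

theorem SolI.bound_grad (hv : SolI c ν T f v q) {s : ℝ} (hs : s < T) :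
    ∃ M, 0 ≤ M ∧ ∀ t ∈ Icc 0 s, ∀ x ∈ cube, ∀ d i j, |pd j (fun y => v d t y i) x| ≤ M := by
  have h1 : ∀ (d : K) (i j : Fin 3), ∃ M, ∀ t ∈ Icc 0 s, ∀ x ∈ cube,
      |pd j (fun y => v d t y i) x| ≤ M := by
    intro d i j
    have h2 : ContinuousOn (fun z : ℝ × V => pd j (fun y => v d z.1 y i) z.2) (Icc 0 s ×ˢ cube) :=
      ((contDiffOn_pd (f := fun t y => v d t y i) (hv.smooth_c d i) j).continuousOn).mono
        (prod_mono (Icc_subset_Ico_right hs) (subset_univ _))
    obtain ⟨M, hM⟩ := (isCompact_Icc.prod isCompact_cube).exists_bound_of_continuousOn h2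
    exact ⟨M, fun t ht x hx => hM (t, x) ⟨ht, hx⟩⟩
  choose M hM using h1
  refine ⟨∑ d, ∑ i, ∑ j, |M d i j|, by positivity, fun t ht x hx d i j => ?_⟩
  calc |pd j (fun y => v d t y i) x| ≤ |M d i j| := (hM d i j t ht x hx).trans (le_abs_self _)
    _ ≤ ∑ j, |M d i j| := Finset.single_le_sum (f := fun j => |M d i j|)
        (fun _ _ => abs_nonneg _) (Finset.mem_univ j)
    _ ≤ ∑ i, ∑ j, |M d i j| := Finset.single_le_sum (f := fun i => ∑ j, |M d i j|)
        (fun _ _ => by positivity) (Finset.mem_univ i)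
    _ ≤ ∑ d, ∑ i, ∑ j, |M d i j| := Finset.single_le_sum (f := fun d => ∑ i, ∑ j, |M d i j|)
        (fun _ _ => by positivity) (Finset.mem_univ d)

theorem Y_bound (hu : SolI c ν T f u p) (hv : SolI c ν T f v q) {t : ℝ} (ht : t ∈ Ico 0 T)
    {M : ℝ} (hM0 : 0 ≤ M)
    (hM : ∀ x ∈ cube, ∀ d i j, |pd j (fun y => v d t y i) x| ≤ M) :
    |∑ a, ∑ b, ∑ d, c a b d * ∑ i, ∑ j, ∫ x in cube, (u a t x i - v a t x i)
        * ((u b t x j - v b t x j) * pd j (fun y => v d t y i) x)|
      ≤ (∑ a, ∑ b, ∑ d, |c a b d| * 9) * M * dE u v t := by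
  have hW : ∀ x, ∀ a i, (u a t x i - v a t x i) ^ 2 ≤ ∑ a, ∑ i, (u a t x i - v a t x i) ^ 2 := by
    intro x a i
    calc (u a t x i - v a t x i) ^ 2 ≤ ∑ i, (u a t x i - v a t x i) ^ 2 :=
          Finset.single_le_sum (f := fun i => (u a t x i - v a t x i) ^ 2)
            (fun _ _ => sq_nonneg _) (Finset.mem_univ i)
      _ ≤ _ := Finset.single_le_sum (f := fun a => ∑ i, (u a t x i - v a t x i) ^ 2)
            (fun _ _ => by positivity) (Finset.mem_univ a)
  have hsp : ∀ a i, SP (fun x => (u a t x i - v a t x i) ^ 2) := by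
    intro a i
    have := (spw hu hv ht a i).mul (spw hu hv ht a i)
    simp_rw [← pow_two] at this
    exact this
  have hspW : SP (fun x => ∑ a, ∑ i, (u a t x i - v a t x i) ^ 2) :=
    SP.sum fun a _ => SP.sum fun i _ => hsp a i
  have hI : ∫ x in cube, M * (∑ a, ∑ i, (u a t x i - v a t x i) ^ 2) = M * dE u v t := by
    rw [integral_const_mul]
    congr 1
    unfold dE
    rw [integral_finsetSum _ fun a _ => (SP.sum fun i _ => hsp a i).int]
    refine Finset.sum_congr rfl fun a _ => ?_
    rw [integral_finsetSum _ fun i _ => (hsp a i).int]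
  have key : ∀ a b d i j, |∫ x in cube, (u a t x i - v a t x i)
        * ((u b t x j - v b t x j) * pd j (fun y => v d t y i) x)| ≤ M * dE u v t := by
    intro a b d i j
    rw [← hI, ← Real.norm_eq_abs]
    refine norm_integral_le_of_norm_le (hspW.int.const_mul M) ?_
    refine ae_restrict_of_forall_mem measurableSet_cube fun x hx => ?_
    rw [Real.norm_eq_abs, abs_mul, abs_mul, ← mul_assoc, mul_comm]
    refine mul_le_mul (hM x hx d i j) ?_ (by positivity) hM0
    have h1 := hW x a i
    have h2 := hW x b j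
    rw [← sq_abs] at h1 h2
    nlinarith [sq_nonneg (|u a t x i - v a t x i| - |u b t x j - v b t x j|)]
  calc _ ≤ ∑ a, ∑ b, ∑ d, |c a b d| * ∑ i : Fin 3, ∑ j : Fin 3, M * dE u v t := by
        refine (Finset.abs_sum_le_sum_abs _ _).trans (Finset.sum_le_sum fun a _ => ?_)
        refine (Finset.abs_sum_le_sum_abs _ _).trans (Finset.sum_le_sum fun b _ => ?_)
        refine (Finset.abs_sum_le_sum_abs _ _).trans (Finset.sum_le_sum fun d _ => ?_)
        rw [abs_mul]
        refine mul_le_mul_of_nonneg_left ?_ (abs_nonneg _)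
        refine (Finset.abs_sum_le_sum_abs _ _).trans (Finset.sum_le_sum fun i _ => ?_)
        exact (Finset.abs_sum_le_sum_abs _ _).trans (Finset.sum_le_sum fun j _ => key a b d i j)
    _ = _ := by
        simp only [Finset.sum_const, Finset.card_univ, Fintype.card_fin, nsmul_eq_mul,
          Finset.sum_mul]
        refine Finset.sum_congr rfl fun a _ => Finset.sum_congr rfl fun b _ =>
          Finset.sum_congr rfl fun d _ => ?_
        push_cast
        ring

theorem dE_nonneg (u v : K → ℝ → V → V) (t : ℝ) : 0 ≤ dE u v t :=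
  Finset.sum_nonneg fun _ _ => Finset.sum_nonneg fun _ _ => integral_nonneg fun _ => sq_nonneg _

theorem SolI.dE_zero (hc : Sym c) (hν : 0 ≤ ν) (hu : SolI c ν T f u p) (hv : SolI c ν T f v q)
    (h0 : ∀ a, u a 0 = v a 0) {s : ℝ} (hs : s ∈ Ico 0 T) : dE u v s = 0 := by
  obtain ⟨M, hM0, hM⟩ := hv.bound_grad hs.2
  set L : ℝ := 2 * ((∑ a, ∑ b, ∑ d, |c a b d| * 9) * M) with hL
  have hE0 : dE u v 0 = 0 := by
    unfold dE
    simp [h0]
  have hsub : Icc 0 s ⊆ Ico 0 T := Icc_subset_Ico_right hs.2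
  have hder : ∀ t ∈ Ioo 0 s, HasDerivAt (fun t => dE u v t * Real.exp (-L * t))
      ((2 * (-(ν * ∑ a, ∑ i, ∑ j, ∫ x in cube,
        pd j (fun x => u a t x i - v a t x i) x * pd j (fun x => u a t x i - v a t x i) x)
      - ∑ a, ∑ b, ∑ d, c a b d * ∑ i, ∑ j, ∫ x in cube, (u a t x i - v a t x i)
        * ((u b t x j - v b t x j) * pd j (fun y => v d t y i) x))) * Real.exp (-L * t)
        + dE u v t * (Real.exp (-L * t) * (-L))) t := by
    intro t ht
    have h1 := dE_hasDerivAt hu hv hc (t := t) ⟨ht.1, ht.2.trans hs.2⟩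
    have h2 : HasDerivAt (fun t => Real.exp (-L * t)) (Real.exp (-L * t) * (-L)) t := by
      have := ((hasDerivAt_id t).const_mul (-L)).exp
      simpa using this
    exact h1.mul h2
  have hanti : AntitoneOn (fun t => dE u v t * Real.exp (-L * t)) (Icc 0 s) := by
    refine antitoneOn_of_deriv_nonpos (convex_Icc 0 s) ?_ ?_ ?_
    · exact ((dE_continuousOn hu hv).mono hsub).mul (by fun_prop)
    · rw [interior_Icc]
      exact fun t ht => (hder t ht).differentiableAt.differentiableWithinAt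
    · rw [interior_Icc]
      intro t ht
      rw [(hder t ht).deriv]
      have h1 : 0 ≤ ν * ∑ a, ∑ i, ∑ j, ∫ x in cube,
        pd j (fun x => u a t x i - v a t x i) x * pd j (fun x => u a t x i - v a t x i) x := by
        refine mul_nonneg hν (Finset.sum_nonneg fun _ _ => Finset.sum_nonneg fun _ _ =>
          Finset.sum_nonneg fun _ _ => integral_nonneg fun _ => mul_self_nonneg _)
      have h2 := neg_le_of_abs_le (Y_bound hu hv (t := t) ⟨ht.1.le, ht.2.trans hs.2⟩ hM0
        (hM t ⟨ht.1.le, ht.2.le⟩))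
      have h3 := Real.exp_pos (-L * t)
      have h4 : 2 * (-(ν * ∑ a, ∑ i, ∑ j, ∫ x in cube,
        pd j (fun x => u a t x i - v a t x i) x * pd j (fun x => u a t x i - v a t x i) x)
      - ∑ a, ∑ b, ∑ d, c a b d * ∑ i, ∑ j, ∫ x in cube, (u a t x i - v a t x i)
        * ((u b t x j - v b t x j) * pd j (fun y => v d t y i) x)) - dE u v t * L ≤ 0 := by
        rw [hL]
        nlinarith
      nlinarith
  have h5 := hanti (left_mem_Icc.2 hs.1) (right_mem_Icc.2 hs.1) hs.1
  simp only [hE0, zero_mul] at h5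
  have h6 : dE u v s ≤ 0 := by
    by_contra hcon
    push Not at hcon
    exact absurd h5 (not_le.2 (mul_pos hcon (Real.exp_pos _)))
  exact le_antisymm h6 (dE_nonneg u v s)

theorem cube_subset : cube ⊆ closure (interior cube) := by
  have h1 : cube = Set.pi univ fun _ : Fin 3 => Icc (0 : ℝ) 1 := by
    unfold cube
    rw [← Set.pi_univ_Icc]
    rfl
  rw [h1, interior_pi_set finite_univ, closure_pi_set]
  refine Set.pi_mono fun i _ => ?_
  rw [interior_Icc, closure_Ioo (by norm_num)]

theorem SP.eq_zero_of_int {g : V → ℝ} (hg : SP g) (h : ∫ x in cube, g x ^ 2 = 0) (x : V) :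
    g x = 0 := by
  have hint : IntegrableOn (fun x => g x ^ 2) cube := by
    have := (hg.mul hg).int
    simp_rw [← pow_two] at this
    exact this
  have h1 : (fun x => g x ^ 2) =ᵐ[volume.restrict cube] 0 :=
    (integral_eq_zero_iff_of_nonneg (fun _ => sq_nonneg _) hint).1 h
  have h2 : EqOn (fun x => g x ^ 2) (0 : V → ℝ) cube :=
    Measure.eqOn_of_ae_eq h1 ((hg.cont.pow 2).continuousOn) continuousOn_const cube_subset
  have h3 : g x = g (fun i => Int.fract (x i)) := by
    have := Per.int hg.per (fun i => ⌊x i⌋) (fun i => Int.fract (x i))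
    rw [← this]
    congr 1
    funext i
    simp
  rw [h3]
  have h4 := h2 (x := fun i => Int.fract (x i)) ⟨fun i => Int.fract_nonneg _,
    fun i => (Int.fract_lt_one _).le⟩
  simpa using h4

/-- Uniqueness of smooth periodic solutions. -/
theorem SolI.unique (hc : Sym c) (hν : 0 ≤ ν) (hu : SolI c ν T f u p) (hv : SolI c ν T f v q)
    (h0 : ∀ a, u a 0 = v a 0) (a : K) {t : ℝ} (ht : t ∈ Ico 0 T) : u a t = v a t := by
  have h1 := SolI.dE_zero hc hν hu hv h0 ht
  unfold dE at h1
  have h2 := (Finset.sum_eq_zero_iff_of_nonneg (fun a _ => Finset.sum_nonneg fun i _ =>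
    integral_nonneg fun x => sq_nonneg (u a t x i - v a t x i))).1 h1 a (Finset.mem_univ a)
  funext x i
  have h3 := (Finset.sum_eq_zero_iff_of_nonneg (fun i _ =>
    integral_nonneg fun x => sq_nonneg (u a t x i - v a t x i))).1 h2 i (Finset.mem_univ i)
  exact sub_eq_zero.1 (SP.eq_zero_of_int (spw hu hv ht a i) h3 x)

end Pool.Agent.N983.NC
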